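import Pool.Agent.H535.AW.Hs
import Pool.Graph.R_seed8.Erdos456.Mertens

set_option autoImplicit false

/-!
Sums of `μ²(t)/φ(t)` over the integers coprime to `s`: the two inequalities of Mertens type.
-/

open Finset

namespace Pool.Agent.H535.AW

/-- the sum of `log p / (p - 1)` over the primes dividing `s` -/
noncomputable def gs (s : ℕ) : ℝ := ∑ p ∈ s.primeFactors, Real.log p / ((p : ℝ) - 1)

theorem MM_bounds : ∃ C : ℝ, 0 ≤ C ∧ (∀ N : ℕ, 1 ≤ N →
    ∑ p ∈ (Icc 1 N).filter Nat.Prime, Real.log p / ((p : ℝ) - 1) ≤ Real.log N + C ∧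
    Real.log N - C ≤ ∑ p ∈ (Icc 1 N).filter Nat.Prime, Real.log p / ((p : ℝ) - 1)) ∧
    (∀ N : ℕ, ∑ p ∈ (Icc 1 N).filter Nat.Prime, Real.log p / ((p : ℝ) - 1) ^ 2 ≤ C) := by
  obtain ⟨Ca, ha0, ha⟩ := Pool.Agent.Erdos456.Mert.sum_small_bound
  obtain ⟨Cb, hb⟩ := Pool.Agent.Erdos456.Mert.mertens_log
  have hb0 : 0 ≤ Cb := (abs_nonneg _).trans (hb 1 le_rfl)
  refine ⟨2 * Ca + Cb, by positivity, fun N hN => ?_, fun N => ?_⟩
  · have e1 : ∑ p ∈ (Icc 1 N).filter Nat.Prime, Real.log p / ((p : ℝ) - 1) =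
        ∑ p ∈ (Icc 1 N).filter Nat.Prime, Real.log p / p +
        ∑ p ∈ (Icc 1 N).filter Nat.Prime, Real.log p / (p * (p - 1)) := by
      rw [← sum_add_distrib]
      refine sum_congr rfl fun p hp => ?_
      rw [mem_filter] at hp
      have h2 : (2 : ℝ) ≤ p := by exact_mod_cast hp.2.two_le
      have h3 : (p : ℝ) - 1 ≠ 0 := by linarith
      have h4 : (p : ℝ) ≠ 0 := by linarith
      field_simp
      ring
    have h1 := abs_le.1 (hb N hN)
    have h2 := ha N
    have h3 : 0 ≤ ∑ p ∈ (Icc 1 N).filter Nat.Prime, Real.log p / (p * ((p : ℝ) - 1)) := by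
      refine sum_nonneg fun p hp => ?_
      rw [mem_filter] at hp
      have h2 : (2 : ℝ) ≤ p := by exact_mod_cast hp.2.two_le
      exact div_nonneg (Real.log_nonneg (by linarith)) (mul_nonneg (by linarith) (by linarith))
    rw [e1]
    constructor
    · have : ∑ p ∈ (Icc 1 N).filter Nat.Prime, Real.log p / (p * ((p : ℝ) - 1)) ≤ Ca := h2
      linarith [h1.1, h1.2]
    · linarith [h1.1, h1.2]
  · have h2 := ha N
    have h3 : ∑ p ∈ (Icc 1 N).filter Nat.Prime, Real.log p / ((p : ℝ) - 1) ^ 2 ≤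
        ∑ p ∈ (Icc 1 N).filter Nat.Prime, 2 * (Real.log p / (p * ((p : ℝ) - 1))) := by
      refine sum_le_sum fun p hp => ?_
      rw [mem_filter] at hp
      have h2 : (2 : ℝ) ≤ p := by exact_mod_cast hp.2.two_le
      have h5 : 0 ≤ Real.log p := Real.log_nonneg (by linarith)
      have h6 : (0 : ℝ) < (p : ℝ) - 1 := by linarith
      have h7 : (0 : ℝ) < p := by linarith
      rw [mul_div_assoc', div_le_div_iff₀ (by positivity) (by positivity)]
      nlinarith [mul_nonneg h5 h6.le, mul_nonneg (mul_nonneg h5 h6.le) (by linarith : (0:ℝ) ≤ p - 2)]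
    rw [← mul_sum] at h3
    have : ∑ p ∈ (Icc 1 N).filter Nat.Prime, Real.log p / (p * ((p : ℝ) - 1)) ≤ Ca := h2
    linarith

theorem gs_nonneg (s : ℕ) : 0 ≤ gs s := by
  unfold gs
  refine sum_nonneg fun p hp => ?_
  have h2 : (2 : ℝ) ≤ p := by exact_mod_cast (Nat.prime_of_mem_primeFactors hp).two_le
  exact div_nonneg (Real.log_nonneg (by linarith)) (by linarith)

theorem floor_half (z : ℝ) (hz : 1 ≤ z) : z / 2 ≤ (⌊z⌋₊ : ℝ) := by
  have h1 := Nat.lt_floor_add_one z
  have h2 : (1 : ℝ) ≤ (⌊z⌋₊ : ℝ) := by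
    have : 1 ≤ ⌊z⌋₊ := Nat.one_le_floor_iff _ |>.2 hz
    exact_mod_cast this
  linarith

/-- the two inequalities -/
theorem LI_bounds : ∃ C : ℝ, 1 ≤ C ∧ ∀ s : ℕ, 1 ≤ s → ∀ y : ℝ, 1 ≤ y →
    Ls s y * (Real.log y - C) ≤ 2 * Is s y ∧ 2 * Is s y ≤ Ls s y * (Real.log y + C + gs s) := by
  obtain ⟨C, hC0, hC1, hC2⟩ := MM_bounds
  refine ⟨2 * C + 1, by linarith, fun s hs1 y hy => ?_⟩
  have hL0 : 0 ≤ Ls s y := sum_nonneg fun t _ => hs_nonneg s t
  have hid := log_identity s y hy
  have hfl : ∀ t ∈ Icc 1 ⌊y⌋₊, 1 ≤ ⌊y⌋₊ / t ∧ (0 : ℝ) < t ∧ 1 ≤ y / t ∧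
      (((⌊y⌋₊ / t : ℕ) : ℕ) : ℝ) ≤ y / t ∧ y / t / 2 ≤ ((⌊y⌋₊ / t : ℕ) : ℝ) := by
    intro t ht
    rw [mem_Icc] at ht
    have ht0 : (0 : ℝ) < t := by exact_mod_cast ht.1
    have h1 : (t : ℝ) ≤ y := (by exact_mod_cast ht.2 : (t : ℝ) ≤ (⌊y⌋₊ : ℝ)).trans (Nat.floor_le (by linarith))
    have h2 : 1 ≤ y / t := by rwa [le_div_iff₀ ht0, one_mul]
    have h3 : ⌊y⌋₊ / t = ⌊y / t⌋₊ := (Nat.floor_div_natCast y t).symm
    refine ⟨?_, ht0, h2, ?_, ?_⟩
    · rw [Nat.le_div_iff_mul_le (by omega)]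
      omega
    · rw [h3]
      exact Nat.floor_le (by linarith)
    · rw [h3]
      exact floor_half _ h2
  constructor
  · -- upper bound
    have h1 : ∑ t ∈ Icc 1 ⌊y⌋₊, hs s t *
        ∑ p ∈ (Icc 1 (⌊y⌋₊ / t)).filter (fun p => p.Prime ∧ ¬ p ∣ t), hs s p * Real.log p ≤
        ∑ t ∈ Icc 1 ⌊y⌋₊, hs s t * (Real.log (y / t) + C) := by
      refine sum_le_sum fun t ht => mul_le_mul_of_nonneg_left ?_ (hs_nonneg s t)
      obtain ⟨f1, f2, f3, f4, f5⟩ := hfl t ht
      calc ∑ p ∈ (Icc 1 (⌊y⌋₊ / t)).filter (fun p => p.Prime ∧ ¬ p ∣ t), hs s p * Real.log p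
          ≤ ∑ p ∈ (Icc 1 (⌊y⌋₊ / t)).filter (fun p => p.Prime ∧ ¬ p ∣ t), Real.log p / ((p : ℝ) - 1) := by
            refine sum_le_sum fun p hp => ?_
            rw [mem_filter] at hp
            have h2 : (2 : ℝ) ≤ p := by exact_mod_cast hp.2.1.two_le
            have := mul_le_mul_of_nonneg_right (hs_prime_le s p hp.2.1)
              (Real.log_nonneg (by linarith : (1 : ℝ) ≤ p))
            rw [one_div_mul_eq_div] at this
            exact this
        _ ≤ ∑ p ∈ (Icc 1 (⌊y⌋₊ / t)).filter Nat.Prime, Real.log p / ((p : ℝ) - 1) := by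
            refine sum_le_sum_of_subset_of_nonneg ?_ ?_
            · intro p hp
              rw [mem_filter] at hp ⊢
              exact ⟨hp.1, hp.2.1⟩
            · intro p hp _
              rw [mem_filter] at hp
              have h2 : (2 : ℝ) ≤ p := by exact_mod_cast hp.2.two_le
              exact div_nonneg (Real.log_nonneg (by linarith)) (by linarith)
        _ ≤ Real.log ((⌊y⌋₊ / t : ℕ) : ℝ) + C := (hC1 _ f1).1
        _ ≤ Real.log (y / t) + C := by
            have : Real.log ((⌊y⌋₊ / t : ℕ) : ℝ) ≤ Real.log (y / t) :=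
              Real.log_le_log (by exact_mod_cast f1) f4
            linarith
    have h2 : ∑ t ∈ Icc 1 ⌊y⌋₊, hs s t * (Real.log (y / t) + C) = Is s y + C * Ls s y := by
      unfold Is Ls
      rw [mul_sum, ← sum_add_distrib]
      refine sum_congr rfl fun t _ => ?_
      ring
    rw [h2, ← hid] at h1
    nlinarith
  · -- lower bound
    have h1 : ∀ t ∈ Icc 1 ⌊y⌋₊, Real.log (y / t) - Real.log 2 - C - gs s ≤
        ∑ p ∈ (Icc 1 (⌊y⌋₊ / t)).filter (fun p => p.Prime ∧ ¬ p ∣ t), hs s p * Real.log p +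
        ∑ p ∈ t.primeFactors, Real.log p / ((p : ℝ) - 1) := by
      intro t ht
      obtain ⟨f1, f2, f3, f4, f5⟩ := hfl t ht
      have ht1 := (mem_Icc.1 ht).1
      have g1 : Real.log (y / t) - Real.log 2 ≤ Real.log ((⌊y⌋₊ / t : ℕ) : ℝ) := by
        rw [← Real.log_div (by linarith) (by norm_num)]
        exact Real.log_le_log (by linarith) f5
      have g2 := (hC1 _ f1).2
      have g3 : ∑ p ∈ (Icc 1 (⌊y⌋₊ / t)).filter Nat.Prime, Real.log p / ((p : ℝ) - 1) ≤
          ∑ p ∈ (Icc 1 (⌊y⌋₊ / t)).filter (fun p => p.Prime ∧ ¬ p ∣ t), hs s p * Real.log p +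
          ∑ p ∈ t.primeFactors, Real.log p / ((p : ℝ) - 1) + gs s := by
        have q1 : ∑ p ∈ (Icc 1 (⌊y⌋₊ / t)).filter Nat.Prime, Real.log p / ((p : ℝ) - 1) ≤
            ∑ p ∈ (Icc 1 (⌊y⌋₊ / t)).filter Nat.Prime,
              ((if ¬ p ∣ t then hs s p * Real.log p else 0) +
              (if p ∣ t then Real.log p / ((p : ℝ) - 1) else 0) +
              (if p ∣ s then Real.log p / ((p : ℝ) - 1) else 0)) := by
          refine sum_le_sum fun p hp => ?_
          rw [mem_filter] at hp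
          have h2 : (2 : ℝ) ≤ p := by exact_mod_cast hp.2.two_le
          have h3 : 0 ≤ Real.log p / ((p : ℝ) - 1) :=
            div_nonneg (Real.log_nonneg (by linarith)) (by linarith)
          have h4 : 0 ≤ hs s p * Real.log p := mul_nonneg (hs_nonneg s p) (Real.log_nonneg (by linarith))
          by_cases a1 : p ∣ t
          · by_cases a2 : p ∣ s
            · simp only [a1, a2, not_true_eq_false, if_false, if_true]; linarith
            · simp only [a1, a2, not_true_eq_false, if_false, if_true]; linarith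
          · by_cases a2 : p ∣ s
            · simp only [a1, a2, not_false_eq_true, if_false, if_true]; linarith
            · simp only [a1, a2, not_false_eq_true, if_false, if_true]
              rw [hs_prime_eq s p hp.2 a2, one_div_mul_eq_div]
              linarith
        rw [sum_add_distrib, sum_add_distrib] at q1
        have q2 : ∑ p ∈ (Icc 1 (⌊y⌋₊ / t)).filter Nat.Prime, (if ¬ p ∣ t then hs s p * Real.log p else 0) =
            ∑ p ∈ (Icc 1 (⌊y⌋₊ / t)).filter (fun p => p.Prime ∧ ¬ p ∣ t), hs s p * Real.log p := by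
          rw [← sum_filter, filter_filter]
        have q3 : ∀ m : ℕ, 1 ≤ m → ∑ p ∈ (Icc 1 (⌊y⌋₊ / t)).filter Nat.Prime,
            (if p ∣ m then Real.log p / ((p : ℝ) - 1) else 0) ≤
            ∑ p ∈ m.primeFactors, Real.log p / ((p : ℝ) - 1) := by
          intro m hm
          rw [← sum_filter]
          refine sum_le_sum_of_subset_of_nonneg ?_ ?_
          · intro p hp
            rw [mem_filter, mem_filter] at hp
            exact Nat.mem_primeFactors.2 ⟨hp.1.2, hp.2, by omega⟩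
          · intro p hp _
            have h2 : (2 : ℝ) ≤ p := by exact_mod_cast (Nat.prime_of_mem_primeFactors hp).two_le
            exact div_nonneg (Real.log_nonneg (by linarith)) (by linarith)
        have q4 := q3 t ht1
        have q5 := q3 s hs1
        unfold gs
        rw [q2] at q1
        linarith
      linarith
    have h2 : ∑ t ∈ Icc 1 ⌊y⌋₊, hs s t * (Real.log (y / t) - Real.log 2 - C - gs s) ≤
        ∑ t ∈ Icc 1 ⌊y⌋₊, hs s t * (∑ p ∈ (Icc 1 (⌊y⌋₊ / t)).filter (fun p => p.Prime ∧ ¬ p ∣ t),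
          hs s p * Real.log p + ∑ p ∈ t.primeFactors, Real.log p / ((p : ℝ) - 1)) :=
      sum_le_sum fun t ht => mul_le_mul_of_nonneg_left (h1 t ht) (hs_nonneg s t)
    have h3 : ∑ t ∈ Icc 1 ⌊y⌋₊, hs s t * (Real.log (y / t) - Real.log 2 - C - gs s) =
        Is s y - (Real.log 2 + C + gs s) * Ls s y := by
      unfold Is Ls
      rw [mul_sum, ← sum_sub_distrib]
      refine sum_congr rfl fun t _ => ?_
      ring
    have h4 : ∑ t ∈ Icc 1 ⌊y⌋₊, hs s t * ∑ p ∈ t.primeFactors, Real.log p / ((p : ℝ) - 1) ≤ C * Ls s y := by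
      rw [swap, mul_comm]
      unfold Ls
      rw [sum_mul]
      refine sum_le_sum fun t _ => mul_le_mul_of_nonneg_left ?_ (hs_nonneg s t)
      refine le_trans ?_ (hC2 (⌊y⌋₊ / t))
      calc ∑ p ∈ (Icc 1 (⌊y⌋₊ / t)).filter (fun p => p.Prime ∧ ¬ p ∣ t),
            hs s p * (Real.log p / ((p : ℝ) - 1))
          ≤ ∑ p ∈ (Icc 1 (⌊y⌋₊ / t)).filter (fun p => p.Prime ∧ ¬ p ∣ t),
            Real.log p / ((p : ℝ) - 1) ^ 2 := by
            refine sum_le_sum fun p hp => ?_
            rw [mem_filter] at hp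
            have h2 : (2 : ℝ) ≤ p := by exact_mod_cast hp.2.1.two_le
            have h3 : 0 ≤ Real.log p / ((p : ℝ) - 1) :=
              div_nonneg (Real.log_nonneg (by linarith)) (by linarith)
            have := mul_le_mul_of_nonneg_right (hs_prime_le s p hp.2.1) h3
            refine this.trans (le_of_eq ?_)
            have h6 : (p : ℝ) - 1 ≠ 0 := by linarith
            field_simp
        _ ≤ ∑ p ∈ (Icc 1 (⌊y⌋₊ / t)).filter Nat.Prime, Real.log p / ((p : ℝ) - 1) ^ 2 := by
            refine sum_le_sum_of_subset_of_nonneg ?_ ?_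
            · intro p hp
              rw [mem_filter] at hp ⊢
              exact ⟨hp.1, hp.2.1⟩
            · intro p hp _
              rw [mem_filter] at hp
              have h2 : (2 : ℝ) ≤ p := by exact_mod_cast hp.2.two_le
              exact div_nonneg (Real.log_nonneg (by linarith)) (sq_nonneg _)
    have h5 : ∑ t ∈ Icc 1 ⌊y⌋₊, hs s t * (∑ p ∈ (Icc 1 (⌊y⌋₊ / t)).filter (fun p => p.Prime ∧ ¬ p ∣ t),
          hs s p * Real.log p + ∑ p ∈ t.primeFactors, Real.log p / ((p : ℝ) - 1)) =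
        (Ls s y * Real.log y - Is s y) +
        ∑ t ∈ Icc 1 ⌊y⌋₊, hs s t * ∑ p ∈ t.primeFactors, Real.log p / ((p : ℝ) - 1) := by
      rw [hid, ← sum_add_distrib]
      refine sum_congr rfl fun t _ => ?_
      ring
    rw [h3, h5] at h2
    have h6 : Real.log 2 ≤ 1 := by
      have := Real.log_two_lt_d9
      linarith
    have h7 := mul_le_mul_of_nonneg_right h6 hL0
    nlinarith

/-- the size of `gs` -/
theorem gs_le : ∃ C : ℝ, 0 ≤ C ∧ ∀ s z : ℕ, 1 ≤ s → 1 ≤ z → gs s ≤ Real.log z + C + Real.log s / z := by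
  obtain ⟨C, hC0, hC1, _⟩ := MM_bounds
  refine ⟨C, hC0, fun s z hs1 hz => ?_⟩
  have hz0 : (0 : ℝ) < z := by exact_mod_cast hz
  have h1 := (hC1 z hz).1
  have h2 : gs s ≤ ∑ p ∈ (Icc 1 z).filter Nat.Prime, Real.log p / ((p : ℝ) - 1) +
      ∑ p ∈ s.primeFactors, Real.log p / z := by
    unfold gs
    rw [← sum_filter_add_sum_filter_not s.primeFactors (fun p => p ≤ z)
      (fun p : ℕ => Real.log p / ((p : ℝ) - 1))]
    refine add_le_add ?_ ?_
    · refine sum_le_sum_of_subset_of_nonneg ?_ ?_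
      · intro p hp
        rw [mem_filter] at hp ⊢
        have := Nat.prime_of_mem_primeFactors hp.1
        exact ⟨mem_Icc.2 ⟨this.pos, hp.2⟩, this⟩
      · intro p hp _
        rw [mem_filter] at hp
        have h2 : (2 : ℝ) ≤ p := by exact_mod_cast hp.2.two_le
        exact div_nonneg (Real.log_nonneg (by linarith)) (by linarith)
    · calc ∑ p ∈ s.primeFactors.filter (fun p => ¬ p ≤ z), Real.log p / ((p : ℝ) - 1)
          ≤ ∑ p ∈ s.primeFactors.filter (fun p => ¬ p ≤ z), Real.log p / z := by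
            refine sum_le_sum fun p hp => ?_
            rw [mem_filter] at hp
            have h3 := (Nat.prime_of_mem_primeFactors hp.1)
            have h2 : (2 : ℝ) ≤ p := by exact_mod_cast h3.two_le
            have h4 : (z : ℝ) + 1 ≤ p := by
              have : z + 1 ≤ p := by omega
              exact_mod_cast this
            exact div_le_div_of_nonneg_left (Real.log_nonneg (by linarith)) hz0 (by linarith)
        _ ≤ ∑ p ∈ s.primeFactors, Real.log p / z := by
            refine sum_le_sum_of_subset_of_nonneg (filter_subset _ _) ?_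
            intro p hp _
            have h2 : (2 : ℝ) ≤ p := by exact_mod_cast (Nat.prime_of_mem_primeFactors hp).two_le
            exact div_nonneg (Real.log_nonneg (by linarith)) hz0.le
  have h3 : ∑ p ∈ s.primeFactors, Real.log p ≤ Real.log s := by
    have e1 : ∑ p ∈ s.primeFactors, Real.log p = Real.log (∏ p ∈ s.primeFactors, p : ℕ) := by
      rw [Nat.cast_prod, Real.log_prod]
      intro p hp
      exact_mod_cast (Nat.prime_of_mem_primeFactors hp).ne_zero
    rw [e1]
    have h4 : (∏ p ∈ s.primeFactors, p) ≤ s := Nat.le_of_dvd (by omega) (Nat.prod_primeFactors_dvd s)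
    have h5 : 0 < ∏ p ∈ s.primeFactors, p := prod_pos fun p hp => (Nat.prime_of_mem_primeFactors hp).pos
    exact Real.log_le_log (by exact_mod_cast h5) (by exact_mod_cast h4)
  rw [← sum_div] at h2
  have h4 := div_le_div_of_nonneg_right h3 hz0.le
  linarith

end Pool.Agent.H535.AW
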