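import Pool.Agent.H535.AW.Main
import Pool.Agent.H535.LB.Cls

set_option autoImplicit false

/-!
The two forms of the theorem: primes and reduced residue classes, general sifted sets.
-/

open Finset

namespace Pool.Agent.H535.AW

open Pool.Agent.Helper112 Pool.Agent.W110.HV

theorem min_center (S : Finset ℕ) (hS : S.Nonempty) (z : ℕ → ℂ) (c : ℂ) :
    ∑ a ∈ S, ‖z a‖ ^ 2 - ‖∑ a ∈ S, z a‖ ^ 2 / S.card ≤ ∑ a ∈ S, ‖z a - c‖ ^ 2 := by
  have hc0 : (0 : ℝ) < S.card := by exact_mod_cast hS.card_pos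
  set Z := ∑ a ∈ S, z a with hZ
  have h1 : ∀ a ∈ S, ‖z a - c‖ ^ 2 = ‖z a‖ ^ 2 - 2 * (z a * (starRingEnd ℂ) c).re + ‖c‖ ^ 2 := by
    intro a _
    rw [← Complex.normSq_eq_norm_sq, ← Complex.normSq_eq_norm_sq, ← Complex.normSq_eq_norm_sq,
      Complex.normSq_sub]
    ring
  rw [sum_congr rfl h1, sum_add_distrib, sum_sub_distrib, ← mul_sum, ← Complex.re_sum, ← sum_mul, ← hZ,
    sum_const, nsmul_eq_mul]
  have h2 : (Z * (starRingEnd ℂ) c).re ≤ ‖Z‖ * ‖c‖ := by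
    refine (Complex.re_le_norm _).trans (le_of_eq ?_)
    rw [norm_mul, Complex.norm_conj]
  have h3 : 2 * (‖Z‖ * ‖c‖) ≤ ‖Z‖ ^ 2 / S.card + S.card * ‖c‖ ^ 2 := by
    have h4 : 0 ≤ (‖Z‖ - S.card * ‖c‖) ^ 2 / S.card := by positivity
    have h5 : (‖Z‖ - S.card * ‖c‖) ^ 2 / S.card = ‖Z‖ ^ 2 / S.card + S.card * ‖c‖ ^ 2 - 2 * (‖Z‖ * ‖c‖) := by
      field_simp
      ring
    linarith
  linarith

theorem large2 (A : ℝ) : ∃ X0 : ℕ, ∀ X : ℕ, X0 ≤ X → A ≤ Real.log X ∧ A * Real.log X ≤ Real.sqrt X := by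
  have h1 : ∀ᶠ x : ℝ in Filter.atTop, A ≤ Real.log x := Real.tendsto_log_atTop.eventually_ge_atTop A
  have h2 : ∀ᶠ x : ℝ in Filter.atTop, ‖Real.log x‖ ≤ (1 / (|A| + 1)) * ‖x ^ (1 / 2 : ℝ)‖ :=
    (isLittleO_log_rpow_atTop (by norm_num : (0 : ℝ) < 1 / 2)).def (by positivity)
  have h3 := tendsto_natCast_atTop_atTop (R := ℝ) |>.eventually (h1.and h2)
  rw [Filter.eventually_atTop] at h3
  obtain ⟨X1, hX1⟩ := h3
  refine ⟨max X1 1, fun X hX => ?_⟩
  obtain ⟨a1, a2⟩ := hX1 X ((le_max_left _ _).trans hX)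
  refine ⟨a1, ?_⟩
  have hX1' : (1 : ℝ) ≤ X := by exact_mod_cast (le_max_right _ _).trans hX
  have hlog := Real.log_nonneg hX1'
  rw [Real.norm_of_nonneg hlog, Real.norm_of_nonneg (by positivity), ← Real.sqrt_eq_rpow] at a2
  have hA : 0 < |A| + 1 := by positivity
  have h4 : (|A| + 1) * Real.log X ≤ Real.sqrt X := by
    have := mul_le_mul_of_nonneg_left a2 hA.le
    have e1 : (|A| + 1) * (1 / (|A| + 1) * Real.sqrt X) = Real.sqrt X := by field_simp
    linarith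
  have h5 : A * Real.log X ≤ (|A| + 1) * Real.log X :=
    mul_le_mul_of_nonneg_right (by linarith [le_abs_self A]) hlog
  linarith

theorem gcd_mod_aux (k n : ℕ) : Nat.gcd k (n % k) = Nat.gcd k n := by
  rw [Nat.gcd_comm k (n % k), ← Nat.gcd_rec]

/-- the reduced classes -/
theorem red_part (X Y k : ℕ) (hk : 0 < k) (v : ℕ → ℂ) (hv : ∀ m ∈ Icc 1 X, v m ≠ 0 → (Y + m).Prime) :
    ∑ a ∈ range k, ‖SC X Y k v a‖ ^ 2 - ∑ m ∈ (Icc 1 X).filter (fun m => (Y + m) ∣ k), ‖v m‖ ^ 2 ≤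
      ∑ a ∈ (range k).filter (fun a => Nat.Coprime k a), ‖SC X Y k v a‖ ^ 2 := by
  rw [← sum_filter_add_sum_filter_not (range k) (fun a => Nat.Coprime k a)]
  have h1 : ∑ a ∈ (range k).filter (fun a => ¬ Nat.Coprime k a), ‖SC X Y k v a‖ ^ 2 ≤
      ∑ a ∈ (range k).filter (fun a => ¬ Nat.Coprime k a),
        ∑ m ∈ ((Icc 1 X).filter (fun m => (Y + m) ∣ k)).filter (fun m => (Y + m) % k = a), ‖v m‖ ^ 2 := by
    refine sum_le_sum fun a ha => ?_
    rw [mem_filter, mem_range] at ha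
    by_cases hex : ∃ m0 ∈ Icc 1 X, v m0 ≠ 0 ∧ (Y + m0) % k = a
    · obtain ⟨m0, hm0, hv0, hma⟩ := hex
      have hgcd : ∀ m : ℕ, (Y + m) % k = a → Nat.gcd k (Y + m) = Nat.gcd k a := by
        intro m h
        rw [← h]
        exact (gcd_mod_aux k (Y + m)).symm
      have hdvd : ∀ m ∈ Icc 1 X, v m ≠ 0 → (Y + m) % k = a → (Y + m) ∣ k := by
        intro m hm hvm h
        have hp := hv m hm hvm
        by_contra hnd
        have h2 : Nat.Coprime (Y + m) k := (Nat.Prime.coprime_iff_not_dvd hp).2 hnd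
        apply ha.2
        rw [Nat.coprime_iff_gcd_eq_one, ← hgcd m h]
        exact h2.symm
      have huniq : ∀ m ∈ Icc 1 X, v m ≠ 0 → (Y + m) % k = a → m = m0 := by
        intro m hm hvm h
        have h2 := hgcd m h
        have h3 := hgcd m0 hma
        rw [Nat.gcd_eq_right (hdvd m hm hvm h)] at h2
        rw [Nat.gcd_eq_right (hdvd m0 hm0 hv0 hma)] at h3
        omega
      have h2 : SC X Y k v a = v m0 := by
        unfold SC
        rw [sum_eq_single m0]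
        · intro m hm hne
          rw [mem_filter] at hm
          by_contra hcon
          exact hne (huniq m hm.1 hcon hm.2)
        · intro h
          exact absurd (mem_filter.2 ⟨hm0, hma⟩) h
      rw [h2]
      exact single_le_sum (f := fun m => ‖v m‖ ^ 2) (fun m _ => by positivity)
        (mem_filter.2 ⟨mem_filter.2 ⟨hm0, hdvd m0 hm0 hv0 hma⟩, hma⟩)
    · push Not at hex
      have h2 : SC X Y k v a = 0 := by
        unfold SC
        refine sum_eq_zero fun m hm => ?_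
        rw [mem_filter] at hm
        by_contra hcon
        exact hex m hm.1 hcon hm.2
      rw [h2, norm_zero, zero_pow (by norm_num)]
      exact sum_nonneg fun _ _ => by positivity
  have h2 : ∑ a ∈ (range k).filter (fun a => ¬ Nat.Coprime k a),
        ∑ m ∈ ((Icc 1 X).filter (fun m => (Y + m) ∣ k)).filter (fun m => (Y + m) % k = a), ‖v m‖ ^ 2 ≤
      ∑ a ∈ range k,
        ∑ m ∈ ((Icc 1 X).filter (fun m => (Y + m) ∣ k)).filter (fun m => (Y + m) % k = a), ‖v m‖ ^ 2 :=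
    sum_le_sum_of_subset_of_nonneg (filter_subset _ _) fun _ _ _ => sum_nonneg fun _ _ => by positivity
  have h3 : ∑ a ∈ range k,
        ∑ m ∈ ((Icc 1 X).filter (fun m => (Y + m) ∣ k)).filter (fun m => (Y + m) % k = a), ‖v m‖ ^ 2 =
      ∑ m ∈ (Icc 1 X).filter (fun m => (Y + m) ∣ k), ‖v m‖ ^ 2 :=
    sum_fiberwise_of_maps_to (fun m _ => mem_range.2 (Nat.mod_lt _ hk)) _
  linarith

theorem red_sum (X Y k : ℕ) (hk : 0 < k) (v : ℕ → ℂ) (hv : ∀ m ∈ Icc 1 X, v m ≠ 0 → (Y + m).Prime) :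
    ∑ a ∈ (range k).filter (fun a => Nat.Coprime k a), SC X Y k v a =
      ∑ m ∈ Icc 1 X, v m - ∑ m ∈ (Icc 1 X).filter (fun m => (Y + m) ∣ k), v m := by
  have h1 : ∑ a ∈ (range k).filter (fun a => Nat.Coprime k a), SC X Y k v a =
      ∑ m ∈ (Icc 1 X).filter (fun m => Nat.Coprime k (Y + m)), v m := by
    have hmaps : ∀ m ∈ (Icc 1 X).filter (fun m => Nat.Coprime k (Y + m)),
        (Y + m) % k ∈ (range k).filter (fun a => Nat.Coprime k a) := by
      intro m hm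
      rw [mem_filter] at hm
      rw [mem_filter, mem_range]
      refine ⟨Nat.mod_lt _ hk, ?_⟩
      rw [Nat.coprime_iff_gcd_eq_one, gcd_mod_aux]
      exact hm.2
    rw [← sum_fiberwise_of_maps_to hmaps]
    refine sum_congr rfl fun a ha => ?_
    rw [mem_filter] at ha
    unfold SC
    refine sum_congr ?_ fun _ _ => rfl
    ext m
    rw [mem_filter, mem_filter, mem_filter]
    constructor
    · rintro ⟨h1, h2⟩
      refine ⟨⟨h1, ?_⟩, h2⟩
      rw [Nat.coprime_iff_gcd_eq_one, ← gcd_mod_aux, h2]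
      exact ha.2
    · rintro ⟨⟨h1, _⟩, h2⟩
      exact ⟨h1, h2⟩
  rw [h1, eq_sub_iff_add_eq, ← sum_filter_add_sum_filter_not (Icc 1 X) (fun m => Nat.Coprime k (Y + m)) v]
  congr 1
  rw [sum_filter, sum_filter]
  refine sum_congr rfl fun m hm => ?_
  by_cases hvm : v m = 0
  · rw [hvm]
    simp
  have hp := hv m hm hvm
  by_cases hd : (Y + m) ∣ k
  · have h2 : ¬ Nat.Coprime k (Y + m) := by
      intro h
      have := Nat.Coprime.eq_one_of_dvd h.symm hd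
      exact hp.one_lt.ne' this
    rw [if_pos hd, if_pos h2]
  · have h2 : Nat.Coprime k (Y + m) := ((Nat.Prime.coprime_iff_not_dvd hp).2 hd).symm
    rw [if_neg hd, if_neg (not_not.2 h2)]

/-- one modulus, primes -/
theorem one_mod (X Y k : ℕ) (hk : 0 < k) (v : ℕ → ℂ) (hv : ∀ m ∈ Icc 1 X, v m ≠ 0 → (Y + m).Prime)
    (c : ℂ) (A : ℝ) (hA : ∑ m ∈ Icc 1 X, ‖v m‖ ≤ A) :
    (∑ a ∈ range k, ‖SC X Y k v a‖ ^ 2 - ‖∑ m ∈ Icc 1 X, v m‖ ^ 2 / (Nat.totient k : ℝ)) -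
      ∑ m ∈ (Icc 1 X).filter (fun m => (Y + m) ∣ k), ‖v m‖ ^ 2 -
      (3 * A * ∑ m ∈ (Icc 1 X).filter (fun m => (Y + m) ∣ k), ‖v m‖) / (Nat.totient k : ℝ) ≤
      ∑ a ∈ (range k).filter (fun a => Nat.Coprime k a), ‖SC X Y k v a - c‖ ^ 2 := by
  have hcard : ((range k).filter (fun a => Nat.Coprime k a)).card = Nat.totient k :=
    (Nat.totient_eq_card_coprime k).symm
  have hne : ((range k).filter (fun a => Nat.Coprime k a)).Nonempty := by
    rw [← card_pos, hcard]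
    exact Nat.totient_pos.2 hk
  have h1 := min_center _ hne (fun a => SC X Y k v a) c
  rw [hcard, red_sum X Y k hk v hv] at h1
  have h2 := red_part X Y k hk v hv
  have hphi : (0 : ℝ) < Nat.totient k := by exact_mod_cast Nat.totient_pos.2 hk
  set S0 := ∑ m ∈ Icc 1 X, v m with hS0
  set w := ∑ m ∈ (Icc 1 X).filter (fun m => (Y + m) ∣ k), v m with hw
  set W := ∑ m ∈ (Icc 1 X).filter (fun m => (Y + m) ∣ k), ‖v m‖ with hW
  have hwW : ‖w‖ ≤ W := norm_sum_le _ _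
  have hWA : W ≤ A := by
    refine le_trans ?_ hA
    exact sum_le_sum_of_subset_of_nonneg (filter_subset _ _) fun _ _ _ => norm_nonneg _
  have hS0A : ‖S0‖ ≤ A := (norm_sum_le _ _).trans hA
  have h3 : ‖S0 - w‖ ^ 2 ≤ ‖S0‖ ^ 2 + 3 * A * W := by
    have h4 : ‖S0 - w‖ ≤ ‖S0‖ + ‖w‖ := norm_sub_le _ _
    have h5 : ‖S0 - w‖ ^ 2 ≤ (‖S0‖ + ‖w‖) ^ 2 := pow_le_pow_left₀ (norm_nonneg _) h4 2
    have h6 : ‖S0‖ * ‖w‖ ≤ A * W := mul_le_mul hS0A hwW (norm_nonneg _) ((norm_nonneg _).trans hS0A)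
    have h7 : ‖w‖ * ‖w‖ ≤ A * W := mul_le_mul (hwW.trans hWA) hwW (norm_nonneg _) ((norm_nonneg _).trans hS0A)
    nlinarith only [h5, h6, h7]
  have h4 : ‖S0 - w‖ ^ 2 / (Nat.totient k : ℝ) ≤ ‖S0‖ ^ 2 / (Nat.totient k : ℝ) + (3 * A * W) / (Nat.totient k : ℝ) := by
    rw [← add_div]
    exact div_le_div_of_nonneg_right h3 hphi.le
  linarith

theorem mult_count_real (K n : ℕ) (hn : 0 < n) (s : ℝ) (hs : 0 < s) (hsn : s ≤ n) :
    (((Ioc K (2 * K)).filter (fun q => n ∣ q)).card : ℝ) ≤ K / s + 1 := by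
  have h1 := Pool.Agent.H535.LB.mult_count K n hn
  have h2 : (K : ℝ) / n ≤ K / s := div_le_div_of_nonneg_left (Nat.cast_nonneg _) hs hsn
  linarith

/-- sums over the moduli of sums over the divisors in the support -/
theorem sum_div_support (X Y K : ℕ) (f : ℕ → ℝ) (hf : ∀ m, 0 ≤ f m) (s : ℝ) (hs : 0 < s)
    (hsupp : ∀ m ∈ Icc 1 X, f m ≠ 0 → s ≤ ((Y + m : ℕ) : ℝ)) :
    ∑ k ∈ Ioc K (2 * K), ∑ m ∈ (Icc 1 X).filter (fun m => (Y + m) ∣ k), f m ≤
      (K / s + 1) * ∑ m ∈ Icc 1 X, f m := by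
  rw [sum_congr rfl fun k _ => sum_filter (fun m => (Y + m) ∣ k) f, sum_comm, mul_sum]
  refine sum_le_sum fun m hm => ?_
  rw [← sum_filter, sum_const, nsmul_eq_mul]
  by_cases h0 : f m = 0
  · rw [h0, mul_zero, mul_zero]
  · have h1 := hsupp m hm h0
    rw [mem_Icc] at hm
    exact mul_le_mul_of_nonneg_right (mult_count_real K (Y + m) (by omega) s hs h1) (hf m)

end Pool.Agent.H535.AW
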