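import Pool.Agent.H535.AW.Ker

set_option autoImplicit false

/-!
Positive definiteness of the primitive parts on sifted sets.
-/

open Finset

namespace Pool.Agent.H535.AW

open Pool.Agent.Helper112 Pool.Agent.W110.HV

/-- `k (m - n)` is a positive definite kernel on `A` -/
def PD (A : Set ℤ) (k : ℤ → ℂ) : Prop := ∃ (ι : Type) (_ : Fintype ι) (ψ : ι → ℤ → ℂ),
  ∀ m ∈ A, ∀ n ∈ A, k (m - n) = ∑ i, ψ i m * (starRingEnd ℂ) (ψ i n)

theorem PD_one (A : Set ℤ) : PD A (fun _ => 1) :=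
  ⟨Unit, inferInstance, fun _ _ => 1, fun m _ n _ => by simp⟩

theorem PD_mul (A : Set ℤ) (k l : ℤ → ℂ) (hk : PD A k) (hl : PD A l) : PD A (fun h => k h * l h) := by
  obtain ⟨ι, _, ψ, h1⟩ := hk
  obtain ⟨κ, _, φ, h2⟩ := hl
  refine ⟨ι × κ, inferInstance, fun x n => ψ x.1 n * φ x.2 n, fun m hm n hn => ?_⟩
  simp only
  rw [h1 m hm n hn, h2 m hm n hn, sum_mul_sum, Fintype.sum_prod_type]
  refine sum_congr rfl fun i _ => sum_congr rfl fun j _ => ?_
  simp only [map_mul]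
  ring

theorem PD_prod (A : Set ℤ) (S : Finset ℕ) (k : ℕ → ℤ → ℂ) (hk : ∀ p ∈ S, PD A (k p)) :
    PD A (fun h => ∏ p ∈ S, k p h) := by
  induction S using Finset.induction_on with
  | empty => simpa using PD_one A
  | insert p S hp ih =>
    have h1 := PD_mul A _ _ (hk p (mem_insert_self p S)) (ih fun q hq => hk q (mem_insert_of_mem hq))
    obtain ⟨ι, i1, ψ, h2⟩ := h1
    refine ⟨ι, i1, ψ, fun m hm n hn => ?_⟩
    simp only
    rw [prod_insert hp]
    exact h2 m hm n hn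

theorem PD_form (A : Set ℤ) (k : ℤ → ℂ) (hk : PD A k) (X : ℕ) (v : ℕ → ℂ)
    (hv : ∀ n ∈ Icc 1 X, v n ≠ 0 → (n : ℤ) ∈ A) :
    0 ≤ (∑ m ∈ Icc 1 X, ∑ n ∈ Icc 1 X, v m * (starRingEnd ℂ) (v n) * k ((m : ℤ) - n)).re := by
  obtain ⟨ι, _, ψ, h1⟩ := hk
  have e1 : ∑ m ∈ Icc 1 X, ∑ n ∈ Icc 1 X, v m * (starRingEnd ℂ) (v n) * k ((m : ℤ) - n) =
      ∑ i, (∑ m ∈ Icc 1 X, v m * ψ i m) * (starRingEnd ℂ) (∑ n ∈ Icc 1 X, v n * ψ i n) := by
    have e2 : ∀ m ∈ Icc 1 X, ∀ n ∈ Icc 1 X, v m * (starRingEnd ℂ) (v n) * k ((m : ℤ) - n) =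
        ∑ i, (v m * ψ i m) * (starRingEnd ℂ) (v n * ψ i n) := by
      intro m hm n hn
      by_cases ha : v m = 0
      · simp [ha]
      by_cases hb : v n = 0
      · simp [hb]
      rw [h1 m (hv m hm ha) n (hv n hn hb), mul_sum]
      refine sum_congr rfl fun i _ => ?_
      rw [map_mul]
      ring
    rw [sum_congr rfl fun m hm => sum_congr rfl fun n hn => e2 m hm n hn]
    have e3 : ∀ m ∈ Icc 1 X, ∑ n ∈ Icc 1 X, ∑ i, (v m * ψ i m) * (starRingEnd ℂ) (v n * ψ i n) =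
        ∑ i, ∑ n ∈ Icc 1 X, (v m * ψ i m) * (starRingEnd ℂ) (v n * ψ i n) := fun m _ => sum_comm
    rw [sum_congr rfl e3, sum_comm]
    refine sum_congr rfl fun i _ => ?_
    rw [map_sum, sum_mul_sum]
  rw [e1, Complex.re_sum]
  refine sum_nonneg fun i _ => ?_
  rw [Complex.mul_conj]
  exact_mod_cast Complex.normSq_nonneg _

theorem PD_cr (A : Set ℤ) (r : ℕ) (hr : 1 ≤ r) : PD A (cr r) := by
  refine ⟨(range r).filter (fun a => a.Coprime r), inferInstance,
    fun a n => ee (n * ((a : ℕ) / r)), fun m _ n _ => ?_⟩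
  rw [← cr_exp r hr, ← sum_coe_sort]
  refine sum_congr rfl fun a _ => ?_
  have h1 : (starRingEnd ℂ) (ee (n * ((a : ℕ) / r))) = ee (-(n * ((a : ℕ) / r))) := by
    unfold ee
    rw [← Complex.exp_conj]
    congr 1
    simp only [map_mul, Complex.conj_ofReal, Complex.conj_I, map_ofNat]
    push_cast
    ring
  rw [h1, ← ls_ee_add]
  congr 1
  push_cast
  ring

theorem cr_prime (p : ℕ) (hp : p.Prime) (h : ℤ) : cr p h = (if (p : ℤ) ∣ h then (p : ℂ) else 0) - 1 := by
  unfold cr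
  rw [Nat.Prime.divisors hp, sum_pair hp.one_lt.ne]
  rw [ArithmeticFunction.moebius_apply_one, ArithmeticFunction.moebius_apply_prime hp, Nat.div_one,
    Nat.div_self hp.pos]
  simp
  ring

theorem PD_kp_one (A : Set ℤ) (p : ℕ) (hp : p.Prime) (b : ℤ) (hA : ∀ n ∈ A, ¬ (p : ℤ) ∣ n - b) :
    PD A (kp p 1) := by
  classical
  have : Fact p.Prime := ⟨hp⟩
  set q : ℝ := 1 / ((p : ℝ) - 1) with hq
  have h2 : (2 : ℝ) ≤ p := by exact_mod_cast hp.two_le
  have hp1 : (p : ℝ) - 1 ≠ 0 := by linarith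
  refine ⟨{a : ZMod p // a ≠ (b : ZMod p)}, inferInstance,
    fun a n => ((Real.sqrt p * ((if (n : ZMod p) = (a : ZMod p) then 1 else 0) - q) : ℝ) : ℂ),
    fun m hm n hn => ?_⟩
  have hmb : (m : ZMod p) ≠ (b : ZMod p) := by
    intro h
    apply hA m hm
    rw [← ZMod.intCast_zmod_eq_zero_iff_dvd, Int.cast_sub, h, sub_self]
  have hnb : (n : ZMod p) ≠ (b : ZMod p) := by
    intro h
    apply hA n hn
    rw [← ZMod.intCast_zmod_eq_zero_iff_dvd, Int.cast_sub, h, sub_self]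
  have hdvd : (p : ℤ) ∣ m - n ↔ (m : ZMod p) = (n : ZMod p) := by
    rw [← ZMod.intCast_zmod_eq_zero_iff_dvd, Int.cast_sub, sub_eq_zero]
  have hreal : ∑ a : {a : ZMod p // a ≠ (b : ZMod p)},
      (Real.sqrt p * ((if (m : ZMod p) = (a : ZMod p) then 1 else 0) - q)) *
      (Real.sqrt p * ((if (n : ZMod p) = (a : ZMod p) then 1 else 0) - q)) =
      (if (m : ZMod p) = (n : ZMod p) then (p : ℝ) else 0) - 1 - q := by
    have s1 : ∀ c : ZMod p, c ≠ (b : ZMod p) → ∑ a : {a : ZMod p // a ≠ (b : ZMod p)},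
        (if c = (a : ZMod p) then (1 : ℝ) else 0) = 1 := by
      intro c hc
      rw [sum_eq_single (⟨c, hc⟩ : {a : ZMod p // a ≠ (b : ZMod p)})]
      · simp
      · intro a _ ha
        rw [if_neg]
        intro h
        exact ha (Subtype.ext h.symm)
      · intro h
        exact absurd (mem_univ _) h
    have s2 : ∑ a : {a : ZMod p // a ≠ (b : ZMod p)},
        (if (m : ZMod p) = (a : ZMod p) then (1 : ℝ) else 0) * (if (n : ZMod p) = (a : ZMod p) then (1 : ℝ) else 0) =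
        if (m : ZMod p) = (n : ZMod p) then 1 else 0 := by
      split_ifs with h
      · refine (sum_congr rfl fun a _ => ?_).trans (s1 (m : ZMod p) hmb)
        rw [← h]
        by_cases h3 : (m : ZMod p) = (a : ZMod p)
        · rw [if_pos h3, mul_one]
        · rw [if_neg h3, mul_zero]
      · refine sum_eq_zero fun a _ => ?_
        by_cases h3 : (m : ZMod p) = (a : ZMod p)
        · rw [if_pos h3, if_neg (fun h4 : (n : ZMod p) = (a : ZMod p) => h (h3.trans h4.symm)), mul_zero]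
        · rw [if_neg h3, zero_mul]
    have s3 : ((univ : Finset {a : ZMod p // a ≠ (b : ZMod p)}).card : ℝ) = (p : ℝ) - 1 := by
      rw [card_univ, Fintype.card_subtype_compl, ZMod.card, Fintype.card_subtype_eq,
        Nat.cast_sub hp.one_lt.le, Nat.cast_one]
    have hsq : Real.sqrt p * Real.sqrt p = p := Real.mul_self_sqrt (by linarith)
    have e1 : ∀ a : {a : ZMod p // a ≠ (b : ZMod p)},
        (Real.sqrt p * ((if (m : ZMod p) = (a : ZMod p) then 1 else 0) - q)) *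
        (Real.sqrt p * ((if (n : ZMod p) = (a : ZMod p) then 1 else 0) - q)) =
        p * ((if (m : ZMod p) = (a : ZMod p) then (1 : ℝ) else 0) * (if (n : ZMod p) = (a : ZMod p) then (1 : ℝ) else 0))
        - p * q * (if (m : ZMod p) = (a : ZMod p) then (1 : ℝ) else 0)
        - p * q * (if (n : ZMod p) = (a : ZMod p) then (1 : ℝ) else 0) + p * q ^ 2 := by
      intro a
      calc _ = (Real.sqrt p * Real.sqrt p) * (((if (m : ZMod p) = (a : ZMod p) then (1 : ℝ) else 0) - q) *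
            ((if (n : ZMod p) = (a : ZMod p) then (1 : ℝ) else 0) - q)) := by ring
        _ = _ := by
          rw [hsq]
          ring
    rw [sum_congr rfl fun a _ => e1 a, sum_add_distrib, sum_sub_distrib, sum_sub_distrib, ← mul_sum,
      ← mul_sum, ← mul_sum, s1 _ hmb, s1 _ hnb, s2, sum_const, nsmul_eq_mul, s3]
    have hq1 : ((p : ℝ) - 1) * q = 1 := by rw [hq]; field_simp
    have hq2 : (p : ℝ) * q = 1 + q := by linarith
    have hq3 : ((p : ℝ) - 1) * (p * q ^ 2) = 1 + q := by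
      calc ((p : ℝ) - 1) * (p * q ^ 2) = (((p : ℝ) - 1) * q) * (p * q) := by ring
        _ = 1 + q := by rw [hq1, hq2]; ring
    rw [hq3]
    split_ifs <;> linarith
  unfold kp
  rw [if_pos rfl, pow_one, cr_prime p hp]
  have e2 : (if (p : ℤ) ∣ m - n then (p : ℂ) else 0) - 1 - 1 / ((p : ℂ) - 1) =
      (((if (m : ZMod p) = (n : ZMod p) then (p : ℝ) else 0) - 1 - q : ℝ) : ℂ) := by
    rw [hq]
    by_cases h : (m : ZMod p) = (n : ZMod p)
    · rw [if_pos (hdvd.2 h), if_pos h]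
      push_cast
      ring
    · rw [if_neg (fun hh => h (hdvd.1 hh)), if_neg h]
      push_cast
      ring
  rw [e2, ← hreal]
  push_cast
  refine sum_congr rfl fun a _ => ?_
  simp only [map_mul, map_sub, Complex.conj_ofReal]

theorem PD_kk (A : Set ℤ) (b : ℕ → ℤ) (s : ℕ) (hA : ∀ n ∈ A, ∀ p ∈ s.primeFactors, ¬ (p : ℤ) ∣ n - b p) :
    PD A (kk s) := by
  unfold kk
  refine PD_prod A s.primeFactors (fun p => kp p (s.factorization p)) fun p hp => ?_
  have hpp := Nat.prime_of_mem_primeFactors hp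
  by_cases h1 : s.factorization p = 1
  · rw [h1]
    exact PD_kp_one A p hpp (b p) fun n hn => hA n hn p hp
  · have h2 : kp p (s.factorization p) = cr (p ^ s.factorization p) := by
      funext h
      unfold kp
      rw [if_neg h1, sub_zero]
    rw [h2]
    exact PD_cr A _ (Nat.one_le_pow _ _ hpp.pos)

end Pool.Agent.H535.AW
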