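import Pool.Agent.H535.AW.Ode

set_option autoImplicit false

/-!
The ratio `L(w)/L(T w)`, uniformly in `s`.
-/

open Finset

namespace Pool.Agent.H535.AW

theorem Ls_nonneg (s : ℕ) (y : ℝ) : 0 ≤ Ls s y := sum_nonneg fun t _ => hs_nonneg s t

theorem Ls_mono (s : ℕ) {y z : ℝ} (h : y ≤ z) : Ls s y ≤ Ls s z := by
  unfold Ls
  refine sum_le_sum_of_subset_of_nonneg ?_ (fun t _ _ => hs_nonneg s t)
  exact Icc_subset_Icc_right (Nat.floor_le_floor h)

theorem lam_core (C : ℝ) (hC : 1 ≤ C)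
    (hLI : ∀ s : ℕ, 1 ≤ s → ∀ y : ℝ, 1 ≤ y →
      Ls s y * (Real.log y - C) ≤ 2 * Is s y ∧ 2 * Is s y ≤ Ls s y * (Real.log y + C + gs s))
    (ε : ℝ) (hε : 0 < ε) (hε1 : ε ≤ 1) (s : ℕ) (hs1 : 1 ≤ s) (B l τ : ℝ) (hB : C + gs s ≤ B)
    (hBl : 4 * B ≤ ε * l) (hτ : 12 / ε ^ 2 * B ≤ τ) (hτl : τ ≤ l) (a : ℝ) (ha : 0 ≤ a)
    (hal : a + τ ≤ l) :
    Ls s (Real.exp a) ≤ (1 - (1 - ε) * τ / l) * Ls s (Real.exp (a + τ)) := by
  have hg := gs_nonneg s
  have hB1 : 1 ≤ B := by linarith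
  have hCB : C ≤ B := by linarith
  have hl : 0 < l := by nlinarith
  have hτ0 : 0 < τ := lt_of_lt_of_le (by positivity) hτ
  have hτ1 : 12 * B ≤ ε ^ 2 * τ := by
    rw [div_mul_eq_mul_div, div_le_iff₀ (by positivity)] at hτ
    linarith
  have hL1 := Ls_nonneg s (Real.exp (a + τ))
  have hlam : ε ≤ 1 - (1 - ε) * τ / l := by
    have h1 : (1 - ε) * τ / l ≤ 1 - ε := by
      rw [div_le_iff₀ hl]
      exact mul_le_mul_of_nonneg_left hτl (by linarith)
    linarith
  set lam := 1 - (1 - ε) * τ / l with hlamdef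
  have hlaml : lam * l = l - (1 - ε) * τ := by
    rw [hlamdef]
    field_simp
  have hε2 : ε ^ 2 ≤ ε := by nlinarith
  have hτ2 : 12 * B ≤ ε * τ := by nlinarith
  rcases le_or_gt (8 * B) (ε * a) with hcase | hcase
  · -- large `a`
    have h1 := ratio C hC hLI s hs1 B hB a (a + τ) ha (by linarith)
    set x := a + B with hx
    have hx0 : 0 < x := by linarith
    have hxa : 8 * B ≤ ε * x := by nlinarith
    have hx2B : 0 < x - 2 * B := by nlinarith
    have hkey : x ^ 2 ≤ lam * ((x - 2 * B) * (x + τ)) := by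
      have h2 : x ^ 2 * l ≤ (lam * l) * ((x - 2 * B) * (x + τ)) := by
        rw [hlaml]
        have h3 : x + τ ≤ l + B := by linarith
        have h4 : (x - 2 * B) * (x + τ) ≤ x * (l + B) :=
          mul_le_mul (by linarith) h3 (by linarith) hx0.le
        have h5 : (1 - ε) * τ * ((x - 2 * B) * (x + τ)) ≤ (1 - ε) * τ * (x * (l + B)) :=
          mul_le_mul_of_nonneg_left h4 (mul_nonneg (by linarith) hτ0.le)
        have h6 : (1 - ε) * (l + B) ≤ l - 3 / 4 * (ε * l) := by nlinarith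
        have h7 : (1 - ε) * τ * (x * (l + B)) ≤ τ * x * (l - 3 / 4 * (ε * l)) := by
          have := mul_le_mul_of_nonneg_left h6 (mul_nonneg hτ0.le hx0.le)
          nlinarith
        have h8 : 2 * B * x * l ≤ 1 / 4 * (ε * τ) * x * l := by
          have : 2 * B ≤ 1 / 4 * (ε * τ) := by linarith
          exact mul_le_mul_of_nonneg_right (mul_le_mul_of_nonneg_right this hx0.le) hl.le
        have h9 : 2 * B * τ * l ≤ 1 / 4 * (ε * x) * τ * l := by
          have : 2 * B ≤ 1 / 4 * (ε * x) := by linarith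
          exact mul_le_mul_of_nonneg_right (mul_le_mul_of_nonneg_right this hτ0.le) hl.le
        have h10 : 0 ≤ ε * x * τ * l := by positivity
        nlinarith
      have h3 : x ^ 2 * l ≤ (lam * ((x - 2 * B) * (x + τ))) * l := by linarith
      exact le_of_mul_le_mul_right h3 hl
    have h2 : Ls s (Real.exp a) * ((x - 2 * B) * (x + τ)) ≤ Ls s (Real.exp (a + τ)) * x ^ 2 := by
      refine le_trans (mul_le_mul_of_nonneg_left ?_ (Ls_nonneg s _)) h1
      have e1 : a + τ + B = x + τ := by rw [hx]; ring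
      rw [e1]
      exact mul_le_mul_of_nonneg_right (by linarith) (by linarith)
    have h3 : Ls s (Real.exp a) * ((x - 2 * B) * (x + τ)) ≤
        (lam * Ls s (Real.exp (a + τ))) * ((x - 2 * B) * (x + τ)) := by
      refine h2.trans ?_
      have := mul_le_mul_of_nonneg_left hkey hL1
      linarith
    exact le_of_mul_le_mul_right h3 (mul_pos hx2B (by linarith))
  · -- small `a`
    obtain ⟨k, hk⟩ : ∃ k : ℝ, k = 8 / ε := ⟨_, rfl⟩
    have hkε : k * ε = 8 := by rw [hk]; field_simp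
    have hk8 : 8 ≤ k := by
      rw [hk, le_div_iff₀ hε]
      linarith
    clear hk
    have e1 : ε * (k * B) = 8 * B := by
      rw [← hkε]
      ring
    have hak : a ≤ k * B := by
      have : ε * a ≤ ε * (k * B) := by
        rw [e1]
        exact hcase.le
      exact le_of_mul_le_mul_left this hε
    have hkB : k * B ≤ a + τ := by
      have h0 : 0 ≤ ε * a := mul_nonneg hε.le ha
      have : ε * (k * B) ≤ ε * (a + τ) := by
        rw [e1]
        linarith only [hτ2, h0, hB1]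
      exact le_of_mul_le_mul_left this hε
    have h1 := ratio C hC hLI s hs1 B hB (k * B) (a + τ) (by positivity) hkB
    have h2 : Ls s (Real.exp a) ≤ Ls s (Real.exp (k * B)) := Ls_mono s (Real.exp_le_exp.2 hak)
    have h3 : Ls s (Real.exp (k * B)) * (((k - 1) * B) * τ) ≤
        Ls s (Real.exp (a + τ)) * ((k + 1) * B) ^ 2 := by
      have e1 : k * B + B = (k + 1) * B := by ring
      rw [e1] at h1
      refine le_trans (mul_le_mul_of_nonneg_left ?_ (Ls_nonneg s _)) h1
      have hh : (k - 1) * B ≤ k * B - C := by linarith only [hCB]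
      have hh2 : 0 ≤ k * B - C := by
        have := mul_le_mul_of_nonneg_right hk8 (by linarith : (0 : ℝ) ≤ B)
        linarith only [this, hCB, hB1]
      exact mul_le_mul hh (by linarith) hτ0.le hh2
    have h4 : ((k + 1) * B) ^ 2 ≤ ε * (((k - 1) * B) * τ) := by
      have h5 : (k + 1) ^ 2 ≤ 12 / 8 * k * (k - 1) := by
        have := mul_nonneg (by linarith : (0 : ℝ) ≤ k - 8) (by linarith : (0 : ℝ) ≤ k)
        nlinarith only [this, hk8]
      have h6 : 12 / 8 * k * B ≤ ε * τ := by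
        have e2 : ε * (12 / 8 * k * B) = 12 / 8 * (k * ε) * B := by ring
        have : ε * (12 / 8 * k * B) ≤ ε * (ε * τ) := by
          rw [e2, hkε]
          linarith only [hτ1]
        exact le_of_mul_le_mul_left this hε
      calc ((k + 1) * B) ^ 2 = (k + 1) ^ 2 * B ^ 2 := by ring
        _ ≤ (12 / 8 * k * (k - 1)) * B ^ 2 := mul_le_mul_of_nonneg_right h5 (by positivity)
        _ = ((k - 1) * B) * (12 / 8 * k * B) := by ring
        _ ≤ ((k - 1) * B) * (ε * τ) := mul_le_mul_of_nonneg_left h6 (mul_nonneg (by linarith) (by linarith))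
        _ = ε * (((k - 1) * B) * τ) := by ring
    have hpos : 0 < ((k - 1) * B) * τ := mul_pos (mul_pos (by linarith) (by linarith)) hτ0
    have h5 : Ls s (Real.exp a) * (((k - 1) * B) * τ) ≤
        (lam * Ls s (Real.exp (a + τ))) * (((k - 1) * B) * τ) := by
      calc Ls s (Real.exp a) * (((k - 1) * B) * τ) ≤ Ls s (Real.exp (k * B)) * (((k - 1) * B) * τ) :=
            mul_le_mul_of_nonneg_right h2 hpos.le
        _ ≤ Ls s (Real.exp (a + τ)) * ((k + 1) * B) ^ 2 := h3
        _ ≤ Ls s (Real.exp (a + τ)) * (ε * (((k - 1) * B) * τ)) := mul_le_mul_of_nonneg_left h4 hL1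
        _ = ε * (Ls s (Real.exp (a + τ)) * (((k - 1) * B) * τ)) := by ring
        _ ≤ lam * (Ls s (Real.exp (a + τ)) * (((k - 1) * B) * τ)) :=
            mul_le_mul_of_nonneg_right hlam (mul_nonneg hL1 hpos.le)
        _ = (lam * Ls s (Real.exp (a + τ))) * (((k - 1) * B) * τ) := by ring
    exact le_of_mul_le_mul_right h5 hpos

theorem log_small (c : ℝ) (hc : 0 < c) : ∃ x0 : ℝ, ∀ x : ℝ, x0 ≤ x → Real.log x ≤ c * x := by
  have h := (Real.isLittleO_log_id_atTop.def hc)
  rw [Filter.eventually_atTop] at h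
  obtain ⟨x0, hx0⟩ := h
  refine ⟨max x0 1, fun x hx => ?_⟩
  have h1 := hx0 x ((le_max_left _ _).trans hx)
  have hx1 : 1 ≤ x := (le_max_right _ _).trans hx
  rw [Real.norm_of_nonneg (Real.log_nonneg hx1), id, Real.norm_of_nonneg (by linarith)] at h1
  exact h1

/-- the ratio `L(w)/L(T w)`, uniformly in `s` -/
theorem lam (ε : ℝ) (hε : 0 < ε) (hε1 : ε ≤ 1) : ∃ Q0 : ℕ, 3 ≤ Q0 ∧ ∀ Q : ℕ, Q0 ≤ Q → ∀ τ : ℝ,
    24 / ε ^ 2 * Real.log (Real.log Q) ≤ τ → τ ≤ Real.log Q → ∀ s : ℕ, 1 ≤ s → s ≤ Q →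
    ∀ w : ℝ, 0 < w → w * s * Real.exp τ ≤ Q →
    Ls s w ≤ (1 - (1 - ε) * τ / Real.log Q) * Ls s (w * Real.exp τ) := by
  obtain ⟨C, hC, hLI⟩ := LI_bounds
  obtain ⟨C1, hC1, hgs⟩ := gs_le
  obtain ⟨x0, hx0⟩ := log_small (ε / 8) (by positivity)
  set c2 := C + C1 + 3 with hc2
  refine ⟨max 3 ⌈Real.exp (max x0 (Real.exp c2))⌉₊, le_max_left _ _, ?_⟩
  intro Q hQ τ hτ1 hτ2 s hs1 hsQ w hw hwQ
  have hQ3 : (3 : ℝ) ≤ Q := by exact_mod_cast (le_max_left _ _).trans hQ
  have hQe : Real.exp (max x0 (Real.exp c2)) ≤ Q :=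
    (Nat.le_ceil _).trans (by exact_mod_cast (le_max_right _ _).trans hQ)
  have hlQ : max x0 (Real.exp c2) ≤ Real.log Q := by
    rw [Real.le_log_iff_exp_le (by linarith)]
    exact hQe
  have hlQ1 : x0 ≤ Real.log Q := (le_max_left _ _).trans hlQ
  have hlQ2 : Real.exp c2 ≤ Real.log Q := (le_max_right _ _).trans hlQ
  have hlpos : 0 < Real.log Q := lt_of_lt_of_le (Real.exp_pos _) hlQ2
  have hll : c2 ≤ Real.log (Real.log Q) := by
    rw [Real.le_log_iff_exp_le hlpos]
    exact hlQ2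
  set ll := Real.log (Real.log Q) with hlldef
  have h1 : ll ≤ ε / 8 * Real.log Q := hx0 _ hlQ1
  have hl1 : (1 : ℝ) ≤ Real.log Q := by
    have : Real.exp 0 ≤ Real.exp c2 := Real.exp_le_exp.2 (by linarith)
    rw [Real.exp_zero] at this
    linarith
  -- the bound for `gs`
  have hg : C + gs s ≤ 2 * ll := by
    have h2 := hgs s ⌈Real.log Q⌉₊ hs1 (Nat.one_le_ceil_iff.2 hlpos)
    have h3 : Real.log Q ≤ ⌈Real.log Q⌉₊ := Nat.le_ceil _
    have h4 : (⌈Real.log Q⌉₊ : ℝ) ≤ 2 * Real.log Q := by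
      have := Nat.ceil_lt_add_one hlpos.le
      linarith
    have h5 : Real.log (⌈Real.log Q⌉₊ : ℝ) ≤ 1 + ll := by
      have h6 : Real.log (⌈Real.log Q⌉₊ : ℝ) ≤ Real.log (2 * Real.log Q) :=
        Real.log_le_log (by linarith) h4
      rw [Real.log_mul (by norm_num) hlpos.ne'] at h6
      have := Real.log_two_lt_d9
      linarith
    have h6 : Real.log s / (⌈Real.log Q⌉₊ : ℝ) ≤ 1 := by
      rw [div_le_one (by linarith)]
      refine le_trans (Real.log_le_log (by exact_mod_cast hs1) (by exact_mod_cast hsQ)) h3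
    linarith
  have hcoef : 0 ≤ 1 - (1 - ε) * τ / Real.log Q := by
    have h2 : (1 - ε) * τ / Real.log Q ≤ 1 - ε := by
      rw [div_le_iff₀ hlpos]
      exact mul_le_mul_of_nonneg_left hτ2 (by linarith)
    linarith
  rcases lt_or_ge w 1 with hw1 | hw1
  · have h2 : Ls s w = 0 := by
      unfold Ls
      rw [Nat.floor_eq_zero.2 hw1]
      simp
    rw [h2]
    exact mul_nonneg hcoef (Ls_nonneg s _)
  · have ha : 0 ≤ Real.log w := Real.log_nonneg hw1
    have h2 : Real.log w + τ ≤ Real.log Q := by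
      have h3 : w * Real.exp τ ≤ Q := by
        refine le_trans ?_ hwQ
        have h4 : (1 : ℝ) ≤ s := by exact_mod_cast hs1
        have h5 : 0 < w * Real.exp τ := by positivity
        calc w * Real.exp τ = w * Real.exp τ * 1 := by ring
          _ ≤ w * Real.exp τ * s := mul_le_mul_of_nonneg_left h4 h5.le
          _ = w * s * Real.exp τ := by ring
      have h4 := Real.log_le_log (by positivity) h3
      rw [Real.log_mul hw.ne' (Real.exp_pos τ).ne', Real.log_exp] at h4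
      exact h4
    have h3 := lam_core C hC hLI ε hε hε1 s hs1 (2 * ll) (Real.log Q) τ hg (by linarith)
      (by
        refine le_trans (le_of_eq ?_) hτ1
        ring) hτ2 (Real.log w) ha h2
    rw [Real.exp_add, Real.exp_log hw] at h3
    exact h3

end Pool.Agent.H535.AW
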