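import Pool.Agent.H535.AW.Psd
import Pool.Agent.H535.AW.Lam

set_option autoImplicit false

/-!
The mean squares of exponential sums over sifted sets at the fractions with small denominators.
-/

open Finset

namespace Pool.Agent.H535.AW

open Pool.Agent.Helper112 Pool.Agent.W110.HV

/-- exponential sum -/
noncomputable def SX (X : ℕ) (v : ℕ → ℂ) (α : ℝ) : ℂ := ∑ n ∈ Icc 1 X, v n * ee (n * α)

/-- mean square over the reduced fractions with denominator `r` -/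
noncomputable def GG (X : ℕ) (v : ℕ → ℂ) (r : ℕ) : ℝ :=
  ∑ a ∈ (range r).filter (fun a => a.Coprime r), ‖SX X v ((a : ℝ) / r)‖ ^ 2

/-- the primitive part -/
noncomputable def QQ (X : ℕ) (v : ℕ → ℂ) (s : ℕ) : ℝ :=
  (∑ m ∈ Icc 1 X, ∑ n ∈ Icc 1 X, v m * (starRingEnd ℂ) (v n) * kk s ((m : ℤ) - n)).re

theorem ee_conj (x : ℝ) : (starRingEnd ℂ) (ee x) = ee (-x) := by
  unfold ee
  rw [← Complex.exp_conj]
  congr 1
  simp only [map_mul, Complex.conj_ofReal, Complex.conj_I, map_ofNat]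
  push_cast
  ring

theorem norm_sq_SX (X : ℕ) (v : ℕ → ℂ) (α : ℝ) : ((‖SX X v α‖ ^ 2 : ℝ) : ℂ) =
    ∑ m ∈ Icc 1 X, ∑ n ∈ Icc 1 X, v m * (starRingEnd ℂ) (v n) * ee (((m : ℤ) - n : ℤ) * α) := by
  have h1 : ((‖SX X v α‖ ^ 2 : ℝ) : ℂ) = SX X v α * (starRingEnd ℂ) (SX X v α) := by
    rw [Complex.mul_conj, Complex.normSq_eq_norm_sq]
  rw [h1]
  unfold SX
  rw [map_sum, sum_mul_sum]
  refine sum_congr rfl fun m _ => sum_congr rfl fun n _ => ?_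
  rw [map_mul, ee_conj]
  have h2 : ee (((m : ℤ) - n : ℤ) * α) = ee (m * α) * ee (-(n * α)) := by
    rw [← ls_ee_add]
    congr 1
    push_cast
    ring
  rw [h2]
  ring

theorem GG_cr (X : ℕ) (v : ℕ → ℂ) (r : ℕ) (hr : 1 ≤ r) : ((GG X v r : ℝ) : ℂ) =
    ∑ m ∈ Icc 1 X, ∑ n ∈ Icc 1 X, v m * (starRingEnd ℂ) (v n) * cr r ((m : ℤ) - n) := by
  unfold GG
  rw [Complex.ofReal_sum, sum_congr rfl fun (a : ℕ) _ => norm_sq_SX X v ((a : ℝ) / r), sum_comm]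
  refine sum_congr rfl fun m _ => ?_
  rw [sum_comm]
  refine sum_congr rfl fun n _ => ?_
  rw [← mul_sum, cr_exp r hr]

theorem GG_eq (X : ℕ) (v : ℕ → ℂ) (r : ℕ) (hr : 1 ≤ r) :
    GG X v r = ∑ s ∈ r.divisors, QQ X v s * hs s (r / s) := by
  have h1 : ((GG X v r : ℝ) : ℂ) = ∑ s ∈ r.divisors,
      (∑ m ∈ Icc 1 X, ∑ n ∈ Icc 1 X, v m * (starRingEnd ℂ) (v n) * kk s ((m : ℤ) - n)) *
        (hs s (r / s) : ℂ) := by
    rw [GG_cr X v r hr]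
    have e1 : ∀ m ∈ Icc 1 X, ∀ n ∈ Icc 1 X, v m * (starRingEnd ℂ) (v n) * cr r ((m : ℤ) - n) =
        ∑ s ∈ r.divisors, v m * (starRingEnd ℂ) (v n) * kk s ((m : ℤ) - n) * (hs s (r / s) : ℂ) := by
      intro m _ n _
      rw [cr_decomp _ r hr, mul_sum]
      refine sum_congr rfl fun s _ => ?_
      ring
    rw [sum_congr rfl fun m hm => sum_congr rfl fun n hn => e1 m hm n hn]
    rw [sum_congr rfl fun m _ => sum_comm, sum_comm]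
    refine sum_congr rfl fun s _ => ?_
    rw [sum_mul]
    refine sum_congr rfl fun m _ => ?_
    rw [sum_mul]
  have h2 := congrArg Complex.re h1
  rw [Complex.ofReal_re, Complex.re_sum] at h2
  rw [h2]
  refine sum_congr rfl fun s _ => ?_
  unfold QQ
  rw [Complex.mul_re, Complex.ofReal_re, Complex.ofReal_im, mul_zero, sub_zero]

theorem QQ_nonneg (X : ℕ) (v : ℕ → ℂ) (b : ℕ → ℤ) (s : ℕ)
    (hv : ∀ n ∈ Icc 1 X, v n ≠ 0 → ∀ p ∈ s.primeFactors, ¬ (p : ℤ) ∣ (n : ℤ) - b p) : 0 ≤ QQ X v s := by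
  unfold QQ
  exact PD_form {n : ℤ | ∀ p ∈ s.primeFactors, ¬ (p : ℤ) ∣ n - b p} (kk s)
    (PD_kk _ b s fun n hn => hn) X v hv

theorem sum_divs (N : ℕ) (f : ℕ → ℕ → ℝ) :
    ∑ r ∈ Icc 1 N, ∑ s ∈ r.divisors, f s (r / s) = ∑ s ∈ Icc 1 N, ∑ t ∈ Icc 1 (N / s), f s t := by
  rw [sum_sigma', sum_sigma']
  refine sum_nbij' (fun x => ⟨x.2, x.1 / x.2⟩) (fun x => ⟨x.1 * x.2, x.1⟩) ?_ ?_ ?_ ?_ ?_
  · rintro ⟨r, s⟩ h
    simp only [mem_sigma, mem_Icc, Nat.mem_divisors] at h ⊢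
    obtain ⟨⟨h1, h2⟩, ⟨t, rfl⟩, h4⟩ := h
    have hs0 : 0 < s := Nat.pos_of_ne_zero fun h => by simp [h] at h4
    have ht0 : 0 < t := Nat.pos_of_ne_zero fun h => by simp [h] at h4
    rw [Nat.mul_div_cancel_left t hs0]
    refine ⟨⟨hs0, ?_⟩, ht0, ?_⟩
    · nlinarith
    · rw [Nat.le_div_iff_mul_le hs0]
      linarith
  · rintro ⟨s, t⟩ h
    simp only [mem_sigma, mem_Icc, Nat.mem_divisors] at h ⊢
    obtain ⟨⟨h1, h2⟩, h3, h4⟩ := h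
    rw [Nat.le_div_iff_mul_le (by omega)] at h4
    exact ⟨⟨Nat.mul_pos h1 h3, by linarith⟩, dvd_mul_right s t, (Nat.mul_pos h1 h3).ne'⟩
  · rintro ⟨r, s⟩ h
    simp only [mem_sigma, mem_Icc, Nat.mem_divisors] at h
    simp only [Sigma.mk.injEq, heq_eq_eq, and_true]
    exact Nat.mul_div_cancel' h.2.1
  · rintro ⟨s, t⟩ h
    simp only [mem_sigma, mem_Icc] at h
    simp only [Sigma.mk.injEq, heq_eq_eq, true_and]
    exact Nat.mul_div_cancel_left t (by omega)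
  · rintro ⟨r, s⟩ h
    rfl

theorem sum_GG (X : ℕ) (v : ℕ → ℂ) (Y : ℝ) (N : ℕ) (hN : ⌊Y⌋₊ ≤ N) :
    ∑ r ∈ Icc 1 ⌊Y⌋₊, GG X v r = ∑ s ∈ Icc 1 N, QQ X v s * Ls s (Y / s) := by
  have h1 : ∑ r ∈ Icc 1 ⌊Y⌋₊, GG X v r = ∑ s ∈ Icc 1 ⌊Y⌋₊, QQ X v s * Ls s (Y / s) := by
    rw [sum_congr rfl fun r hr => GG_eq X v r (mem_Icc.1 hr).1,
      sum_divs ⌊Y⌋₊ (fun s t => QQ X v s * hs s t)]
    refine sum_congr rfl fun s _ => ?_
    unfold Ls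
    rw [← mul_sum, Nat.floor_div_natCast]
  rw [h1]
  refine sum_subset (Icc_subset_Icc_right hN) fun s hs1 hs2 => ?_
  rw [mem_Icc] at hs1 hs2
  have h2 : ⌊Y⌋₊ < s := by omega
  have h3 : Ls s (Y / s) = 0 := by
    unfold Ls
    rw [Nat.floor_div_natCast, Nat.div_eq_of_lt h2]
    simp
  rw [h3, mul_zero]

/-- the main inequality for the mean squares -/
theorem propA (Q X : ℕ) (b : ℕ → ℤ) (v : ℕ → ℂ)
    (hv : ∀ n ∈ Icc 1 X, v n ≠ 0 → ∀ p : ℕ, p.Prime → p ≤ Q → ¬ (p : ℤ) ∣ (n : ℤ) - b p)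
    (lm T : ℝ) (hT : 1 ≤ T)
    (hlam : ∀ s : ℕ, 1 ≤ s → s ≤ Q → ∀ w : ℝ, 0 < w → w * s * T ≤ Q → Ls s w ≤ lm * Ls s (w * T))
    (Y : ℝ) (hY0 : 0 < Y) (hY : Y * T ≤ Q) :
    ∑ r ∈ Icc 1 ⌊Y⌋₊, GG X v r ≤ lm * ∑ r ∈ Icc 1 ⌊Y * T⌋₊, GG X v r := by
  have hYT : Y ≤ Y * T := le_mul_of_one_le_right hY0.le hT
  rw [sum_GG X v Y ⌊Y * T⌋₊ (Nat.floor_le_floor hYT), sum_GG X v (Y * T) ⌊Y * T⌋₊ le_rfl, mul_sum]
  refine sum_le_sum fun s hs1 => ?_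
  rw [mem_Icc] at hs1
  have hs0 : (0 : ℝ) < s := by exact_mod_cast hs1.1
  have hsQ : s ≤ Q := by
    have h1 : ⌊Y * T⌋₊ ≤ Q := by
      have := Nat.floor_le_floor hY
      rwa [Nat.floor_natCast] at this
    exact hs1.2.trans h1
  have hQ := QQ_nonneg X v b s (by
    intro n hn hn0 p hp
    have h1 := Nat.mem_primeFactors.1 hp
    exact hv n hn hn0 p h1.1 ((Nat.le_of_dvd hs1.1 h1.2.1).trans hsQ))
  have h2 := hlam s hs1.1 hsQ (Y / s) (by positivity) (by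
    have : Y / s * s * T = Y * T := by field_simp
    rw [this]
    exact hY)
  have e1 : Y / s * T = Y * T / s := by ring
  rw [e1] at h2
  have := mul_le_mul_of_nonneg_left h2 hQ
  linarith

end Pool.Agent.H535.AW
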