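import Pool.Agent.H535.AW.Var
import Pool.Agent.H535.AW.Par

set_option autoImplicit false

/-!
The lower bound for the variance, summed over the moduli.
-/

open Finset

namespace Pool.Agent.H535.AW

open Pool.Agent.Helper112 Pool.Agent.W110.HV

theorem large (A : ℝ) (Q0 : ℕ) : ∃ X0 : ℕ, ∀ X : ℕ, X0 ≤ X →
    A ≤ Real.log X ∧ 16 * Real.log X ≤ Real.sqrt X ∧ Q0 ≤ Nat.sqrt X ∧ 2 ≤ X := by
  have h1 : ∀ᶠ x : ℝ in Filter.atTop, A ≤ Real.log x := Real.tendsto_log_atTop.eventually_ge_atTop A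
  have h2 : ∀ᶠ x : ℝ in Filter.atTop, ‖Real.log x‖ ≤ (1 / 16) * ‖x ^ (1 / 2 : ℝ)‖ :=
    (isLittleO_log_rpow_atTop (by norm_num : (0 : ℝ) < 1 / 2)).def (by norm_num)
  have h3 := tendsto_natCast_atTop_atTop (R := ℝ) |>.eventually (h1.and h2)
  rw [Filter.eventually_atTop] at h3
  obtain ⟨X1, hX1⟩ := h3
  refine ⟨max (max X1 (Q0 * Q0)) 2, fun X hX => ?_⟩
  have hXa : X1 ≤ X := (le_max_left _ _).trans ((le_max_left _ _).trans hX)
  have hXb : Q0 * Q0 ≤ X := (le_max_right _ _).trans ((le_max_left _ _).trans hX)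
  have hXc : 2 ≤ X := (le_max_right _ _).trans hX
  obtain ⟨a1, a2⟩ := hX1 X hXa
  refine ⟨a1, ?_, Nat.le_sqrt.2 hXb, hXc⟩
  have hX1' : (1 : ℝ) ≤ X := by
    have : 1 ≤ X := by omega
    exact_mod_cast this
  rw [Real.norm_of_nonneg (Real.log_nonneg hX1'), Real.norm_of_nonneg (by positivity), ← Real.sqrt_eq_rpow] at a2
  linarith

/-- the lower bound for the sum over the moduli -/
theorem main_sum (ε : ℝ) (hε : 0 < ε) (hε1 : ε ≤ 1) : ∃ C : ℝ, 8 ≤ C ∧ ∃ X0 : ℕ, ∀ X : ℕ, X0 ≤ X →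
    ∀ K : ℕ, Real.sqrt X * Real.log X ^ C ≤ K → K ≤ X → ∀ (Y : ℕ) (b : ℕ → ℤ) (v : ℕ → ℂ),
    (∀ n ∈ Icc 1 X, v n ≠ 0 → ∀ p : ℕ, p.Prime → p ≤ Nat.sqrt X → ¬ (p : ℤ) ∣ (n : ℤ) - b p) →
    (1 - ε) * (Real.log ((K : ℝ) ^ 2 / X) / Real.log X) * K * ∑ n ∈ Icc 1 X, ‖v n‖ ^ 2 ≤
      ∑ k ∈ Ioc K (2 * K), (∑ a ∈ range k, ‖SC X Y k v a‖ ^ 2 -
        ‖∑ n ∈ Icc 1 X, v n‖ ^ 2 / (Nat.totient k : ℝ)) := by
  obtain ⟨e, hedef⟩ : ∃ e : ℝ, e = ε / 16 := ⟨_, rfl⟩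
  have he : 0 < e := by rw [hedef]; positivity
  have he1 : e ≤ 1 / 16 := by rw [hedef]; linarith
  obtain ⟨Q0, hQ0, hlamT⟩ := lam e he (by linarith)
  obtain ⟨X0, hX0⟩ := large (100 / e ^ 3) Q0
  obtain ⟨C, hCdef⟩ : ∃ C : ℝ, C = 48 / e ^ 2 := ⟨_, rfl⟩
  have he2 : 0 < e ^ 2 := by positivity
  have hC8 : 8 ≤ C := by
    rw [hCdef, le_div_iff₀ he2]
    nlinarith only [he, he1]
  refine ⟨C, hC8, X0, fun X hX K hK hKX Y b v hv => ?_⟩
  obtain ⟨hL, hsL, hQ0X, hX2⟩ := hX0 X hX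
  obtain ⟨L, hLdef⟩ : ∃ L : ℝ, L = Real.log X := ⟨_, rfl⟩
  obtain ⟨s, hsdef⟩ : ∃ s : ℝ, s = Real.sqrt X := ⟨_, rfl⟩
  rw [← hLdef] at hL hsL hK ⊢
  rw [← hsdef] at hsL hK
  have he3 : 0 < e ^ 3 := by positivity
  have hLe : 100 ≤ L * e ^ 3 := by rwa [div_le_iff₀ he3] at hL
  have hee : e ^ 3 ≤ 1 := pow_le_one₀ he.le (by linarith)
  have hL0 : 0 < L := lt_of_lt_of_le (by positivity) hL
  have hL100 : 100 ≤ L := by
    have h1 : L * e ^ 3 ≤ L * 1 := mul_le_mul_of_nonneg_left hee hL0.le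
    linarith only [h1, hLe]
  have hL1 : 1 ≤ L := by linarith
  have hs0 : 0 < s := by linarith
  have hXr : (2 : ℝ) ≤ X := by exact_mod_cast hX2
  have hX00 : (0 : ℝ) < X := by linarith
  have hsX : s ^ 2 = X := by rw [hsdef, Real.sq_sqrt hX00.le]
  have hLC4 : L ^ 4 ≤ L ^ C := by
    have : L ^ (4 : ℝ) ≤ L ^ C := Real.rpow_le_rpow_of_exponent_le hL1 (by linarith)
    rwa [show (4 : ℝ) = ((4 : ℕ) : ℝ) by norm_num, Real.rpow_natCast] at this
  have hK4 : s * L ^ 4 ≤ K := le_trans (mul_le_mul_of_nonneg_left hLC4 hs0.le) hK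
  obtain ⟨Q, n, N, R, T, hQdef, hQs, hQs2, hQpos, hN, hn, hnK, hR, hRN, hRQ, hT1, hTQ, hRT, hTn, hTlow, hne,
    hBN, hpi, hXR⟩ := par e he he1 X K L s hsdef hL hsL hK4 hKX
  have hK0 : (0 : ℝ) < K := lt_of_lt_of_le (by positivity) hK4
  have hN0 : (0 : ℝ) < N := by exact_mod_cast hN
  have hR0 : (0 : ℝ) < R := by exact_mod_cast hR
  have hQr : (0 : ℝ) < Q := by exact_mod_cast hQpos
  have hT0 : 0 < T := by linarith
  -- logarithms
  obtain ⟨w, hwdef⟩ : ∃ w : ℝ, w = Real.log ((K : ℝ) / s) := ⟨_, rfl⟩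
  have hlogL : 1 ≤ Real.log L := by
    rw [Real.le_log_iff_exp_le hL0]
    have := Real.exp_one_lt_d9
    linarith
  have hw1 : C * Real.log L ≤ w := by
    rw [hwdef, ← Real.log_rpow hL0]
    apply Real.log_le_log (by positivity)
    rw [le_div_iff₀ hs0, mul_comm]
    exact hK
  have hw8 : 8 ≤ w := by
    have h1 : 8 * 1 ≤ C * Real.log L := mul_le_mul hC8 hlogL (by norm_num) (by linarith)
    linarith only [h1, hw1]
  have hlogs : Real.log s = L / 2 := by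
    have h1 : Real.log (s ^ 2) = L := by rw [hsX, hLdef]
    rw [Real.log_pow] at h1
    push_cast at h1
    linarith
  have hrho : Real.log ((K : ℝ) ^ 2 / X) = 2 * w := by
    rw [hwdef, ← hsX, ← div_pow, Real.log_pow]
    push_cast
    ring
  obtain ⟨ρ, hρdef⟩ : ∃ ρ : ℝ, ρ = 2 * w / L := ⟨_, rfl⟩
  have hρL : ρ * L = 2 * w := by rw [hρdef]; field_simp
  have hρ0 : 0 < ρ := by rw [hρdef]; positivity
  have hρ1 : 1 / L ≤ ρ := by
    rw [hρdef]
    exact div_le_div_of_nonneg_right (by linarith) hL0.le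
  -- tau
  obtain ⟨τ, hτdef⟩ : ∃ τ : ℝ, τ = Real.log T := ⟨_, rfl⟩
  have hexp : Real.exp τ = T := by rw [hτdef, Real.exp_log hT0]
  have hCe : C * e ^ 2 = 48 := by rw [hCdef]; field_simp
  have hlw : Real.log L * 48 ≤ w * e ^ 2 := by
    calc Real.log L * 48 = (C * Real.log L) * e ^ 2 := by rw [← hCe]; ring
      _ ≤ w * e ^ 2 := mul_le_mul_of_nonneg_right hw1 he2.le
  have hee2 : e ^ 2 ≤ e := by nlinarith only [he, he1]
  have hτ1 : (1 - e) * w ≤ τ := by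
    have h1 : Real.log ((K : ℝ) / s / L ^ 3) ≤ τ := by
      rw [hτdef]
      exact Real.log_le_log (by positivity) hTlow
    rw [Real.log_div (by positivity) (by positivity), Real.log_pow, ← hwdef] at h1
    push_cast at h1
    have h2 : w * e ^ 2 ≤ w * e := mul_le_mul_of_nonneg_left hee2 (by linarith)
    linarith
  have hτ0 : 0 < τ := lt_of_lt_of_le (mul_pos (by linarith) (by linarith)) hτ1
  have hτQ : τ ≤ Real.log Q := by
    rw [hτdef]
    exact Real.log_le_log hT0 hTQ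
  have hlogQ : Real.log Q ≤ L / 2 := by
    rw [← hlogs]
    exact Real.log_le_log hQr hQs2
  have hlogQ0 : 0 < Real.log Q := lt_of_lt_of_le hτ0 hτQ
  have hτ2 : 24 / e ^ 2 * Real.log (Real.log Q) ≤ τ := by
    have h1 : Real.log (Real.log Q) ≤ Real.log L := Real.log_le_log hlogQ0 (by linarith)
    have h2 : 24 / e ^ 2 * Real.log (Real.log Q) ≤ 24 / e ^ 2 * Real.log L :=
      mul_le_mul_of_nonneg_left h1 (by positivity)
    have h3 : 24 / e ^ 2 * Real.log L = C * Real.log L / 2 := by rw [hCdef]; ring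
    have h4 : 1 / 2 * w ≤ (1 - e) * w := mul_le_mul_of_nonneg_right (by linarith) (by linarith)
    linarith only [h2, h3, h4, hw1, hτ1]
  have hQ0Q : Q0 ≤ Q := by rw [hQdef]; exact hQ0X
  obtain ⟨lm, hlmdef⟩ : ∃ lm : ℝ, lm = 1 - (1 - e) * τ / Real.log Q := ⟨_, rfl⟩
  have hlm0 : 0 ≤ lm := by
    rw [hlmdef, sub_nonneg, div_le_one hlogQ0]
    have h1 : (1 - e) * τ ≤ 1 * τ := mul_le_mul_of_nonneg_right (by linarith) hτ0.le
    linarith only [h1, hτQ]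
  have hlmlow : (1 - 2 * e) * ρ ≤ 1 - lm := by
    have h1 : 1 - lm = (1 - e) * τ / Real.log Q := by rw [hlmdef]; ring
    rw [h1]
    have h2 : (1 - e) * τ / (L / 2) ≤ (1 - e) * τ / Real.log Q :=
      div_le_div_of_nonneg_left (mul_nonneg (by linarith) hτ0.le) hlogQ0 hlogQ
    refine le_trans ?_ h2
    rw [le_div_iff₀ (by linarith)]
    have h3 : (1 - 2 * e) * ρ * (L / 2) = (1 - 2 * e) * w := by
      calc (1 - 2 * e) * ρ * (L / 2) = (1 - 2 * e) * (ρ * L) / 2 := by ring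
        _ = (1 - 2 * e) * w := by rw [hρL]; ring
    rw [h3]
    have h4 : (1 - e) * ((1 - e) * w) ≤ (1 - e) * τ := mul_le_mul_of_nonneg_left hτ1 (by linarith)
    have h5 : 0 ≤ e ^ 2 * w := by positivity
    linarith only [h4, h5, (by ring : (1 - e) * ((1 - e) * w) = (1 - 2 * e) * w + e ^ 2 * w)]
  have hlam : ∀ s : ℕ, 1 ≤ s → s ≤ Q → ∀ w : ℝ, 0 < w → w * s * T ≤ Q → Ls s w ≤ lm * Ls s (w * T) := by
    intro s' h1 h2 w' h3 h4
    have h5 := hlamT Q hQ0Q τ hτ2 hτQ s' h1 h2 w' h3 (by rw [hexp]; exact h4)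
    rw [hexp] at h5
    rw [hlmdef]
    exact h5
  -- the sum over the moduli
  set V := ∑ n ∈ Icc 1 X, ‖v n‖ ^ 2 with hV
  have hV0 : 0 ≤ V := sum_nonneg fun _ _ => by positivity
  obtain ⟨B, hBdef⟩ : ∃ B : ℝ, B = (1 - (n : ℝ) / K) / N - (2 / ((n : ℝ) + 1) + 1 / R) / K := ⟨_, rfl⟩
  rw [← hBdef] at hBN
  have hB0 : 0 ≤ B := by
    by_contra hcon
    push Not at hcon
    have : B * N < 0 := mul_neg_of_neg_of_pos hcon hN0
    linarith
  have hXf : X ≤ (2 * X).factorial := (by omega : X ≤ 2 * X).trans (Nat.self_le_factorial _)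
  have hmain := sum_D Q (N * (2 * X).factorial) X Y K n N R (2 * X).factorial hQpos rfl
    (Nat.factorial_pos _) hN hn hnK hR hRN hRQ b v (by rw [hQdef]; exact hv) lm T hT1 hlm0 hlam
    (fun r hr1 hr2 => (Nat.dvd_factorial hr1 (by
      have h1 : Q ≤ X := by rw [hQdef]; exact Nat.sqrt_le_self X
      omega)).mul_left N)
    (fun k hk1 hk2 => (Nat.dvd_factorial (by omega) (by omega)).mul_left N)
    (hXf.trans (Nat.le_mul_of_pos_left _ hN)) hRT hTn e he (by linarith) B hBdef hB0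
  refine le_trans ?_ hmain
  -- the numerical inequality
  rw [hrho, ← hρdef, ← hV]
  have hbr : (1 - 4 * e) * ρ ≤ (1 - e) * (1 - lm) - (1 / e) * (2 * Real.pi * X / N) ^ 2 := by
    have h1 : (1 - e) * ((1 - 2 * e) * ρ) ≤ (1 - e) * (1 - lm) := mul_le_mul_of_nonneg_left hlmlow (by linarith)
    have h2 : e / L ≤ e * ρ := by
      have := mul_le_mul_of_nonneg_left hρ1 he.le
      rwa [mul_one_div] at this
    have h3 : 0 ≤ 2 * e ^ 2 * ρ := by positivity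
    linarith only [h1, h2, h3, hpi,
      (by ring : (1 - e) * ((1 - 2 * e) * ρ) = (1 - 4 * e) * ρ + e * ρ + 2 * e ^ 2 * ρ)]
  have hbr0 : 0 ≤ (1 - 4 * e) * ρ := mul_nonneg (by linarith) hρ0.le
  have hKn : (1 - e) * K ≤ (K : ℝ) - n := by linarith
  have hm1 : (1 - 11 * e) * ρ * K ≤ ((K : ℝ) - n) * B *
      (N * ((1 - e) * (1 - lm) - (1 / e) * (2 * Real.pi * X / N) ^ 2)) := by
    have h1 : ((K : ℝ) - n) * B * (N * ((1 - e) * (1 - lm) - (1 / e) * (2 * Real.pi * X / N) ^ 2)) =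
        (((K : ℝ) - n) * (B * N)) * ((1 - e) * (1 - lm) - (1 / e) * (2 * Real.pi * X / N) ^ 2) := by ring
    rw [h1]
    have h2 : ((1 - e) * K) * (1 - 6 * e) ≤ ((K : ℝ) - n) * (B * N) :=
      mul_le_mul hKn hBN (by linarith) (le_trans (mul_nonneg (by linarith) hK0.le) hKn)
    have h3 : (((1 - e) * K) * (1 - 6 * e)) * ((1 - 4 * e) * ρ) ≤
        (((K : ℝ) - n) * (B * N)) * ((1 - e) * (1 - lm) - (1 / e) * (2 * Real.pi * X / N) ^ 2) :=
      mul_le_mul h2 hbr hbr0 (le_trans (mul_nonneg (mul_nonneg (by linarith) hK0.le) (by linarith)) h2)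
    refine le_trans ?_ h3
    have h4 : (1 - 11 * e) ≤ (1 - e) * (1 - 6 * e) * (1 - 4 * e) := by
      have h7 : 0 ≤ e ^ 2 * (34 - 24 * e) := mul_nonneg he2.le (by linarith)
      linarith only [h7, (by ring : (1 - e) * (1 - 6 * e) * (1 - 4 * e) = 1 - 11 * e + e ^ 2 * (34 - 24 * e))]
    have h5 : 0 ≤ ρ * K := by positivity
    have h6 := mul_le_mul_of_nonneg_right h4 h5
    linarith only [h6, (by ring : (1 - 11 * e) * (ρ * K) = (1 - 11 * e) * ρ * K),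
      (by ring : (1 - e) * (1 - 6 * e) * (1 - 4 * e) * (ρ * K) = (((1 - e) * K) * (1 - 6 * e)) * ((1 - 4 * e) * ρ))]
  have hLg : Real.log ((2 * K : ℕ) : ℝ) ≤ 1 + L := by
    have h1 : ((2 * K : ℕ) : ℝ) ≤ 2 * X := by
      push_cast
      have : (K : ℝ) ≤ X := by exact_mod_cast hKX
      linarith
    have h2 : (0 : ℝ) < ((2 * K : ℕ) : ℝ) := by
      push_cast
      linarith
    have h3 := Real.log_le_log h2 h1
    rw [Real.log_mul (by norm_num) hX00.ne', ← hLdef] at h3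
    have := Real.log_two_lt_d9
    linarith
  have hLg0 : 0 ≤ Real.log ((2 * K : ℕ) : ℝ) := by
    apply Real.log_nonneg
    push_cast
    have h1 : s * 1 ≤ s * L ^ 4 := mul_le_mul_of_nonneg_left (one_le_pow₀ hL1) hs0.le
    linarith only [h1, hK4, hsL, hL100]
  have htail : (X : ℝ) * ((1 + 2 * Real.log ((2 * K : ℕ) : ℝ)) *
      (1 / R + (1 + Real.log ((2 * K : ℕ) : ℝ)) / K)) ≤ 2 * e * ρ * K := by
    have h1 : (1 + 2 * Real.log ((2 * K : ℕ) : ℝ)) * (1 / (R : ℝ) + (1 + Real.log ((2 * K : ℕ) : ℝ)) / K) ≤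
        (3 * L) * (1 / R + (2 * L) / K) := by
      refine mul_le_mul (by linarith) ?_ (by positivity) (by positivity)
      have : (1 + Real.log ((2 * K : ℕ) : ℝ)) / K ≤ (2 * L) / K :=
        div_le_div_of_nonneg_right (by linarith) hK0.le
      linarith
    have h2 : (X : ℝ) * ((3 * L) * (1 / R + (2 * L) / K)) = (3 * L) * (X * (1 / R)) + 6 * L ^ 2 * X / K := by
      ring
    have h3 : (3 * L) * ((X : ℝ) * (1 / R)) ≤ (3 * L) * (e ^ 2 * K / (3 * L ^ 2)) :=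
      mul_le_mul_of_nonneg_left hXR (by positivity)
    have h4 : (3 * L) * (e ^ 2 * K / (3 * L ^ 2)) = e ^ 2 * K * (1 / L) := by field_simp
    have h5 : e ^ 2 * K * (1 / L) ≤ e * K * ρ := by
      have : e ^ 2 * (K : ℝ) ≤ e * K := mul_le_mul_of_nonneg_right hee2 hK0.le
      exact mul_le_mul this hρ1 (by positivity) (by positivity)
    have h6 : 6 * L ^ 2 * X / K ≤ e * K * ρ := by
      rw [div_le_iff₀ hK0]
      have h7 : X * L ^ 8 ≤ (K : ℝ) ^ 2 := by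
        have := pow_le_pow_left₀ (by positivity) hK4 2
        have h8 : (s * L ^ 4) ^ 2 = X * L ^ 8 := by rw [mul_pow, hsX]; ring
        linarith
      have h8 : e * (X * L ^ 8) * (1 / L) ≤ e * (K : ℝ) ^ 2 * ρ :=
        mul_le_mul (mul_le_mul_of_nonneg_left h7 he.le) hρ1 (by positivity) (by positivity)
      have h9 : e * (X * L ^ 8) * (1 / L) = (X * L ^ 2) * (e * L ^ 5) := by field_simp
      have h10 : 6 ≤ e * L ^ 5 := by
        have h11 : e ^ 3 ≤ e := by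
          have := pow_le_pow_of_le_one he.le (by linarith : e ≤ 1) (by norm_num : 1 ≤ 3)
          rwa [pow_one] at this
        have h12 : 100 ≤ L * e := le_trans hLe (mul_le_mul_of_nonneg_left h11 hL0.le)
        have h13 : 1 ≤ L ^ 4 := one_le_pow₀ hL1
        have h14 : e * L ^ 5 = (L * e) * L ^ 4 := by ring
        rw [h14]
        have h15 : (L * e) * 1 ≤ (L * e) * L ^ 4 := mul_le_mul_of_nonneg_left h13 (by positivity)
        linarith only [h12, h15]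
      have h11 : (X * L ^ 2) * 6 ≤ (X * L ^ 2) * (e * L ^ 5) := mul_le_mul_of_nonneg_left h10 (by positivity)
      linarith only [h8, h9, h11, (by ring : e * (K : ℝ) * ρ * K = e * (K : ℝ) ^ 2 * ρ)]
    calc (X : ℝ) * ((1 + 2 * Real.log ((2 * K : ℕ) : ℝ)) *
          (1 / R + (1 + Real.log ((2 * K : ℕ) : ℝ)) / K)) ≤ X * ((3 * L) * (1 / R + (2 * L) / K)) :=
          mul_le_mul_of_nonneg_left h1 hX00.le
      _ = (3 * L) * (X * (1 / R)) + 6 * L ^ 2 * X / K := h2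
      _ ≤ e * K * ρ + e * K * ρ := by linarith
      _ = 2 * e * ρ * K := by ring
  have hfin1 := mul_le_mul_of_nonneg_right hm1 hV0
  have hfin2 := mul_le_mul_of_nonneg_right htail hV0
  have hfin3 : (1 - ε) * ρ * K * V ≤ (1 - 11 * e) * ρ * K * V - 2 * e * ρ * K * V := by
    have h1 : ε = 16 * e := by rw [hedef]; ring
    have h2 : 0 ≤ e * (ρ * K * V) := by positivity
    rw [h1]
    linarith only [h2, (by ring : (1 - 11 * e) * ρ * K * V - 2 * e * ρ * K * V =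
      (1 - 16 * e) * ρ * K * V + 3 * (e * (ρ * K * V)))]
  have hfin4 : (X : ℝ) * V * ((1 + 2 * Real.log ((2 * K : ℕ) : ℝ)) *
      (1 / R + (1 + Real.log ((2 * K : ℕ) : ℝ)) / K)) =
      (X : ℝ) * ((1 + 2 * Real.log ((2 * K : ℕ) : ℝ)) *
      (1 / R + (1 + Real.log ((2 * K : ℕ) : ℝ)) / K)) * V := by ring
  rw [hfin4]
  linarith

end Pool.Agent.H535.AW
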