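import Pool.Agent.H535.AW.Hs
import Pool.Agent.H535.LB.Sqf
import Pool.Graph.R_seed8.Helper112.Arith

set_option autoImplicit false

/-!
Elementary bounds for the totient, and the sum over the large divisors.
-/

open Finset

namespace Pool.Agent.H535.AW

theorem card_le_max (S : Finset ℕ) (q : ℕ) (h : ∀ p ∈ S, 2 ≤ p ∧ p < q) : S.card + 2 ≤ q ∨ S = ∅ := by
  rcases S.eq_empty_or_nonempty with h0 | ⟨x, hx⟩
  · exact Or.inr h0
  left
  have h1 : S ⊆ Ico 2 q := fun p hp => mem_Ico.2 (h p hp)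
  have h2 := card_le_card h1
  rw [Nat.card_Ico] at h2
  have := h x hx
  omega

theorem tot_prod (S : Finset ℕ) (h : ∀ p ∈ S, 2 ≤ p) :
    1 / ((S.card : ℝ) + 1) ≤ ∏ p ∈ S, (1 - 1 / (p : ℝ)) := by
  induction S using Finset.induction_on_max with
  | empty => simp
  | insert q S hq ih =>
    have hqS : q ∉ S := fun hh => lt_irrefl _ (hq q hh)
    rw [card_insert_of_notMem hqS, prod_insert hqS]
    have ih' := ih fun p hp => h p (mem_insert_of_mem hp)
    have hq2 : 2 ≤ q := h q (mem_insert_self q S)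
    have hcard : S.card + 2 ≤ q := by
      rcases card_le_max S q (fun p hp => ⟨h p (mem_insert_of_mem hp), hq p hp⟩) with h1 | h1
      · exact h1
      · rw [h1, card_empty]
        exact hq2
    have hcard' : (S.card : ℝ) + 2 ≤ q := by exact_mod_cast hcard
    have hc0 : (0 : ℝ) ≤ S.card := Nat.cast_nonneg _
    have h1 : 1 - 1 / ((S.card : ℝ) + 2) ≤ 1 - 1 / (q : ℝ) := by
      have := one_div_le_one_div_of_le (by linarith : (0 : ℝ) < (S.card : ℝ) + 2) hcard'
      linarith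
    have h2 : 0 ≤ 1 - 1 / ((S.card : ℝ) + 2) := by
      rw [sub_nonneg, div_le_one (by linarith)]
      linarith
    calc 1 / (((S.card + 1 : ℕ) : ℝ) + 1) = (1 - 1 / ((S.card : ℝ) + 2)) * (1 / ((S.card : ℝ) + 1)) := by
          push_cast
          field_simp
          ring
      _ ≤ _ := mul_le_mul h1 ih' (by positivity) (h2.trans h1)

theorem two_pow_omega (r : ℕ) (hr : 1 ≤ r) : 2 ^ r.primeFactors.card ≤ r := by
  calc 2 ^ r.primeFactors.card = ∏ _p ∈ r.primeFactors, 2 := by rw [prod_const]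
    _ ≤ ∏ p ∈ r.primeFactors, p :=
        prod_le_prod' fun p hp => (Nat.prime_of_mem_primeFactors hp).two_le
    _ ≤ r := Nat.le_of_dvd (by omega) (Nat.prod_primeFactors_dvd r)

theorem omega_le (r : ℕ) (hr : 1 ≤ r) : (r.primeFactors.card : ℝ) ≤ 2 * Real.log r := by
  have h1 : ((2 : ℝ) ^ r.primeFactors.card) ≤ r := by exact_mod_cast two_pow_omega r hr
  have h2 := Real.log_le_log (by positivity) h1
  rw [Real.log_pow] at h2
  have h3 : (1 : ℝ) / 2 ≤ Real.log 2 := by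
    have := Real.log_two_gt_d9
    linarith
  have h4 : (0 : ℝ) ≤ r.primeFactors.card := Nat.cast_nonneg _
  nlinarith

theorem tot_le (r : ℕ) (hr : 1 ≤ r) : (r : ℝ) ≤ (Nat.totient r : ℝ) * (1 + 2 * Real.log r) := by
  have hr0 : (0 : ℝ) < r := by exact_mod_cast hr
  have h1 : (Nat.totient r : ℝ) = r * ∏ p ∈ r.primeFactors, (1 - 1 / (p : ℝ)) := by
    have h := Nat.totient_eq_mul_prod_factors r
    have h2 : ((Nat.totient r : ℚ) : ℝ) = (((r : ℚ) * ∏ p ∈ r.primeFactors, (1 - (p : ℚ)⁻¹) : ℚ) : ℝ) := by rw [h]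
    push_cast at h2
    simpa [one_div] using h2
  have h2 := tot_prod r.primeFactors fun p hp => (Nat.prime_of_mem_primeFactors hp).two_le
  have h3 := omega_le r hr
  have h4 : (0 : ℝ) ≤ r.primeFactors.card := Nat.cast_nonneg _
  rw [h1]
  have h5 : 1 / (1 + 2 * Real.log r) ≤ ∏ p ∈ r.primeFactors, (1 - 1 / (p : ℝ)) := by
    refine le_trans ?_ h2
    exact one_div_le_one_div_of_le (by linarith) (by linarith)
  have h6 : 0 < 1 + 2 * Real.log r := by linarith
  rw [div_le_iff₀ h6] at h5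
  nlinarith

theorem inv_tot_le (r : ℕ) (hr : 1 ≤ r) : 1 / (Nat.totient r : ℝ) ≤ (1 + 2 * Real.log r) / r := by
  have h1 := tot_le r hr
  have hr0 : (0 : ℝ) < r := by exact_mod_cast hr
  have h2 : (0 : ℝ) < Nat.totient r := by exact_mod_cast Nat.totient_pos.2 (by omega)
  rw [div_le_div_iff₀ h2 hr0]
  linarith

theorem hs_le (r : ℕ) (hr : 1 ≤ r) : hs 1 r ≤ (1 + 2 * Real.log r) / r := by
  unfold hs
  split_ifs
  · exact inv_tot_le r hr
  · have : 0 ≤ Real.log r := Real.log_nonneg (by exact_mod_cast hr)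
    positivity

/-- `k/φ(k)` as a sum over the divisors -/
theorem sum_hs_divisors (k : ℕ) (hk : 1 ≤ k) : ∑ r ∈ k.divisors, hs 1 r = (k : ℝ) / Nat.totient k := by
  induction k using Nat.recOnPosPrimePosCoprime with
  | prime_pow p j hp hj =>
    have hp2 : (2 : ℝ) ≤ p := by exact_mod_cast hp.two_le
    rw [Nat.divisors_prime_pow hp, sum_map]
    simp only [Function.Embedding.coeFn_mk]
    obtain ⟨i, rfl⟩ : ∃ i, j = i + 1 := ⟨j - 1, by omega⟩
    rw [sum_range_succ', sum_range_succ']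
    have h1 : ∑ l ∈ range i, hs 1 (p ^ (l + 1 + 1)) = 0 := by
      refine sum_eq_zero fun l _ => hs_zero_of_not _ _ ?_
      intro hsq
      have h3 := hsq p (by
        rw [← pow_two]
        exact pow_dvd_pow p (by omega))
      exact hp.one_lt.ne' (Nat.isUnit_iff.1 h3)
    rw [h1, zero_add, zero_add, pow_one, pow_zero, hs_one, hs_prime_eq 1 p hp (by
      intro hd
      exact hp.one_lt.ne' (Nat.dvd_one.1 hd)), Nat.totient_prime_pow_succ hp]
    have h4 : (p : ℝ) - 1 ≠ 0 := by linarith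
    have h5 : (p : ℝ) ≠ 0 := by linarith
    rw [Nat.cast_mul, Nat.cast_sub hp.one_lt.le, Nat.cast_one]
    push_cast
    field_simp
    ring
  | zero => omega
  | one => simp [hs_one]
  | coprime a b ha hb hab iha ihb =>
    rw [Nat.totient_mul hab, Nat.cast_mul, Nat.cast_mul, mul_div_mul_comm, ← iha (by omega), ← ihb (by omega),
      Nat.divisors_mul, Finset.mul_def, sum_image hab.mul_injOn_divisors, sum_product, sum_mul_sum]
    refine sum_congr rfl fun d hd => sum_congr rfl fun e he => ?_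
    simp only
    rw [Nat.mem_divisors] at hd he
    rw [hs_mul 1 d e ((hab.coprime_dvd_left hd.1).coprime_dvd_right he.1)]

/-- the contribution of the large divisors -/
theorem tail_sum (K R : ℕ) (hK : 1 ≤ K) (hR : 1 ≤ R) :
    ∑ k ∈ Ioc K (2 * K), (1 / (k : ℝ)) * ∑ r ∈ k.divisors.filter (fun r => R < r), hs 1 r ≤
      (1 + 2 * Real.log ((2 * K : ℕ) : ℝ)) * (1 / R + (1 + Real.log ((2 * K : ℕ) : ℝ)) / K) := by
  have hK0 : (0 : ℝ) < K := by exact_mod_cast hK
  have hR0 : (0 : ℝ) < R := by exact_mod_cast hR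
  set Lg := Real.log ((2 * K : ℕ) : ℝ) with hLg
  have hLg0 : 0 ≤ Lg := Real.log_nonneg (by
    have : 1 ≤ 2 * K := by omega
    exact_mod_cast this)
  have h1 : ∑ k ∈ Ioc K (2 * K), (1 / (k : ℝ)) * ∑ r ∈ k.divisors.filter (fun r => R < r), hs 1 r ≤
      ∑ k ∈ Ioc K (2 * K), (1 / (K : ℝ)) * ∑ r ∈ Ioc R (2 * K), (if r ∣ k then hs 1 r else 0) := by
    refine sum_le_sum fun k hk => ?_
    rw [mem_Ioc] at hk
    have hk0 : (0 : ℝ) < k := by
      have : 0 < k := by omega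
      exact_mod_cast this
    refine mul_le_mul ?_ ?_ (sum_nonneg fun r _ => hs_nonneg 1 r) (by positivity)
    · exact one_div_le_one_div_of_le hK0 (by exact_mod_cast hk.1.le)
    · rw [← sum_filter]
      refine sum_le_sum_of_subset_of_nonneg ?_ fun r _ _ => hs_nonneg 1 r
      intro r hr
      rw [mem_filter, Nat.mem_divisors] at hr
      rw [mem_filter, mem_Ioc]
      exact ⟨⟨hr.2, (Nat.le_of_dvd (by omega) hr.1.1).trans hk.2⟩, hr.1.1⟩
  refine h1.trans ?_
  rw [← mul_sum, sum_comm]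
  have h2 : ∀ r ∈ Ioc R (2 * K), ∑ k ∈ Ioc K (2 * K), (if r ∣ k then hs 1 r else 0) ≤
      (1 + 2 * Lg) * (K * ((r : ℝ) ^ 2)⁻¹ + 1 / r) := by
    intro r hr
    rw [mem_Ioc] at hr
    have hr1 : 1 ≤ r := by omega
    have hr0 : (0 : ℝ) < r := by exact_mod_cast hr1
    rw [← sum_filter, sum_const, nsmul_eq_mul]
    have h3 := Pool.Agent.H535.LB.mult_count K r hr1
    have h4 : hs 1 r ≤ (1 + 2 * Lg) / r := by
      refine (hs_le r hr1).trans (div_le_div_of_nonneg_right ?_ hr0.le)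
      have : Real.log r ≤ Lg := Real.log_le_log hr0 (by exact_mod_cast hr.2)
      linarith
    calc (((Ioc K (2 * K)).filter (fun q => r ∣ q)).card : ℝ) * hs 1 r ≤ (K / r + 1) * ((1 + 2 * Lg) / r) :=
          mul_le_mul h3 h4 (hs_nonneg 1 r) (by positivity)
      _ = (1 + 2 * Lg) * (K * ((r : ℝ) ^ 2)⁻¹ + 1 / r) := by
          field_simp
  have h3 := sum_le_sum h2
  rw [← mul_sum, sum_add_distrib, ← mul_sum] at h3
  have h4 : ∑ r ∈ Ioc R (2 * K), ((r : ℝ) ^ 2)⁻¹ ≤ 1 / R := by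
    rcases le_or_gt R (2 * K) with h | h
    · refine (sum_Ioc_inv_sq_le_sub (α := ℝ) (by omega) h).trans ?_
      rw [one_div]
      have : (0 : ℝ) ≤ ((2 * K : ℕ) : ℝ)⁻¹ := by positivity
      linarith
    · rw [Ioc_eq_empty (by omega), sum_empty]
      positivity
  have h5 : ∑ r ∈ Ioc R (2 * K), (1 / (r : ℝ)) ≤ 1 + Lg := by
    refine le_trans ?_ (Pool.Agent.Helper112.harm_le (2 * K) (by omega))
    refine sum_le_sum_of_subset_of_nonneg ?_ fun _ _ _ => by positivity
    intro r hr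
    rw [mem_Ioc] at hr
    rw [mem_Icc]
    omega
  calc (1 / (K : ℝ)) * ∑ r ∈ Ioc R (2 * K), ∑ k ∈ Ioc K (2 * K), (if r ∣ k then hs 1 r else 0)
      ≤ (1 / (K : ℝ)) * ((1 + 2 * Lg) * (K * ∑ r ∈ Ioc R (2 * K), ((r : ℝ) ^ 2)⁻¹ +
          ∑ r ∈ Ioc R (2 * K), (1 / (r : ℝ)))) := mul_le_mul_of_nonneg_left h3 (by positivity)
    _ ≤ (1 / (K : ℝ)) * ((1 + 2 * Lg) * (K * (1 / R) + (1 + Lg))) := by
        refine mul_le_mul_of_nonneg_left (mul_le_mul_of_nonneg_left ?_ (by positivity)) (by positivity)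
        exact add_le_add (mul_le_mul_of_nonneg_left h4 hK0.le) h5
    _ = (1 + 2 * Lg) * (1 / R + (1 + Lg) / K) := by
        field_simp

end Pool.Agent.H535.AW
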