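import Pool.Agent.H535.AW.Good
import Pool.Agent.H535.AW.Tot

set_option autoImplicit false

/-!
The variance over the residue classes, summed over the moduli in `(K, 2K]`.
-/

open Finset

namespace Pool.Agent.H535.AW

open Pool.Agent.Helper112 Pool.Agent.W110.HV

/-- the sum over the residue class of `a` modulo `k`, the argument being shifted by `Y` -/
noncomputable def SC (X Y k : ℕ) (v : ℕ → ℂ) (a : ℕ) : ℂ :=
  ∑ m ∈ (Icc 1 X).filter (fun m => (Y + m) % k = a), v m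

theorem dvd_iff_mod (Y k m n : ℕ) : (k : ℤ) ∣ (m : ℤ) - n ↔ (Y + m) % k = (Y + n) % k := by
  rw [show ((Y + m) % k = (Y + n) % k) ↔ (Y + n) ≡ (Y + m) [MOD k] from eq_comm]
  rw [Nat.modEq_iff_dvd]
  push_cast
  rw [show ((Y : ℤ) + m - (Y + n)) = m - n by ring]

theorem var_parseval (X Y k : ℕ) (hk : 0 < k) (v : ℕ → ℂ) :
    ∑ a ∈ range k, ‖SC X Y k v a‖ ^ 2 = (1 / (k : ℝ)) * ∑ j ∈ range k, ‖SX X v ((j : ℝ) / k)‖ ^ 2 := by
  have hk0 : (k : ℂ) ≠ 0 := by exact_mod_cast hk.ne'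
  have h1 : ((∑ j ∈ range k, ‖SX X v ((j : ℝ) / k)‖ ^ 2 : ℝ) : ℂ) =
      ∑ m ∈ Icc 1 X, ∑ n ∈ Icc 1 X, v m * (starRingEnd ℂ) (v n) * (if (Y + m) % k = (Y + n) % k then (k : ℂ) else 0) := by
    rw [Complex.ofReal_sum, sum_congr rfl fun (x : ℕ) _ => norm_sq_SX X v ((x : ℝ) / k), sum_comm]
    refine sum_congr rfl fun m _ => ?_
    rw [sum_comm]
    refine sum_congr rfl fun n _ => ?_
    rw [← mul_sum, orth k hk]
    congr 1
    simp only [dvd_iff_mod Y k m n]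
  have h2 : ((∑ a ∈ range k, ‖SC X Y k v a‖ ^ 2 : ℝ) : ℂ) =
      ∑ m ∈ Icc 1 X, ∑ n ∈ Icc 1 X, v m * (starRingEnd ℂ) (v n) * (if (Y + m) % k = (Y + n) % k then (1 : ℂ) else 0) := by
    rw [Complex.ofReal_sum]
    have e1 : ∀ a ∈ range k, ((‖SC X Y k v a‖ ^ 2 : ℝ) : ℂ) = ∑ m ∈ Icc 1 X, ∑ n ∈ Icc 1 X,
        (if (Y + m) % k = a then v m else 0) * (starRingEnd ℂ) (if (Y + n) % k = a then v n else 0) := by
      intro a _
      have h3 : ((‖SC X Y k v a‖ ^ 2 : ℝ) : ℂ) = SC X Y k v a * (starRingEnd ℂ) (SC X Y k v a) := by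
        rw [Complex.mul_conj, Complex.normSq_eq_norm_sq]
      rw [h3]
      unfold SC
      rw [sum_filter, map_sum, sum_mul_sum]
    rw [sum_congr rfl e1, sum_comm]
    refine sum_congr rfl fun m _ => ?_
    rw [sum_comm]
    refine sum_congr rfl fun n _ => ?_
    have hm : (Y + m) % k ∈ range k := mem_range.2 (Nat.mod_lt _ hk)
    rw [sum_eq_single ((Y + m) % k)]
    · rw [if_pos rfl]
      by_cases h : (Y + m) % k = (Y + n) % k
      · rw [if_pos h, if_pos h.symm, mul_one]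
      · rw [if_neg h, if_neg (fun hh => h hh.symm)]
        simp
    · intro a _ ha
      rw [if_neg (fun h => ha h.symm), zero_mul]
    · intro h
      exact absurd hm h
  have h3 : ((∑ a ∈ range k, ‖SC X Y k v a‖ ^ 2 : ℝ) : ℂ) =
      (((1 / (k : ℝ)) * ∑ j ∈ range k, ‖SX X v ((j : ℝ) / k)‖ ^ 2 : ℝ) : ℂ) := by
    rw [h2, Complex.ofReal_mul, h1, mul_sum]
    refine sum_congr rfl fun m _ => ?_
    rw [mul_sum]
    refine sum_congr rfl fun n _ => ?_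
    push_cast
    split_ifs
    · field_simp
    · simp
  exact_mod_cast h3

/-- the fractions with small denominators and the fractions in good cells -/
theorem split_fractions (X n N R k : ℕ) (hk : 0 < k) (hN : 0 < N) (hRN : R * (n + 1) ≤ N) (v : ℕ → ℂ) :
    ∑ r ∈ k.divisors.filter (fun r => r ≤ R), GG X v r + ∑ j ∈ GF n N R k, ‖SX X v ((j : ℝ) / k)‖ ^ 2 ≤
      ∑ j ∈ range k, ‖SX X v ((j : ℝ) / k)‖ ^ 2 := by
  classical
  have hk0 : (0 : ℝ) < k := by exact_mod_cast hk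
  have hN0 : (0 : ℝ) < N := by exact_mod_cast hN
  set S : Finset (Σ _ : ℕ, ℕ) := (k.divisors.filter (fun r => r ≤ R)).sigma
    (fun r => (range r).filter (fun a => a.Coprime r)) with hS
  have hmem : ∀ t ∈ S, t.1 ∣ k ∧ t.1 ≤ R ∧ t.2 < t.1 ∧ t.2.Coprime t.1 := by
    intro t ht
    rw [hS, mem_sigma, mem_filter, mem_filter, mem_range, Nat.mem_divisors] at ht
    exact ⟨ht.1.1.1, ht.1.2, ht.2.1, ht.2.2⟩
  have hinj : Set.InjOn (fun t : Σ _ : ℕ, ℕ => t.2 * (k / t.1)) (S : Set (Σ _ : ℕ, ℕ)) := by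
    rintro ⟨r, a⟩ ht ⟨r', a'⟩ ht' h
    obtain ⟨⟨m, hm⟩, _, h3, h4⟩ := hmem _ (mem_coe.1 ht)
    obtain ⟨⟨m', hm'⟩, _, h3', h4'⟩ := hmem _ (mem_coe.1 ht')
    simp only at hm hm' h3 h4 h3' h4' h
    have e1 : k / r = m := by rw [hm, Nat.mul_div_cancel_left m (by omega)]
    have e2 : k / r' = m' := by rw [hm', Nat.mul_div_cancel_left m' (by omega)]
    rw [e1, e2] at h
    have hmpos : 0 < m := Nat.pos_of_ne_zero fun hh => by rw [hh, mul_zero] at hm; omega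
    have h5 : a * r' = a' * r := by
      have h6 : (a * r') * k = (a' * r) * k := by
        calc (a * r') * k = (a * m) * (r * r') := by rw [hm]; ring
          _ = (a' * m') * (r * r') := by rw [h]
          _ = (a' * r) * (r' * m') := by ring
          _ = (a' * r) * k := by rw [← hm']
      exact Nat.eq_of_mul_eq_mul_right hk h6
    have d1 : r ∣ r' := h4.symm.dvd_of_dvd_mul_left (by rw [h5]; exact dvd_mul_left r a')
    have d2 : r' ∣ r := h4'.symm.dvd_of_dvd_mul_left (by rw [← h5]; exact dvd_mul_left r' a)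
    have hrr := Nat.dvd_antisymm d1 d2
    subst hrr
    have h6 : a = a' := Nat.eq_of_mul_eq_mul_right (by omega) h5
    subst h6
    rfl
  have hval : ∀ t ∈ S, ((t.2 * (k / t.1) : ℕ) : ℝ) / k = (t.2 : ℝ) / t.1 := by
    intro t ht
    obtain ⟨⟨m, hm⟩, _, h3, h4⟩ := hmem t ht
    have e1 : k / t.1 = m := by rw [hm, Nat.mul_div_cancel_left m (by omega)]
    have hmpos : 0 < m := Nat.pos_of_ne_zero fun hh => by rw [hh, mul_zero] at hm; omega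
    have hm0 : (m : ℝ) ≠ 0 := by exact_mod_cast hmpos.ne'
    have ht0 : (t.1 : ℝ) ≠ 0 := by
      have : t.1 ≠ 0 := by omega
      exact_mod_cast this
    rw [e1]
    have hkm : (k : ℝ) = t.1 * m := by exact_mod_cast hm
    rw [hkm]
    push_cast
    field_simp
  have h1 : ∑ r ∈ k.divisors.filter (fun r => r ≤ R), GG X v r =
      ∑ j ∈ S.image (fun t => t.2 * (k / t.1)), ‖SX X v ((j : ℝ) / k)‖ ^ 2 := by
    rw [sum_image hinj]
    unfold GG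
    rw [sum_sigma']
    refine sum_congr rfl fun t ht => ?_
    rw [hval t ht]
  have hdisj : Disjoint (S.image (fun t => t.2 * (k / t.1))) (GF n N R k) := by
    rw [Finset.disjoint_left]
    intro j hj hG
    rw [mem_image] at hj
    obtain ⟨t, ht, rfl⟩ := hj
    unfold GF at hG
    rw [mem_filter] at hG
    obtain ⟨hd, hR, h3, h4⟩ := hmem t ht
    have hg := hG.2 t.1 (by omega) hR t.2
    set j := t.2 * (k / t.1) with hjdef
    set c := j * N / k with hc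
    have ht0 : (0 : ℝ) < t.1 := by
      have : 0 < t.1 := by omega
      exact_mod_cast this
    have c1 : (c : ℝ) * k ≤ j * N := by
      have : c * k ≤ j * N := Nat.div_mul_le_self _ _
      exact_mod_cast this
    have c2 : (j : ℝ) * N ≤ (c + 1) * k := by
      have : j * N < (c + 1) * k := by
        have := Nat.lt_mul_div_succ (j * N) hk
        rw [mul_comm k] at this
        exact this
      exact_mod_cast this.le
    have hv := hval t ht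
    have hjk : (j : ℝ) = (t.2 : ℝ) / t.1 * k := by
      rw [← hv, div_mul_cancel₀ _ hk0.ne']
    have c3 : (c : ℝ) / N ≤ (t.2 : ℝ) / t.1 := by
      rw [div_le_iff₀ hN0]
      rw [hjk] at c1
      have : (c : ℝ) * k ≤ ((t.2 : ℝ) / t.1 * N) * k := by linarith
      exact le_of_mul_le_mul_right this hk0
    have c4 : (t.2 : ℝ) / t.1 ≤ (c : ℝ) / N + 1 / N := by
      rw [← add_div, le_div_iff₀ hN0]
      rw [hjk] at c2
      have : ((t.2 : ℝ) / t.1 * N) * k ≤ ((c : ℝ) + 1) * k := by linarith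
      exact le_of_mul_le_mul_right this hk0
    have c5 : |(t.1 : ℝ) * ((c : ℝ) / N) - ((t.2 : ℕ) : ℤ)| ≤ t.1 * (1 / N) := by
      have e1 : (t.1 : ℝ) * ((c : ℝ) / N) - ((t.2 : ℕ) : ℤ) = t.1 * ((c : ℝ) / N - (t.2 : ℝ) / t.1) := by
        push_cast
        field_simp
      rw [e1, abs_mul, abs_of_pos ht0]
      refine mul_le_mul_of_nonneg_left ?_ ht0.le
      rw [abs_le]
      constructor <;> linarith
    have c6 : (t.1 : ℝ) * (1 / N) ≤ 1 / ((n : ℝ) + 1) := by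
      have h5 : (R : ℝ) * (n + 1) ≤ N := by exact_mod_cast hRN
      have h6 : (t.1 : ℝ) ≤ R := by exact_mod_cast hR
      rw [mul_one_div, div_le_div_iff₀ hN0 (by positivity), one_mul]
      exact (mul_le_mul_of_nonneg_right h6 (by positivity)).trans h5
    exact absurd hg (not_lt.2 (c5.trans c6))
  rw [h1, ← sum_union hdisj]
  refine sum_le_sum_of_subset_of_nonneg ?_ fun _ _ _ => by positivity
  intro j hj
  rw [mem_union] at hj
  rcases hj with hj | hj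
  · rw [mem_image] at hj
    obtain ⟨t, ht, rfl⟩ := hj
    obtain ⟨⟨m, hm⟩, _, h3, h4⟩ := hmem t ht
    have e1 : k / t.1 = m := by rw [hm, Nat.mul_div_cancel_left m (by omega)]
    have hmpos : 0 < m := Nat.pos_of_ne_zero fun hh => by rw [hh, mul_zero] at hm; omega
    rw [mem_range, e1]
    calc t.2 * m < t.1 * m := Nat.mul_lt_mul_of_pos_right h3 hmpos
      _ = k := hm.symm
  · unfold GF at hj
    rw [mem_filter] at hj
    exact hj.1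

theorem QQ_one (X : ℕ) (v : ℕ → ℂ) : QQ X v 1 = ‖∑ n ∈ Icc 1 X, v n‖ ^ 2 := by
  unfold QQ
  have h1 : ∑ m ∈ Icc 1 X, ∑ n ∈ Icc 1 X, v m * (starRingEnd ℂ) (v n) * kk 1 ((m : ℤ) - n) =
      (∑ m ∈ Icc 1 X, v m) * (starRingEnd ℂ) (∑ n ∈ Icc 1 X, v n) := by
    rw [map_sum, sum_mul_sum]
    refine sum_congr rfl fun m _ => sum_congr rfl fun n _ => ?_
    rw [kk_one, mul_one]
  rw [h1, Complex.mul_conj, Complex.ofReal_re, Complex.normSq_eq_norm_sq]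

theorem GG_ge (Q X : ℕ) (b : ℕ → ℤ) (v : ℕ → ℂ)
    (hv : ∀ n ∈ Icc 1 X, v n ≠ 0 → ∀ p : ℕ, p.Prime → p ≤ Q → ¬ (p : ℤ) ∣ (n : ℤ) - b p)
    (r : ℕ) (hr : 1 ≤ r) (hrQ : r ≤ Q) : hs 1 r * ‖∑ n ∈ Icc 1 X, v n‖ ^ 2 ≤ GG X v r := by
  rw [GG_eq X v r hr]
  have h1 : QQ X v 1 * hs 1 (r / 1) ≤ ∑ s ∈ r.divisors, QQ X v s * hs s (r / s) := by
    refine single_le_sum (f := fun s => QQ X v s * hs s (r / s)) (fun s hs1 => ?_)
      (Nat.mem_divisors.2 ⟨one_dvd r, by omega⟩)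
    rw [Nat.mem_divisors] at hs1
    refine mul_nonneg (QQ_nonneg X v b s ?_) (hs_nonneg _ _)
    intro n hn hn0 p hp
    have h1 := Nat.mem_primeFactors.1 hp
    refine hv n hn hn0 p h1.1 (le_trans (Nat.le_of_dvd (by omega) (h1.2.1.trans hs1.1)) hrQ)
  rw [Nat.div_one, QQ_one] at h1
  linarith

/-- one modulus -/
theorem D_ge (Q X Y n N R k : ℕ) (hk : 0 < k) (hN : 0 < N) (hRN : R * (n + 1) ≤ N) (hRQ : R ≤ Q)
    (b : ℕ → ℤ) (v : ℕ → ℂ)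
    (hv : ∀ n ∈ Icc 1 X, v n ≠ 0 → ∀ p : ℕ, p.Prime → p ≤ Q → ¬ (p : ℤ) ∣ (n : ℤ) - b p) :
    (1 / (k : ℝ)) * ∑ j ∈ GF n N R k, ‖SX X v ((j : ℝ) / k)‖ ^ 2 -
      ‖∑ n ∈ Icc 1 X, v n‖ ^ 2 * ((1 / (k : ℝ)) * ∑ r ∈ k.divisors.filter (fun r => R < r), hs 1 r) ≤
      ∑ a ∈ range k, ‖SC X Y k v a‖ ^ 2 - ‖∑ n ∈ Icc 1 X, v n‖ ^ 2 / (Nat.totient k : ℝ) := by
  have hk0 : (0 : ℝ) < k := by exact_mod_cast hk
  set S0 := ‖∑ n ∈ Icc 1 X, v n‖ ^ 2 with hS0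
  rw [var_parseval X Y k hk v]
  have h1 := split_fractions X n N R k hk hN hRN v
  have h2 : S0 * ∑ r ∈ k.divisors.filter (fun r => r ≤ R), hs 1 r ≤
      ∑ r ∈ k.divisors.filter (fun r => r ≤ R), GG X v r := by
    rw [mul_sum]
    refine sum_le_sum fun r hr => ?_
    rw [mem_filter, Nat.mem_divisors] at hr
    have := GG_ge Q X b v hv r (Nat.pos_of_dvd_of_pos hr.1.1 hk) (hr.2.trans hRQ)
    linarith
  have h3 := sum_hs_divisors k hk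
  rw [← sum_filter_add_sum_filter_not k.divisors (fun r => r ≤ R)] at h3
  have h4 : k.divisors.filter (fun r => ¬ r ≤ R) = k.divisors.filter (fun r => R < r) := by
    apply filter_congr
    intro r _
    exact not_le
  rw [h4] at h3
  have h5 : S0 / (Nat.totient k : ℝ) = (1 / (k : ℝ)) * (S0 * ((k : ℝ) / Nat.totient k)) := by
    field_simp
  rw [h5, ← h3]
  have h6 : (1 / (k : ℝ)) * (S0 * ∑ r ∈ k.divisors.filter (fun r => r ≤ R), hs 1 r +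
      ∑ j ∈ GF n N R k, ‖SX X v ((j : ℝ) / k)‖ ^ 2) ≤
      (1 / (k : ℝ)) * ∑ j ∈ range k, ‖SX X v ((j : ℝ) / k)‖ ^ 2 :=
    mul_le_mul_of_nonneg_left (by linarith) (by positivity)
  have h7 : (1 / (k : ℝ)) * (S0 * ∑ r ∈ k.divisors.filter (fun r => r ≤ R), hs 1 r +
      ∑ j ∈ GF n N R k, ‖SX X v ((j : ℝ) / k)‖ ^ 2) =
      (1 / (k : ℝ)) * ∑ j ∈ GF n N R k, ‖SX X v ((j : ℝ) / k)‖ ^ 2 +
      (1 / (k : ℝ)) * (S0 * ∑ r ∈ k.divisors.filter (fun r => r ≤ R), hs 1 r) := by ring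
  rw [h7] at h6
  have h8 : (1 / (k : ℝ)) * (S0 * (∑ r ∈ k.divisors.filter (fun r => r ≤ R), hs 1 r +
      ∑ r ∈ k.divisors.filter (fun r => R < r), hs 1 r)) =
      (1 / (k : ℝ)) * (S0 * ∑ r ∈ k.divisors.filter (fun r => r ≤ R), hs 1 r) +
      S0 * ((1 / (k : ℝ)) * ∑ r ∈ k.divisors.filter (fun r => R < r), hs 1 r) := by ring
  rw [h8]
  linarith

theorem S0_le (X : ℕ) (v : ℕ → ℂ) : ‖∑ n ∈ Icc 1 X, v n‖ ^ 2 ≤ X * ∑ n ∈ Icc 1 X, ‖v n‖ ^ 2 := by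
  calc ‖∑ n ∈ Icc 1 X, v n‖ ^ 2 ≤ (∑ n ∈ Icc 1 X, ‖v n‖) ^ 2 :=
        pow_le_pow_left₀ (norm_nonneg _) (norm_sum_le _ _) 2
    _ ≤ ((Icc 1 X).card : ℝ) * ∑ n ∈ Icc 1 X, ‖v n‖ ^ 2 := sq_sum_le_card_mul_sum_sq
    _ = X * ∑ n ∈ Icc 1 X, ‖v n‖ ^ 2 := by rw [Nat.card_Icc, Nat.add_sub_cancel]

/-- the sum over the moduli -/
theorem sum_D (Q M X Y K n N R G : ℕ) (hQ : 0 < Q) (hM : M = N * G) (hG : 0 < G) (hN : 0 < N)
    (hn : 0 < n) (hnK : n ≤ K) (hR : 0 < R) (hRN : R * (n + 1) ≤ N) (hRQ : R ≤ Q) (b : ℕ → ℤ) (v : ℕ → ℂ)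
    (hv : ∀ n ∈ Icc 1 X, v n ≠ 0 → ∀ p : ℕ, p.Prime → p ≤ Q → ¬ (p : ℤ) ∣ (n : ℤ) - b p)
    (lm T : ℝ) (hT : 1 ≤ T) (hlm : 0 ≤ lm)
    (hlam : ∀ s : ℕ, 1 ≤ s → s ≤ Q → ∀ w : ℝ, 0 < w → w * s * T ≤ Q → Ls s w ≤ lm * Ls s (w * T))
    (hdiv : ∀ r : ℕ, 1 ≤ r → r ≤ Q → r ∣ M) (hdivK : ∀ k : ℕ, K < k → k ≤ 2 * K → k ∣ M)
    (hXM : X ≤ M) (hRT : (R : ℝ) * T ≤ Q)
    (hTn : 2 * T * ((Q : ℝ) + 1) * (1 / ((n : ℝ) + 1) + (R : ℝ) / N) ≤ 1)
    (η : ℝ) (hη : 0 < η) (hη1 : η ≤ 1)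
    (B : ℝ) (hB : B = (1 - (n : ℝ) / K) / N - (2 / ((n : ℝ) + 1) + 1 / R) / K) (hB0 : 0 ≤ B) :
    ((K : ℝ) - n) * B * (N * ((1 - η) * (1 - lm) - (1 / η) * (2 * Real.pi * X / N) ^ 2)) *
        ∑ n ∈ Icc 1 X, ‖v n‖ ^ 2 -
      (X * ∑ n ∈ Icc 1 X, ‖v n‖ ^ 2) * ((1 + 2 * Real.log ((2 * K : ℕ) : ℝ)) *
        (1 / R + (1 + Real.log ((2 * K : ℕ) : ℝ)) / K)) ≤
      ∑ k ∈ Ioc K (2 * K), (∑ a ∈ range k, ‖SC X Y k v a‖ ^ 2 -
        ‖∑ n ∈ Icc 1 X, v n‖ ^ 2 / (Nat.totient k : ℝ)) := by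
  have h1 := good_part Q M X K n N R G hQ hM hG hN hn hnK hR b v hv lm T hT hlm hlam hdiv hdivK hXM hRT hTn
    η hη hη1 B hB hB0
  have h2 := tail_sum K R (by omega) hR
  have h3 : ∑ k ∈ Ioc K (2 * K), ((1 / (k : ℝ)) * ∑ j ∈ GF n N R k, ‖SX X v ((j : ℝ) / k)‖ ^ 2 -
      ‖∑ n ∈ Icc 1 X, v n‖ ^ 2 * ((1 / (k : ℝ)) * ∑ r ∈ k.divisors.filter (fun r => R < r), hs 1 r)) ≤
      ∑ k ∈ Ioc K (2 * K), (∑ a ∈ range k, ‖SC X Y k v a‖ ^ 2 -
        ‖∑ n ∈ Icc 1 X, v n‖ ^ 2 / (Nat.totient k : ℝ)) := by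
    refine sum_le_sum fun k hk => ?_
    rw [mem_Ioc] at hk
    exact D_ge Q X Y n N R k (by omega) hN hRN hRQ b v hv
  refine le_trans ?_ h3
  rw [sum_sub_distrib, ← mul_sum]
  have h4 : ‖∑ n ∈ Icc 1 X, v n‖ ^ 2 * ∑ k ∈ Ioc K (2 * K), (1 / (k : ℝ)) *
      ∑ r ∈ k.divisors.filter (fun r => R < r), hs 1 r ≤
      (X * ∑ n ∈ Icc 1 X, ‖v n‖ ^ 2) * ((1 + 2 * Real.log ((2 * K : ℕ) : ℝ)) *
        (1 / R + (1 + Real.log ((2 * K : ℕ) : ℝ)) / K)) := by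
    refine mul_le_mul (S0_le X v) h2 ?_ (by positivity)
    exact sum_nonneg fun k _ => mul_nonneg (by positivity) (sum_nonneg fun r _ => hs_nonneg 1 r)
  linarith

end Pool.Agent.H535.AW
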