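import Pool.Agent.H535.AW.PropA

set_option autoImplicit false

/-!
The arcs around the Farey fractions, on the grid of the multiples of `1/M`.
-/

open Finset

namespace Pool.Agent.H535.AW

open Pool.Agent.Helper112 Pool.Agent.W110.HV

theorem ee_int (k : ℤ) : ee (k : ℝ) = 1 := by
  unfold ee
  have h1 : (2 * (Real.pi : ℂ) * ((k : ℝ) : ℂ) * Complex.I) = (k : ℂ) * (2 * Real.pi * Complex.I) := by
    push_cast
    ring
  rw [h1, Complex.exp_int_mul_two_pi_mul_I]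

theorem SX_per (X : ℕ) (v : ℕ → ℂ) (α : ℝ) (k : ℤ) : SX X v (α + k) = SX X v α := by
  unfold SX
  refine sum_congr rfl fun n _ => ?_
  have h1 : ee (n * (α + k)) = ee (n * α) := by
    have : (n : ℝ) * (α + k) = n * α + ((n * k : ℤ) : ℝ) := by push_cast; ring
    rw [this, ls_ee_add, ee_int, mul_one]
  rw [h1]

theorem parseval (X M : ℕ) (hXM : X ≤ M) (hM : 0 < M) (v : ℕ → ℂ) :
    ∑ x ∈ range M, ‖SX X v ((x : ℝ) / M)‖ ^ 2 = M * ∑ n ∈ Icc 1 X, ‖v n‖ ^ 2 := by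
  have h1 : ((∑ x ∈ range M, ‖SX X v ((x : ℝ) / M)‖ ^ 2 : ℝ) : ℂ) =
      ((M * ∑ n ∈ Icc 1 X, ‖v n‖ ^ 2 : ℝ) : ℂ) := by
    rw [Complex.ofReal_sum, sum_congr rfl fun (x : ℕ) _ => norm_sq_SX X v ((x : ℝ) / M), sum_comm]
    rw [Complex.ofReal_mul, Complex.ofReal_sum, mul_sum]
    refine sum_congr rfl fun m hm => ?_
    rw [sum_comm]
    have h2 : ∀ n ∈ Icc 1 X, ∑ x ∈ range M, v m * (starRingEnd ℂ) (v n) *
        ee (((m : ℤ) - n : ℤ) * ((x : ℝ) / M)) = if n = m then (M : ℂ) * (v m * (starRingEnd ℂ) (v n)) else 0 := by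
      intro n hn
      rw [← mul_sum, orth M hM]
      rw [mem_Icc] at hm hn
      split_ifs with h3 h4 h4
      · ring
      · exfalso
        apply h4
        have h5 : |(m : ℤ) - n| < M := by
          rw [abs_lt]
          constructor <;> omega
        have h6 := Int.eq_zero_of_abs_lt_dvd h3 h5
        omega
      · exfalso
        apply h3
        rw [h4, sub_self]
        exact dvd_zero _
      · rw [mul_zero]
    rw [sum_congr rfl h2, sum_ite_eq' (Icc 1 X) m, if_pos hm, Complex.mul_conj, Complex.normSq_eq_norm_sq]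
    push_cast
    ring
  exact_mod_cast h1

/-- the point of the grid -/
def gp (M : ℕ) (i : ℤ) (r a : ℕ) : ℕ := ((((a * (M / r) : ℕ) : ℤ) + i) % (M : ℤ)).toNat

theorem gp_lt (M : ℕ) (hM : 0 < M) (i : ℤ) (r a : ℕ) : gp M i r a < M := by
  unfold gp
  have h1 := Int.emod_lt_of_pos (((a * (M / r) : ℕ) : ℤ) + i) (by exact_mod_cast hM : (0 : ℤ) < M)
  have h2 := Int.emod_nonneg (((a * (M / r) : ℕ) : ℤ) + i) (by exact_mod_cast hM.ne' : (M : ℤ) ≠ 0)
  omega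

theorem gp_val (X M : ℕ) (hM : 0 < M) (v : ℕ → ℂ) (i : ℤ) (r a : ℕ) (hr : 0 < r) (hrM : r ∣ M) :
    SX X v ((gp M i r a : ℝ) / M) = SX X v ((a : ℝ) / r + (i : ℝ) / M) := by
  have hM0 : (M : ℝ) ≠ 0 := by exact_mod_cast hM.ne'
  have hr0 : (r : ℝ) ≠ 0 := by exact_mod_cast hr.ne'
  obtain ⟨m, rfl⟩ := hrM
  have e0 : r * m / r = m := Nat.mul_div_cancel_left m hr
  set y : ℤ := ((a * ((r * m) / r) : ℕ) : ℤ) + i with hy
  have h1 : ((gp (r * m) i r a : ℕ) : ℤ) = y % ((r * m : ℕ) : ℤ) := by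
    unfold gp
    exact Int.toNat_of_nonneg (Int.emod_nonneg _ (by exact_mod_cast hM.ne'))
  have h2 : y % ((r * m : ℕ) : ℤ) + ((r * m : ℕ) : ℤ) * (y / ((r * m : ℕ) : ℤ)) = y := Int.emod_add_mul_ediv _ _
  have h3 : ((gp (r * m) i r a : ℕ) : ℝ) = (y : ℝ) - ((r * m : ℕ) : ℝ) * ((y / ((r * m : ℕ) : ℤ) : ℤ) : ℝ) := by
    have h4 : ((gp (r * m) i r a : ℕ) : ℤ) = y - ((r * m : ℕ) : ℤ) * (y / ((r * m : ℕ) : ℤ)) := by
      rw [h1]
      linarith
    have h5 : (((gp (r * m) i r a : ℕ) : ℤ) : ℝ) = ((y - ((r * m : ℕ) : ℤ) * (y / ((r * m : ℕ) : ℤ)) : ℤ) : ℝ) := by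
      rw [h4]
    push_cast at h5 ⊢
    exact h5
  have h6 : (y : ℝ) = (a : ℝ) * m + i := by
    rw [hy, e0]
    push_cast
    ring
  have h7 : ((gp (r * m) i r a : ℕ) : ℝ) / ((r * m : ℕ) : ℝ) =
      ((a : ℝ) / r + (i : ℝ) / ((r * m : ℕ) : ℝ)) + ((-(y / ((r * m : ℕ) : ℤ)) : ℤ) : ℝ) := by
    have hm0 : (m : ℝ) ≠ 0 := by
      intro h
      apply hM0
      push_cast
      rw [h, mul_zero]
    rw [h3, h6]
    push_cast
    field_simp
    ring
  rw [h7, SX_per]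

/-- the arcs are disjoint -/
theorem gp_inj (Q M : ℕ) (hM : 0 < M) (i i' : ℤ) (r r' a a' : ℕ) (hr : 1 ≤ r) (hr' : 1 ≤ r') (hrQ : r ≤ Q)
    (hrQ' : r' ≤ Q) (hrM : r ∣ M) (hrM' : r' ∣ M) (ha : a < r) (ha' : a' < r') (hc : a.Coprime r)
    (hc' : a'.Coprime r') (hi : 2 * (r : ℤ) * (Q + 1) * |i| ≤ M) (hi' : 2 * (r' : ℤ) * (Q + 1) * |i'| ≤ M)
    (h : gp M i r a = gp M i' r' a') : i = i' ∧ r = r' ∧ a = a' := by
  have hMZ : (0 : ℤ) < M := by exact_mod_cast hM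
  unfold gp at h
  have h1 : ((((a * (M / r) : ℕ) : ℤ) + i) % (M : ℤ)) = ((((a' * (M / r') : ℕ) : ℤ) + i') % (M : ℤ)) := by
    have n1 := Int.emod_nonneg (((a * (M / r) : ℕ) : ℤ) + i) hMZ.ne'
    have n2 := Int.emod_nonneg (((a' * (M / r') : ℕ) : ℤ) + i') hMZ.ne'
    omega
  have h2 : (M : ℤ) ∣ (((a' * (M / r') : ℕ) : ℤ) + i') - (((a * (M / r) : ℕ) : ℤ) + i) :=
    Int.ModEq.dvd h1
  obtain ⟨z, hz⟩ := h2
  obtain ⟨m, hm⟩ := hrM
  obtain ⟨m', hm'⟩ := hrM'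
  have e1 : M / r = m := by rw [hm, Nat.mul_div_cancel_left m (by omega)]
  have e2 : M / r' = m' := by rw [hm', Nat.mul_div_cancel_left m' (by omega)]
  rw [e1, e2] at hz
  push_cast at hz
  have hmZ : (M : ℤ) = r * m := by exact_mod_cast hm
  have hmZ' : (M : ℤ) = r' * m' := by exact_mod_cast hm'
  have hrZ : (1 : ℤ) ≤ r := by exact_mod_cast hr
  have hrZ' : (1 : ℤ) ≤ r' := by exact_mod_cast hr'
  have hrQZ : (r : ℤ) ≤ Q := by exact_mod_cast hrQ
  have hrQZ' : (r' : ℤ) ≤ Q := by exact_mod_cast hrQ'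
  set D : ℤ := a' * r - a * r' - z * r * r' with hD
  have hkey : D * M = (i - i') * (r * r') := by
    have s1 : (a' : ℤ) * r * M = a' * m' * (r * r') := by rw [hmZ']; ring
    have s2 : (a : ℤ) * r' * M = a * m * (r * r') := by rw [hmZ]; ring
    have s3 : ((a' : ℤ) * m' + i' - (a * m + i)) * (r * r') = (M * z) * (r * r') := by rw [hz]
    calc D * M = a' * r * M - a * r' * M - z * r * r' * M := by rw [hD]; ring
      _ = (i - i') * (r * r') := by rw [s1, s2]; linarith only [s3]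
  have hb : (|i| + |i'|) * (r * r') * (Q + 1) ≤ M * Q := by
    have t1 : 2 * (r : ℤ) * (Q + 1) * |i| * r' ≤ M * Q :=
      mul_le_mul hi hrQZ' (by linarith) hMZ.le
    have t2 : 2 * (r' : ℤ) * (Q + 1) * |i'| * r ≤ M * Q :=
      mul_le_mul hi' hrQZ (by linarith) hMZ.le
    have t3 : 2 * (r : ℤ) * (Q + 1) * |i| * r' + 2 * (r' : ℤ) * (Q + 1) * |i'| * r =
        2 * ((|i| + |i'|) * (r * r') * (Q + 1)) := by ring
    linarith only [t1, t2, t3]
  have hD0 : D = 0 := by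
    by_contra hne
    have hD1 : 1 ≤ |D| := Int.one_le_abs hne
    have s1 : |D| * M = |i - i'| * (r * r') := by
      have := congrArg abs hkey
      rwa [abs_mul, abs_mul, abs_of_pos hMZ, abs_of_nonneg (by positivity : (0 : ℤ) ≤ r * r')] at this
    have s2 : |i - i'| ≤ |i| + |i'| := abs_sub _ _
    have s3 : (M : ℤ) * (Q + 1) ≤ M * Q := by
      calc (M : ℤ) * (Q + 1) = 1 * M * (Q + 1) := by ring
        _ ≤ |D| * M * (Q + 1) :=
            mul_le_mul_of_nonneg_right (mul_le_mul_of_nonneg_right hD1 hMZ.le) (by positivity)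
        _ = |i - i'| * (r * r') * (Q + 1) := by rw [s1]
        _ ≤ (|i| + |i'|) * (r * r') * (Q + 1) := by
            refine mul_le_mul_of_nonneg_right (mul_le_mul_of_nonneg_right s2 (by positivity)) (by positivity)
        _ ≤ M * Q := hb
    have s4 : (M : ℤ) * (Q + 1) = M * Q + M := by ring
    linarith only [s3, s4, hMZ]
  have hii : i = i' := by
    rw [hD0, zero_mul] at hkey
    have h3 : (r : ℤ) * r' ≠ 0 := by positivity
    have h4 := (mul_eq_zero.1 hkey.symm).resolve_right h3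
    linarith
  have hd1 : r' ∣ r := by
    have h3 : (r' : ℤ) ∣ a' * r := ⟨a + z * r, by rw [hD0] at hD; linarith⟩
    have h4 : r' ∣ a' * r := by exact_mod_cast h3
    exact hc'.symm.dvd_of_dvd_mul_left h4
  have hd2 : r ∣ r' := by
    have h3 : (r : ℤ) ∣ a * r' := ⟨a' - z * r', by rw [hD0] at hD; linarith⟩
    have h4 : r ∣ a * r' := by exact_mod_cast h3
    exact hc.symm.dvd_of_dvd_mul_left h4
  have hrr : r = r' := Nat.dvd_antisymm hd2 hd1
  refine ⟨hii, hrr, ?_⟩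
  subst hrr
  have h5 : (a' : ℤ) - a = z * r := by
    have h6 : ((a' : ℤ) - a - z * r) * r = 0 := by rw [hD0] at hD; linarith
    have h7 := (mul_eq_zero.1 h6).resolve_right (by linarith)
    linarith
  have h8 : |(a' : ℤ) - a| < r := by
    rw [abs_lt]
    constructor <;> omega
  have h9 := Int.eq_zero_of_abs_lt_dvd ⟨z, by rw [h5]; ring⟩ h8
  omega

end Pool.Agent.H535.AW
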