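import Mathlib

set_option autoImplicit false

/-!
Fractions with denominators in `(K, 2K]` in short intervals.
-/

open Finset

namespace Pool.Agent.H535.AW

theorem card_Ico_ceil (A B : ℝ) : B - A - 1 ≤ ((Ico ⌈A⌉ ⌈B⌉).card : ℝ) := by
  rw [Int.card_Ico]
  have h1 : ((⌈B⌉ - ⌈A⌉ : ℤ) : ℝ) ≤ (((⌈B⌉ - ⌈A⌉).toNat : ℤ) : ℝ) := by
    exact_mod_cast Int.self_le_toNat _
  have h2 := Int.le_ceil B
  have h3 := Int.ceil_lt_add_one A
  push_cast at h1
  linarith

theorem mem_Ico_ceil (A B : ℝ) (j : ℤ) : j ∈ Ico ⌈A⌉ ⌈B⌉ ↔ A ≤ j ∧ (j : ℝ) < B := by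
  rw [mem_Ico, Int.ceil_le, Int.lt_ceil]

/-- one block of `r` consecutive denominators -/
theorem block (x : ℝ) (r : ℕ) (hr : 0 < r) (a : ℤ) (ha : IsCoprime a (r : ℤ)) (d w : ℝ)
    (hd : |r * x - a| ≤ d) (y : ℝ) :
    r * (w - 2 * d) - 1 ≤ ∑ i ∈ range r, ((Ico ⌈y + i * x⌉ ⌈y + i * x + w⌉).card : ℝ) := by
  have hr0 : (0 : ℝ) < r := by exact_mod_cast hr
  have hrZ : (0 : ℤ) < r := by exact_mod_cast hr
  have hex : ∀ N : ℤ, ∃ i : ℕ, ∃ j : ℤ, i < r ∧ (r : ℤ) * j - i * a = N := by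
    intro N
    obtain ⟨u, z, huz⟩ := ha
    have h1 := Int.emod_nonneg (-(N * u)) hrZ.ne'
    have h2 := Int.emod_lt_of_pos (-(N * u)) hrZ
    refine ⟨((-(N * u)) % (r : ℤ)).toNat, ?_⟩
    have h3 : ((((-(N * u)) % (r : ℤ)).toNat : ℕ) : ℤ) = (-(N * u)) % (r : ℤ) := Int.toNat_of_nonneg h1
    have h4 := Int.emod_add_mul_ediv (-(N * u)) (r : ℤ)
    refine ⟨N * z - ((-(N * u)) / (r : ℤ)) * a, by omega, ?_⟩
    rw [h3]
    have h5 : (-(N * u)) % (r : ℤ) = -(N * u) - r * ((-(N * u)) / (r : ℤ)) := by linarith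
    rw [h5]
    linear_combination N * huz
  choose fi fj hfi hfj using hex
  have hd0 : 0 ≤ d := (abs_nonneg _).trans hd
  have key : (Ico ⌈(r : ℝ) * (y + d)⌉ ⌈(r : ℝ) * (y + w - d)⌉).card ≤
      ((range r).sigma fun i => Ico ⌈y + i * x⌉ ⌈y + i * x + w⌉).card := by
    apply card_le_card_of_injOn (fun N => (⟨fi N, fj N⟩ : Σ _ : ℕ, ℤ))
    · intro N hN
      rw [mem_coe, mem_Ico_ceil] at hN
      rw [mem_coe, mem_sigma, mem_range, mem_Ico_ceil]
      refine ⟨hfi N, ?_⟩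
      simp only
      have h1 : (r : ℝ) * (fj N : ℝ) - (fi N : ℝ) * a = N := by exact_mod_cast hfj N
      have h2 : (fi N : ℝ) ≤ r := by exact_mod_cast (hfi N).le
      have h3 : (0 : ℝ) ≤ fi N := Nat.cast_nonneg _
      have h4 : |(fi N : ℝ) * (r * x - a)| ≤ r * d := by
        rw [abs_mul, abs_of_nonneg h3]
        exact mul_le_mul h2 hd (abs_nonneg _) hr0.le
      rw [abs_le] at h4
      have h5 : (r : ℝ) * (fj N) - r * (y + fi N * x) = N - r * y - fi N * (r * x - a) := by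
        linear_combination h1
      have h6 : (r : ℝ) * (y + d) = r * y + r * d := by ring
      have h7 : (r : ℝ) * (y + w - d) = r * y + r * w - r * d := by ring
      constructor
      · have : (r : ℝ) * (y + fi N * x) ≤ r * (fj N) := by linarith [hN.1, h4.2]
        exact le_of_mul_le_mul_left this hr0
      · have : (r : ℝ) * (fj N) < r * (y + fi N * x + w) := by
          have h8 : (r : ℝ) * (y + fi N * x + w) = r * (y + fi N * x) + r * w := by ring
          linarith [hN.2, h4.1]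
        exact lt_of_mul_lt_mul_left this hr0.le
    · intro N _ N' _ h
      simp only [Sigma.mk.injEq, heq_eq_eq] at h
      rw [← hfj N, ← hfj N', h.1, h.2]
  rw [card_sigma] at key
  have h1 := card_Ico_ceil ((r : ℝ) * (y + d)) ((r : ℝ) * (y + w - d))
  have h2 : ((Ico ⌈(r : ℝ) * (y + d)⌉ ⌈(r : ℝ) * (y + w - d)⌉).card : ℝ) ≤
      ∑ i ∈ range r, ((Ico ⌈y + i * x⌉ ⌈y + i * x + w⌉).card : ℝ) := by exact_mod_cast key
  have h3 : (r : ℝ) * (y + w - d) - r * (y + d) - 1 = r * (w - 2 * d) - 1 := by ring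
  linarith

theorem sum_blocks (m r : ℕ) (f : ℕ → ℝ) :
    ∑ k ∈ range (m * r), f k = ∑ l ∈ range m, ∑ i ∈ range r, f (l * r + i) := by
  induction m with
  | zero => simp
  | succ m ih => rw [Nat.succ_mul, sum_range_add, ih, sum_range_succ]

/-- the number of fractions in a short interval away from the fractions with small denominators -/
theorem count (x : ℝ) (K n N R : ℕ) (hn : 0 < n) (hnK : n ≤ K) (hN : 0 < N) (hR : 0 < R)
    (hgood : ∀ r : ℕ, 1 ≤ r → r ≤ R → ∀ a : ℤ, 1 / ((n : ℝ) + 1) < |r * x - a|)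
    (B : ℝ) (hB : B = (1 - (n : ℝ) / K) / N - (2 / ((n : ℝ) + 1) + 1 / R) / K) (hB0 : 0 ≤ B) :
    ((K : ℝ) - n) * B ≤
      ∑ k ∈ Ioc K (2 * K), (1 / (k : ℝ)) * ((Ico ⌈(k : ℝ) * x⌉ ⌈(k : ℝ) * x + k / N⌉).card : ℝ) := by
  obtain ⟨q, hq1, hq2⟩ := Real.exists_rat_abs_sub_le_and_den_le x hn
  set r := q.den with hr
  have hr0 : 0 < r := q.den_pos
  have hr0' : (0 : ℝ) < r := by exact_mod_cast hr0
  have hK0 : 0 < K := by omega
  have hK0' : (0 : ℝ) < K := by exact_mod_cast hK0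
  have hN0 : (0 : ℝ) < N := by exact_mod_cast hN
  have hR0 : (0 : ℝ) < R := by exact_mod_cast hR
  have hn0 : (0 : ℝ) < n := by exact_mod_cast hn
  have hqd : (q : ℝ) = (q.num : ℝ) / r := by
    rw [hr]
    exact_mod_cast (Rat.num_div_den q).symm
  have hd : |r * x - q.num| ≤ 1 / ((n : ℝ) + 1) := by
    have e1 : (r : ℝ) * x - q.num = r * (x - q) := by
      rw [hqd]
      field_simp
    rw [e1, abs_mul, abs_of_pos hr0']
    calc (r : ℝ) * |x - q| ≤ r * (1 / (((n : ℝ) + 1) * r)) := mul_le_mul_of_nonneg_left hq1 hr0'.le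
      _ = 1 / ((n : ℝ) + 1) := by field_simp
  have hrR : R < r := by
    by_contra hcon
    push Not at hcon
    have := hgood r hr0 hcon q.num
    linarith
  have hcop : IsCoprime q.num (r : ℤ) := by
    rw [Int.isCoprime_iff_gcd_eq_one, Int.gcd, Int.natAbs_natCast]
    exact q.reduced
  set m := K / r with hm
  have hmr : m * r ≤ K := Nat.div_mul_le_self K r
  have hmr2 : K < (m + 1) * r := by
    have := Nat.lt_mul_div_succ K hr0
    rw [mul_comm] at this
    exact this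
  -- restrict to full blocks
  set f : ℕ → ℝ := fun k => (1 / (k : ℝ)) * ((Ico ⌈(k : ℝ) * x⌉ ⌈(k : ℝ) * x + k / N⌉).card : ℝ) with hf
  have hf0 : ∀ k, 0 ≤ f k := fun k => by rw [hf]; positivity
  have h1 : ∑ k ∈ range (m * r), f (K + 1 + k) ≤ ∑ k ∈ Ioc K (2 * K), f k := by
    have e1 : ∑ k ∈ range (m * r), f (K + 1 + k) =
        ∑ k ∈ (range (m * r)).image (fun k => K + 1 + k), f k := by
      rw [sum_image]
      intro a _ b _ h
      simp only at h
      omega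
    rw [e1]
    refine sum_le_sum_of_subset_of_nonneg ?_ fun k _ _ => hf0 k
    intro k hk
    rw [mem_image] at hk
    obtain ⟨a, ha, rfl⟩ := hk
    rw [mem_range] at ha
    rw [mem_Ioc]
    omega
  rw [sum_blocks] at h1
  have h2 : ∀ l ∈ range m, r * B ≤ ∑ i ∈ range r, f (K + 1 + (l * r + i)) := by
    intro l hl
    rw [mem_range] at hl
    set k0 : ℕ := K + 1 + l * r with hk0
    have hk0K : (K : ℝ) ≤ k0 := by
      have : K ≤ k0 := by omega
      exact_mod_cast this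
    have hk0pos : (0 : ℝ) < k0 := by linarith
    set L : ℝ := (k0 : ℝ) + r with hL
    have hL0 : 0 < L := by linarith
    have hb := block x r hr0 q.num hcop (1 / ((n : ℝ) + 1)) ((k0 : ℝ) / N) hd ((k0 : ℝ) * x)
    have h3 : ∑ i ∈ range r, (1 / L) * ((Ico ⌈(k0 : ℝ) * x + i * x⌉ ⌈(k0 : ℝ) * x + i * x + (k0 : ℝ) / N⌉).card : ℝ) ≤
        ∑ i ∈ range r, f (K + 1 + (l * r + i)) := by
      refine sum_le_sum fun i hi => ?_
      rw [mem_range] at hi
      rw [hf]
      simp only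
      have e1 : ((K + 1 + (l * r + i) : ℕ) : ℝ) = (k0 : ℝ) + i := by
        rw [hk0]
        push_cast
        ring
      rw [e1]
      have hi0 : (0 : ℝ) ≤ i := Nat.cast_nonneg _
      have hir : (i : ℝ) ≤ r := by exact_mod_cast hi.le
      refine mul_le_mul ?_ ?_ (by positivity) (by positivity)
      · exact one_div_le_one_div_of_le (by linarith) (by linarith)
      · have e2 : ((k0 : ℝ) + i) * x = (k0 : ℝ) * x + i * x := by ring
        rw [e2]
        have h4 : Ico ⌈(k0 : ℝ) * x + i * x⌉ ⌈(k0 : ℝ) * x + i * x + (k0 : ℝ) / N⌉ ⊆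
            Ico ⌈(k0 : ℝ) * x + i * x⌉ ⌈(k0 : ℝ) * x + i * x + ((k0 : ℝ) + i) / N⌉ := by
          apply Ico_subset_Ico_right
          apply Int.ceil_mono
          have : (k0 : ℝ) / N ≤ ((k0 : ℝ) + i) / N := div_le_div_of_nonneg_right (by linarith) hN0.le
          linarith
        exact_mod_cast card_le_card h4
    rw [← mul_sum] at h3
    refine le_trans ?_ h3
    have h5 : (1 / L) * (r * ((k0 : ℝ) / N - 2 * (1 / ((n : ℝ) + 1))) - 1) ≤
        (1 / L) * ∑ i ∈ range r, ((Ico ⌈(k0 : ℝ) * x + i * x⌉ ⌈(k0 : ℝ) * x + i * x + (k0 : ℝ) / N⌉).card : ℝ) :=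
      mul_le_mul_of_nonneg_left hb (by positivity)
    refine le_trans ?_ h5
    -- numerical inequality
    have hrn : (r : ℝ) ≤ n := by exact_mod_cast hq2
    have h6 : 1 - (n : ℝ) / K ≤ (k0 : ℝ) / L := by
      rw [sub_le_iff_le_add, ← sub_le_iff_le_add']
      have : 1 - (k0 : ℝ) / L = r / L := by
        rw [hL]
        field_simp
        ring
      rw [this]
      exact div_le_div₀ hn0.le hrn hK0' (by linarith)
    have h7 : (1 / L) ≤ 1 / K := one_div_le_one_div_of_le hK0' (by linarith)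
    have h8 : (1 : ℝ) / r ≤ 1 / R := one_div_le_one_div_of_le hR0 (by exact_mod_cast hrR.le)
    have e3 : (1 / L) * (r * ((k0 : ℝ) / N - 2 * (1 / ((n : ℝ) + 1))) - 1) =
        r * (((k0 : ℝ) / L) / N - (2 / ((n : ℝ) + 1) + 1 / r) * (1 / L)) := by
      field_simp
      ring
    rw [e3]
    refine mul_le_mul_of_nonneg_left ?_ hr0'.le
    rw [hB]
    have h9 : (1 - (n : ℝ) / K) / N ≤ ((k0 : ℝ) / L) / N := div_le_div_of_nonneg_right h6 hN0.le
    have h10 : (2 / ((n : ℝ) + 1) + 1 / r) * (1 / L) ≤ (2 / ((n : ℝ) + 1) + 1 / R) / K := by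
      rw [div_eq_mul_one_div (2 / ((n : ℝ) + 1) + 1 / R) (K : ℝ)]
      exact mul_le_mul (by linarith) h7 (by positivity) (by positivity)
    linarith
  have h3 : (m : ℝ) * (r * B) ≤ ∑ l ∈ range m, ∑ i ∈ range r, f (K + 1 + (l * r + i)) := by
    have := sum_le_sum h2
    rwa [sum_const, card_range, nsmul_eq_mul] at this
  have h4 : (K : ℝ) - n ≤ m * r := by
    have h5 : (K : ℝ) ≤ (m + 1) * r := by exact_mod_cast hmr2.le
    have h6 : (r : ℝ) ≤ n := by exact_mod_cast hq2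
    linarith
  calc ((K : ℝ) - n) * B ≤ (m * r) * B := mul_le_mul_of_nonneg_right h4 hB0
    _ = m * (r * B) := by ring
    _ ≤ _ := h3.trans h1

end Pool.Agent.H535.AW
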