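import Pool.Agent.H535.AW.Arc

set_option autoImplicit false

/-!
The values of the exponential sum in a cell of the grid.
-/

open Finset

namespace Pool.Agent.H535.AW

open Pool.Agent.Helper112 Pool.Agent.W110.HV

theorem norm_ee_sub_one (x : ℝ) : ‖ee x - 1‖ ≤ 2 * Real.pi * |x| := by
  unfold ee
  have h1 : (2 * (Real.pi : ℂ) * (x : ℂ) * Complex.I) = Complex.I * ((2 * Real.pi * x : ℝ) : ℂ) := by
    push_cast
    ring
  rw [h1]
  refine (Real.norm_exp_I_mul_ofReal_sub_one_le (x := 2 * Real.pi * x)).trans (le_of_eq ?_)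
  rw [Real.norm_eq_abs, abs_mul, abs_mul, abs_of_pos Real.pi_pos, abs_two]

/-- the differences along the grid -/
theorem diff_sum (X M : ℕ) (hXM : X ≤ M) (hM : 0 < M) (v : ℕ → ℂ) :
    ∑ x ∈ range M, ‖SX X v (((x + 1 : ℕ) : ℝ) / M) - SX X v ((x : ℝ) / M)‖ ^ 2 ≤
      M * (2 * Real.pi * X / M) ^ 2 * ∑ n ∈ Icc 1 X, ‖v n‖ ^ 2 := by
  have hM0 : (0 : ℝ) < M := by exact_mod_cast hM
  have h1 : ∀ x ∈ range M, ‖SX X v (((x + 1 : ℕ) : ℝ) / M) - SX X v ((x : ℝ) / M)‖ ^ 2 =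
      ‖SX X (fun n => v n * (ee (n * (1 / (M : ℝ))) - 1)) ((x : ℝ) / M)‖ ^ 2 := by
    intro x _
    congr 2
    unfold SX
    rw [← sum_sub_distrib]
    refine sum_congr rfl fun n _ => ?_
    have e1 : ee (n * (((x + 1 : ℕ) : ℝ) / M)) = ee (n * (1 / (M : ℝ))) * ee (n * ((x : ℝ) / M)) := by
      rw [← ls_ee_add]
      congr 1
      push_cast
      ring
    rw [e1]
    ring
  rw [sum_congr rfl h1, parseval X M hXM hM, mul_assoc]
  refine mul_le_mul_of_nonneg_left ?_ hM0.le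
  rw [mul_sum]
  refine sum_le_sum fun n hn => ?_
  rw [mem_Icc] at hn
  rw [norm_mul, mul_pow, mul_comm]
  refine mul_le_mul_of_nonneg_right ?_ (by positivity)
  refine pow_le_pow_left₀ (norm_nonneg _) ?_ 2
  refine (norm_ee_sub_one _).trans ?_
  have hn1 : (n : ℝ) ≤ X := by exact_mod_cast hn.2
  rw [abs_of_nonneg (by positivity), mul_one_div, mul_div_assoc']
  exact div_le_div_of_nonneg_right (mul_le_mul_of_nonneg_left hn1 (by positivity)) hM0.le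

theorem tele (f : ℕ → ℂ) (y x : ℕ) (h : y ≤ x) : f x - f y = ∑ t ∈ Ico y x, (f (t + 1) - f t) := by
  rw [sum_Ico_sub f h]

/-- the variation in a cell -/
theorem cell_var (f : ℕ → ℂ) (c G : ℕ) (y x : ℕ) (hy : y ∈ Ico (c * G) ((c + 1) * G))
    (hx : x ∈ Ico (c * G) ((c + 1) * G)) :
    ‖f x - f y‖ ^ 2 ≤ G * ∑ t ∈ Ico (c * G) ((c + 1) * G), ‖f (t + 1) - f t‖ ^ 2 := by
  have key : ∀ y x : ℕ, y ≤ x → y ∈ Ico (c * G) ((c + 1) * G) → x ∈ Ico (c * G) ((c + 1) * G) →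
      ‖f x - f y‖ ^ 2 ≤ G * ∑ t ∈ Ico (c * G) ((c + 1) * G), ‖f (t + 1) - f t‖ ^ 2 := by
    intro y x hyx hy hx
    rw [mem_Ico] at hx hy
    rw [tele f y x hyx]
    have h1 : ‖∑ t ∈ Ico y x, (f (t + 1) - f t)‖ ≤ ∑ t ∈ Ico y x, ‖f (t + 1) - f t‖ := norm_sum_le _ _
    have h2 : (∑ t ∈ Ico y x, ‖f (t + 1) - f t‖) ^ 2 ≤
        ((Ico y x).card : ℝ) * ∑ t ∈ Ico y x, ‖f (t + 1) - f t‖ ^ 2 := sq_sum_le_card_mul_sum_sq
    have h3 : ((Ico y x).card : ℝ) ≤ G := by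
      rw [Nat.card_Ico]
      have : x - y ≤ G := by
        have : (c + 1) * G = c * G + G := by ring
        omega
      exact_mod_cast this
    have h4 : ∑ t ∈ Ico y x, ‖f (t + 1) - f t‖ ^ 2 ≤
        ∑ t ∈ Ico (c * G) ((c + 1) * G), ‖f (t + 1) - f t‖ ^ 2 := by
      refine sum_le_sum_of_subset_of_nonneg ?_ fun _ _ _ => by positivity
      intro t ht
      rw [mem_Ico] at ht ⊢
      omega
    calc ‖∑ t ∈ Ico y x, (f (t + 1) - f t)‖ ^ 2 ≤ (∑ t ∈ Ico y x, ‖f (t + 1) - f t‖) ^ 2 :=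
          pow_le_pow_left₀ (norm_nonneg _) h1 2
      _ ≤ ((Ico y x).card : ℝ) * ∑ t ∈ Ico y x, ‖f (t + 1) - f t‖ ^ 2 := h2
      _ ≤ G * ∑ t ∈ Ico (c * G) ((c + 1) * G), ‖f (t + 1) - f t‖ ^ 2 :=
          mul_le_mul h3 h4 (by positivity) (by positivity)
  rcases le_total y x with h | h
  · exact key y x h hy hx
  · rw [norm_sub_rev]
    exact key x y h hx hy

theorem sq_ge (a b : ℂ) (η : ℝ) (hη : 0 < η) :
    (1 - η) * ‖b‖ ^ 2 - (1 / η) * ‖b - a‖ ^ 2 ≤ ‖a‖ ^ 2 := by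
  have h1 : ‖b‖ ≤ ‖a‖ + ‖b - a‖ := by
    have : b = a + (b - a) := by ring
    calc ‖b‖ = ‖a + (b - a)‖ := by rw [← this]
      _ ≤ _ := norm_add_le _ _
  have h2 : ‖b‖ ^ 2 ≤ (‖a‖ + ‖b - a‖) ^ 2 := pow_le_pow_left₀ (norm_nonneg _) h1 2
  set p := ‖a‖
  set q := ‖b - a‖
  have hp : 0 ≤ p := norm_nonneg _
  have hq : 0 ≤ q := norm_nonneg _
  rcases le_or_gt 1 η with h | h
  · have : (1 - η) * ‖b‖ ^ 2 ≤ 0 := mul_nonpos_of_nonpos_of_nonneg (by linarith) (by positivity)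
    have : 0 ≤ (1 / η) * q ^ 2 := by positivity
    nlinarith
  · have h3 : (1 - η) * ‖b‖ ^ 2 ≤ (1 - η) * (p + q) ^ 2 := mul_le_mul_of_nonneg_left h2 (by linarith)
    have h4 : η * ((1 - η) * (p + q) ^ 2) ≤ η * p ^ 2 + q ^ 2 := by
      nlinarith [sq_nonneg (η * p - (1 - η) * q), sq_nonneg q, mul_nonneg hη.le (sq_nonneg q),
        mul_nonneg (mul_nonneg hη.le hη.le) (sq_nonneg p), mul_nonneg (mul_nonneg hη.le hη.le) (sq_nonneg (p + q))]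
    have h5 : (1 - η) * (p + q) ^ 2 ≤ p ^ 2 + (1 / η) * q ^ 2 := by
      have h6 : η * (p ^ 2 + (1 / η) * q ^ 2) = η * p ^ 2 + q ^ 2 := by field_simp
      exact le_of_mul_le_mul_left (by rw [h6]; exact h4) hη
    linarith

/-- the lower bound for the values in a cell -/
noncomputable def EC (f : ℕ → ℂ) (c G : ℕ) (η : ℝ) : ℝ :=
  (1 - η) * (1 / G) * ∑ x ∈ Ico (c * G) ((c + 1) * G), ‖f x‖ ^ 2 -
    (G / η) * ∑ t ∈ Ico (c * G) ((c + 1) * G), ‖f (t + 1) - f t‖ ^ 2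

theorem EC_le (f : ℕ → ℂ) (c G : ℕ) (hG : 0 < G) (η : ℝ) (hη : 0 < η) (y : ℕ)
    (hy : y ∈ Ico (c * G) ((c + 1) * G)) : EC f c G η ≤ ‖f y‖ ^ 2 := by
  have hG0 : (0 : ℝ) < G := by exact_mod_cast hG
  set D := ∑ t ∈ Ico (c * G) ((c + 1) * G), ‖f (t + 1) - f t‖ ^ 2 with hD
  have h1 : ∀ x ∈ Ico (c * G) ((c + 1) * G), (1 - η) * ‖f x‖ ^ 2 - (1 / η) * (G * D) ≤ ‖f y‖ ^ 2 := by
    intro x hx
    have h2 := sq_ge (f y) (f x) η hη
    have h3 := cell_var f c G y x hy hx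
    have h4 : (1 / η) * ‖f x - f y‖ ^ 2 ≤ (1 / η) * (G * D) := mul_le_mul_of_nonneg_left h3 (by positivity)
    linarith
  have h2 := sum_le_sum h1
  rw [sum_const, Nat.card_Ico, nsmul_eq_mul, sum_sub_distrib, ← mul_sum, sum_const, Nat.card_Ico,
    nsmul_eq_mul] at h2
  have h3 : (c + 1) * G - c * G = G := by
    have : (c + 1) * G = c * G + G := by ring
    omega
  rw [h3] at h2
  unfold EC
  have h4 : (G : ℝ) * ((1 - η) * (1 / G) * ∑ x ∈ Ico (c * G) ((c + 1) * G), ‖f x‖ ^ 2 - (G / η) * D) ≤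
      G * ‖f y‖ ^ 2 := by
    refine le_trans (le_of_eq ?_) h2
    field_simp
  exact le_of_mul_le_mul_left h4 hG0

end Pool.Agent.H535.AW
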