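import Mathlib

set_option autoImplicit false

/-!
Sums of `μ²(t)/φ(t)` over the integers coprime to `s`: identities.
-/

open Finset

namespace Pool.Agent.H535.AW

/-- `μ²(t)/φ(t)` for `t` coprime to `s` -/
noncomputable def hs (s t : ℕ) : ℝ := if Squarefree t ∧ Nat.Coprime t s then 1 / (Nat.totient t : ℝ) else 0

/-- the sum of `hs` -/
noncomputable def Ls (s : ℕ) (y : ℝ) : ℝ := ∑ t ∈ Icc 1 ⌊y⌋₊, hs s t

/-- the logarithmic mean -/
noncomputable def Is (s : ℕ) (y : ℝ) : ℝ := ∑ t ∈ Icc 1 ⌊y⌋₊, hs s t * Real.log (y / t)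

theorem hs_nonneg (s t : ℕ) : 0 ≤ hs s t := by
  unfold hs
  split_ifs <;> positivity

theorem hs_zero_of_not (s t : ℕ) (h : ¬ Squarefree t) : hs s t = 0 := by
  unfold hs
  rw [if_neg (fun hh => h hh.1)]

theorem hs_one (s : ℕ) : hs s 1 = 1 := by
  unfold hs
  rw [if_pos ⟨squarefree_one, Nat.coprime_one_left s⟩]
  norm_num

theorem hs_mul (s t p : ℕ) (h : Nat.Coprime t p) : hs s (t * p) = hs s t * hs s p := by
  unfold hs
  simp only [Nat.squarefree_mul h, Nat.coprime_mul_iff_left, Nat.totient_mul h]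
  by_cases ha : Squarefree t ∧ t.Coprime s
  · by_cases hb : Squarefree p ∧ p.Coprime s
    · rw [if_pos ha, if_pos hb, if_pos ⟨⟨ha.1, hb.1⟩, ha.2, hb.2⟩]
      push_cast
      rw [one_div_mul_one_div]
    · rw [if_neg hb, mul_zero, if_neg]
      tauto
  · rw [if_neg ha, zero_mul, if_neg]
    tauto

theorem hs_prime_le (s p : ℕ) (hp : p.Prime) : hs s p ≤ 1 / ((p : ℝ) - 1) := by
  have h2 : (2 : ℝ) ≤ p := by exact_mod_cast hp.two_le
  unfold hs
  split_ifs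
  · rw [Nat.totient_prime hp]
    rw [Nat.cast_sub hp.one_lt.le, Nat.cast_one]
  · apply div_nonneg zero_le_one
    linarith

theorem hs_prime_eq (s p : ℕ) (hp : p.Prime) (h : ¬ p ∣ s) : hs s p = 1 / ((p : ℝ) - 1) := by
  unfold hs
  rw [if_pos ⟨hp.squarefree, (Nat.Prime.coprime_iff_not_dvd hp).2 h⟩, Nat.totient_prime hp,
    Nat.cast_sub hp.one_lt.le, Nat.cast_one]

/-- exchange of the order of summation -/
theorem swap (s N : ℕ) (w : ℕ → ℝ) :
    ∑ t ∈ Icc 1 N, hs s t * ∑ p ∈ t.primeFactors, w p =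
      ∑ t ∈ Icc 1 N, hs s t * ∑ p ∈ (Icc 1 (N / t)).filter (fun p => p.Prime ∧ ¬ p ∣ t), hs s p * w p := by
  have e1 : ∑ t ∈ Icc 1 N, hs s t * ∑ p ∈ t.primeFactors, w p =
      ∑ t ∈ (Icc 1 N).filter Squarefree, ∑ p ∈ t.primeFactors, hs s t * w p := by
    rw [sum_filter]
    refine sum_congr rfl fun t _ => ?_
    split_ifs with h
    · rw [mul_sum]
    · rw [hs_zero_of_not s t h, zero_mul]
  have e2 : ∑ t ∈ Icc 1 N, hs s t *
      ∑ p ∈ (Icc 1 (N / t)).filter (fun p => p.Prime ∧ ¬ p ∣ t), hs s p * w p =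
      ∑ t ∈ (Icc 1 N).filter Squarefree,
        ∑ p ∈ (Icc 1 (N / t)).filter (fun p => p.Prime ∧ ¬ p ∣ t), hs s t * (hs s p * w p) := by
    rw [sum_filter]
    refine sum_congr rfl fun t _ => ?_
    split_ifs with h
    · rw [mul_sum]
    · rw [hs_zero_of_not s t h, zero_mul]
  rw [e1, e2, sum_sigma', sum_sigma']
  refine sum_nbij' (fun x => ⟨x.1 / x.2, x.2⟩) (fun x => ⟨x.1 * x.2, x.2⟩) ?_ ?_ ?_ ?_ ?_
  · rintro ⟨t, p⟩ h
    simp only [mem_sigma, mem_filter, mem_Icc, Nat.mem_primeFactors] at h ⊢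
    obtain ⟨⟨⟨h1, h2⟩, h3⟩, h4, h5, h6⟩ := h
    obtain ⟨m, rfl⟩ := h5
    have hp0 : 0 < p := h4.pos
    rw [Nat.mul_div_cancel_left m hp0]
    have hm : 0 < m := by
      rcases Nat.eq_zero_or_pos m with h | h
      · subst h; omega
      · exact h
    refine ⟨⟨⟨hm, ?_⟩, ?_⟩, ⟨hp0, ?_⟩, h4, ?_⟩
    · nlinarith
    · exact h3.squarefree_of_dvd (dvd_mul_left m p)
    · rw [Nat.le_div_iff_mul_le hm]
      exact h2
    · intro hd
      obtain ⟨m', rfl⟩ := hd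
      have := h3 p ⟨m', by ring⟩
      exact h4.one_lt.ne' (Nat.isUnit_iff.1 this)
  · rintro ⟨t, p⟩ h
    simp only [mem_sigma, mem_filter, mem_Icc, Nat.mem_primeFactors] at h ⊢
    obtain ⟨⟨⟨h1, h2⟩, h3⟩, ⟨h4, h5⟩, h6, h7⟩ := h
    rw [Nat.le_div_iff_mul_le (by omega)] at h5
    refine ⟨⟨⟨Nat.mul_pos h1 h6.pos, by rw [mul_comm]; exact h5⟩, ?_⟩, h6, dvd_mul_left p t, ?_⟩
    · rw [Nat.squarefree_mul ((Nat.coprime_comm).1 ((Nat.Prime.coprime_iff_not_dvd h6).2 h7))]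
      exact ⟨h3, h6.squarefree⟩
    · exact (Nat.mul_pos h1 h6.pos).ne'
  · rintro ⟨t, p⟩ h
    simp only [mem_sigma, mem_filter, mem_Icc, Nat.mem_primeFactors] at h
    simp only [Sigma.mk.injEq, heq_eq_eq, and_true]
    exact Nat.div_mul_cancel h.2.2.1
  · rintro ⟨t, p⟩ h
    simp only [mem_sigma, mem_filter, mem_Icc] at h
    simp only [Sigma.mk.injEq, heq_eq_eq, and_true]
    exact Nat.mul_div_cancel t h.2.2.1.pos
  · rintro ⟨t, p⟩ h
    simp only [mem_sigma, mem_filter, mem_Icc, Nat.mem_primeFactors] at h ⊢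
    obtain ⟨⟨⟨h1, h2⟩, h3⟩, h4, h5, h6⟩ := h
    obtain ⟨m, rfl⟩ := h5
    have hp0 : 0 < p := h4.pos
    rw [Nat.mul_div_cancel_left m hp0]
    have hnd : ¬ p ∣ m := by
      intro hd
      obtain ⟨m', rfl⟩ := hd
      have := h3 p ⟨m', by ring⟩
      exact h4.one_lt.ne' (Nat.isUnit_iff.1 this)
    rw [mul_comm p m, hs_mul s m p ((Nat.coprime_comm).1 ((Nat.Prime.coprime_iff_not_dvd h4).2 hnd))]
    ring

theorem log_sqf (t : ℕ) (h : Squarefree t) : Real.log t = ∑ p ∈ t.primeFactors, Real.log p := by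
  have h1 := Nat.prod_primeFactors_of_squarefree h
  conv_lhs => rw [← h1]
  rw [Nat.cast_prod, Real.log_prod]
  intro p hp
  exact_mod_cast (Nat.prime_of_mem_primeFactors hp).ne_zero

/-- the basic identity -/
theorem log_identity (s : ℕ) (y : ℝ) (hy : 1 ≤ y) :
    Ls s y * Real.log y - Is s y = ∑ t ∈ Icc 1 ⌊y⌋₊, hs s t *
      ∑ p ∈ (Icc 1 (⌊y⌋₊ / t)).filter (fun p => p.Prime ∧ ¬ p ∣ t), hs s p * Real.log p := by
  rw [← swap]
  unfold Ls Is
  rw [sum_mul, ← sum_sub_distrib]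
  refine sum_congr rfl fun t ht => ?_
  rw [mem_Icc] at ht
  have ht0 : (0 : ℝ) < t := by exact_mod_cast ht.1
  by_cases h : Squarefree t
  · rw [← log_sqf t h, Real.log_div (by linarith) ht0.ne']
    ring
  · rw [hs_zero_of_not s t h]
    ring

end Pool.Agent.H535.AW
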