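import Pool.Agent.H535.AW.Hs
import Pool.Graph.R_seed8.W110.HV.Rama

set_option autoImplicit false

/-!
Ramanujan sums and positive definite kernels on sifted sets.
-/

open Finset

namespace Pool.Agent.H535.AW

open Pool.Agent.Helper112 Pool.Agent.W110.HV

theorem sum_div_mul {M : Type*} [AddCommMonoid M] {m n : ℕ} (h : m.Coprime n) (f : ℕ → M) :
    ∑ s ∈ (m * n).divisors, f s = ∑ x ∈ m.divisors ×ˢ n.divisors, f (x.1 * x.2) := by
  rw [Nat.divisors_mul, Finset.mul_def, sum_image h.mul_injOn_divisors]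

/-- Ramanujan sum -/
noncomputable def cr (r : ℕ) (h : ℤ) : ℂ :=
  ∑ d ∈ r.divisors, ((ArithmeticFunction.moebius d : ℤ) : ℂ) *
    (if ((r / d : ℕ) : ℤ) ∣ h then ((r / d : ℕ) : ℂ) else 0)

theorem cr_exp (r : ℕ) (hr : 1 ≤ r) (h : ℤ) :
    ∑ a ∈ (range r).filter (fun a => a.Coprime r), ee (h * ((a : ℝ) / r)) = cr r h := by
  unfold cr
  rw [← H336V.RamanAux.raman_eq r hr h]
  refine sum_congr rfl fun a _ => ?_
  rw [ex_eq_ee]
  congr 1
  ring

theorem cr_one (h : ℤ) : cr 1 h = 1 := by
  unfold cr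
  simp

theorem cr_mul {m n : ℕ} (hmn : m.Coprime n) (h : ℤ) :
    cr (m * n) h = cr m h * cr n h := by
  unfold cr
  rw [sum_div_mul hmn, sum_product, sum_mul_sum]
  refine sum_congr rfl fun d hd => sum_congr rfl fun e he => ?_
  simp only
  rw [Nat.mem_divisors] at hd he
  have h1 : m * n / (d * e) = m / d * (n / e) := Nat.mul_div_mul_comm hd.1 he.1
  have h2 : d.Coprime e := (hmn.coprime_dvd_left hd.1).coprime_dvd_right he.1
  have h3 : (m / d).Coprime (n / e) :=
    (hmn.coprime_dvd_left (Nat.div_dvd_of_dvd hd.1)).coprime_dvd_right (Nat.div_dvd_of_dvd he.1)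
  rw [h1, ArithmeticFunction.isMultiplicative_moebius.map_mul_of_coprime h2]
  have h4 : (((m / d * (n / e) : ℕ)) : ℤ) ∣ h ↔ ((m / d : ℕ) : ℤ) ∣ h ∧ ((n / e : ℕ) : ℤ) ∣ h := by
    constructor
    · intro hh
      push_cast at hh
      exact ⟨(dvd_mul_right _ _).trans hh, (dvd_mul_left _ _).trans hh⟩
    · rintro ⟨ha, hb⟩
      push_cast
      refine IsCoprime.mul_dvd ?_ ha hb
      exact Nat.isCoprime_iff_coprime.2 h3
  by_cases ha : ((m / d : ℕ) : ℤ) ∣ h <;> by_cases hb : ((n / e : ℕ) : ℤ) ∣ h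
  · rw [if_pos (h4.2 ⟨ha, hb⟩), if_pos ha, if_pos hb]
    push_cast
    ring
  · rw [if_neg (fun hh => hb (h4.1 hh).2), if_neg hb]
    ring
  · rw [if_neg (fun hh => ha (h4.1 hh).1), if_neg ha]
    ring
  · rw [if_neg (fun hh => ha (h4.1 hh).1), if_neg ha]
    ring

/-- the primitive part at a prime power -/
noncomputable def kp (p j : ℕ) (h : ℤ) : ℂ := cr (p ^ j) h - (if j = 1 then 1 / ((p : ℂ) - 1) else 0)

/-- the primitive part -/
noncomputable def kk (s : ℕ) (h : ℤ) : ℂ := ∏ p ∈ s.primeFactors, kp p (s.factorization p) h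

theorem kk_one (h : ℤ) : kk 1 h = 1 := by
  unfold kk
  simp

theorem kk_mul {m n : ℕ} (hmn : m.Coprime n) (h : ℤ) : kk (m * n) h = kk m h * kk n h := by
  unfold kk
  rw [hmn.primeFactors_mul, prod_union hmn.disjoint_primeFactors]
  congr 1
  · refine prod_congr rfl fun p hp => ?_
    congr 1
    rw [Nat.factorization_mul_of_coprime hmn, Finsupp.add_apply]
    have : n.factorization p = 0 := by
      apply Nat.factorization_eq_zero_of_not_dvd
      intro hd
      have h1 := hmn.disjoint_primeFactors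
      rw [Finset.disjoint_left] at h1
      have h2 := Nat.mem_primeFactors.1 hp
      rcases Nat.eq_zero_or_pos n with h0 | h0
      · subst h0
        rw [Nat.coprime_zero_right] at hmn
        subst hmn
        exact h2.1.one_lt.ne' (Nat.dvd_one.1 h2.2.1)
      · exact h1 hp (Nat.mem_primeFactors.2 ⟨h2.1, hd, h0.ne'⟩)
    omega
  · refine prod_congr rfl fun p hp => ?_
    congr 1
    rw [Nat.factorization_mul_of_coprime hmn, Finsupp.add_apply]
    have : m.factorization p = 0 := by
      apply Nat.factorization_eq_zero_of_not_dvd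
      intro hd
      have h1 := hmn.disjoint_primeFactors
      rw [Finset.disjoint_right] at h1
      have h2 := Nat.mem_primeFactors.1 hp
      rcases Nat.eq_zero_or_pos m with h0 | h0
      · subst h0
        rw [Nat.coprime_zero_left] at hmn
        subst hmn
        exact h2.1.one_lt.ne' (Nat.dvd_one.1 h2.2.1)
      · exact h1 hp (Nat.mem_primeFactors.2 ⟨h2.1, hd, h0.ne'⟩)
    omega

theorem kk_pow {p : ℕ} (hp : p.Prime) {j : ℕ} (hj : 0 < j) (h : ℤ) : kk (p ^ j) h = kp p j h := by
  unfold kk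
  rw [Nat.primeFactors_prime_pow hj.ne' hp, prod_singleton, hp.factorization_pow, Finsupp.single_eq_same]

theorem hs_mul2 {s1 s2 t1 t2 : ℕ} (h12 : t1.Coprime t2) (ha : t1.Coprime s2) (hb : t2.Coprime s1) :
    hs (s1 * s2) (t1 * t2) = hs s1 t1 * hs s2 t2 := by
  unfold hs
  simp only [Nat.squarefree_mul h12, Nat.coprime_mul_iff_left, Nat.coprime_mul_iff_right, Nat.totient_mul h12]
  by_cases h1 : Squarefree t1 ∧ t1.Coprime s1
  · by_cases h2 : Squarefree t2 ∧ t2.Coprime s2
    · rw [if_pos h1, if_pos h2, if_pos ⟨⟨h1.1, h2.1⟩, ⟨h1.2, hb⟩, ha, h2.2⟩]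
      push_cast
      rw [one_div_mul_one_div]
    · rw [if_neg h2, mul_zero, if_neg]
      tauto
  · rw [if_neg h1, zero_mul, if_neg]
    tauto

/-- the decomposition of the Ramanujan sum -/
theorem cr_decomp (h : ℤ) (r : ℕ) (hr : 1 ≤ r) :
    cr r h = ∑ s ∈ r.divisors, kk s h * (hs s (r / s) : ℂ) := by
  induction r using Nat.recOnPosPrimePosCoprime with
  | prime_pow p j hp hj =>
    rw [Nat.divisors_prime_pow hp, sum_map]
    simp only [Function.Embedding.coeFn_mk]
    rw [sum_range_succ]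
    have hp0 : 0 < p := hp.pos
    rw [Nat.div_self (pow_pos hp0 j), hs_one, kk_pow hp hj]
    obtain ⟨i, rfl⟩ : ∃ i, j = i + 1 := ⟨j - 1, by omega⟩
    rw [sum_range_succ']
    have h1 : ∑ k ∈ range i, kk (p ^ (k + 1)) h * ((hs (p ^ (k + 1)) (p ^ (i + 1) / p ^ (k + 1)) : ℝ) : ℂ) = 0 := by
      refine sum_eq_zero fun k hk => ?_
      rw [mem_range] at hk
      have e1 : p ^ (i + 1) / p ^ (k + 1) = p ^ (i - k) := by
        rw [Nat.pow_div (by omega) hp0]
        congr 1
        omega
      have e2 : hs (p ^ (k + 1)) (p ^ (i + 1) / p ^ (k + 1)) = 0 := by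
        rw [e1]
        unfold hs
        rw [if_neg]
        rintro ⟨_, h3⟩
        have h4 : ¬ (p ^ (i - k)).Coprime (p ^ (k + 1)) := by
          rw [Nat.coprime_pow_left_iff (by omega), Nat.coprime_pow_right_iff (by omega)]
          exact fun h5 => hp.one_lt.ne' (by simpa using h5)
        exact h4 h3
      rw [e2]
      simp
    rw [h1, zero_add, pow_zero, kk_one, Nat.div_one]
    have h2 : (hs 1 (p ^ (i + 1)) : ℂ) = (if i + 1 = 1 then 1 / ((p : ℂ) - 1) else 0) := by
      rcases Nat.eq_zero_or_pos i with hi | hi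
      · subst hi
        rw [zero_add, pow_one, if_pos rfl, hs_prime_eq 1 p hp (by
          intro hd
          exact hp.one_lt.ne' (Nat.dvd_one.1 hd))]
        push_cast
        ring
      · rw [if_neg (by omega), hs_zero_of_not]
        · simp
        · intro hsq
          have h3 := hsq p (by
            rw [← pow_two]
            exact pow_dvd_pow p (by omega))
          exact hp.one_lt.ne' (Nat.isUnit_iff.1 h3)
    rw [h2]
    unfold kp
    push_cast
    ring
  | zero => omega
  | one => rw [cr_one]; simp [kk_one, hs_one]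
  | coprime a b ha hb hab iha ihb =>
    rw [cr_mul hab, iha (by omega), ihb (by omega), sum_div_mul hab, sum_product,
      sum_mul_sum]
    refine sum_congr rfl fun d hd => sum_congr rfl fun e he => ?_
    simp only
    rw [Nat.mem_divisors] at hd he
    have h1 : a * b / (d * e) = a / d * (b / e) := Nat.mul_div_mul_comm hd.1 he.1
    have hda := Nat.div_dvd_of_dvd hd.1
    have heb := Nat.div_dvd_of_dvd he.1
    rw [h1, hs_mul2 ((hab.coprime_dvd_left hda).coprime_dvd_right heb)
      ((hab.coprime_dvd_left hda).coprime_dvd_right he.1)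
      ((hab.symm.coprime_dvd_left heb).coprime_dvd_right hd.1),
      kk_mul ((hab.coprime_dvd_left hd.1).coprime_dvd_right he.1)]
    push_cast
    ring

end Pool.Agent.H535.AW
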