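import Pool.Agent.H535.AW.Arc

set_option autoImplicit false

/-!
The mean square over the arcs around the fractions with small denominators.
-/

open Finset

namespace Pool.Agent.H535.AW

open Pool.Agent.Helper112 Pool.Agent.W110.HV

/-- the level at the distance `i` -/
noncomputable def YQ (Q M : ℕ) (i : ℤ) : ℝ :=
  if i = 0 then (Q : ℝ) else min (Q : ℝ) (M / (2 * ((Q : ℝ) + 1) * |(i : ℝ)|))

theorem YQ_le (Q M : ℕ) (i : ℤ) : YQ Q M i ≤ Q := by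
  unfold YQ
  split_ifs
  · exact le_rfl
  · exact min_le_left _ _

theorem YQ_pos (Q M : ℕ) (hQ : 0 < Q) (hM : 0 < M) (i : ℤ) : 0 < YQ Q M i := by
  have hQ0 : (0 : ℝ) < Q := by exact_mod_cast hQ
  have hM0 : (0 : ℝ) < M := by exact_mod_cast hM
  unfold YQ
  split_ifs with h
  · exact hQ0
  · refine lt_min hQ0 ?_
    have : (0 : ℝ) < |(i : ℝ)| := abs_pos.2 (by exact_mod_cast h)
    positivity

theorem le_YQ (Q M : ℕ) (i : ℤ) (z : ℝ) :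
    z ≤ YQ Q M i ↔ z ≤ Q ∧ (i ≠ 0 → 2 * z * ((Q : ℝ) + 1) * |(i : ℝ)| ≤ M) := by
  unfold YQ
  split_ifs with h
  · simp [h]
  · have h1 : (0 : ℝ) < |(i : ℝ)| := abs_pos.2 (by exact_mod_cast h)
    rw [le_min_iff, le_div_iff₀ (by positivity)]
    constructor
    · rintro ⟨h2, h3⟩
      exact ⟨h2, fun _ => by linarith⟩
    · rintro ⟨h2, h3⟩
      exact ⟨h2, by linarith [h3 h]⟩

/-- the index set -/
noncomputable def US (Q M : ℕ) (T : ℝ) : Finset (Σ _ : ℤ, Σ _ : ℕ, ℕ) :=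
  (Icc (-(M : ℤ)) M).sigma fun i => (Icc 1 ⌊YQ Q M i / T⌋₊).sigma fun r =>
    (range r).filter (fun a => a.Coprime r)

theorem US_facts {Q M : ℕ} {T : ℝ} (hT : 1 ≤ T) {t : Σ _ : ℤ, Σ _ : ℕ, ℕ} (ht : t ∈ US Q M T) :
    1 ≤ t.2.1 ∧ t.2.1 ≤ Q ∧ t.2.2 < t.2.1 ∧ t.2.2.Coprime t.2.1 ∧
      2 * (t.2.1 : ℤ) * (Q + 1) * |t.1| ≤ M := by
  unfold US at ht
  rw [mem_sigma, mem_sigma, mem_filter, mem_range, mem_Icc, mem_Icc] at ht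
  obtain ⟨_, ⟨h1, h2⟩, h3, h4⟩ := ht
  have hT0 : (0 : ℝ) < T := by linarith
  have h5 : (t.2.1 : ℝ) ≤ YQ Q M t.1 / T := by
    rcases Nat.eq_zero_or_pos ⌊YQ Q M t.1 / T⌋₊ with h0 | h0
    · omega
    · exact (Nat.le_floor_iff' (by omega)).1 h2
  have h6 : (t.2.1 : ℝ) ≤ YQ Q M t.1 := by
    rw [le_div_iff₀ hT0] at h5
    have : (0 : ℝ) ≤ t.2.1 := Nat.cast_nonneg _
    nlinarith
  rw [le_YQ] at h6
  refine ⟨h1, by exact_mod_cast h6.1, h3, h4, ?_⟩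
  by_cases hi : t.1 = 0
  · rw [hi, abs_zero, mul_zero]
    exact Int.natCast_nonneg M
  · have h7 := h6.2 hi
    have h8 : ((2 * (t.2.1 : ℤ) * (Q + 1) * |t.1| : ℤ) : ℝ) ≤ ((M : ℤ) : ℝ) := by
      push_cast
      exact h7
    exact_mod_cast h8

theorem US_inj {Q M : ℕ} {T : ℝ} (hT : 1 ≤ T) (hM : 0 < M) (hdiv : ∀ r : ℕ, 1 ≤ r → r ≤ Q → r ∣ M) :
    Set.InjOn (fun t : Σ _ : ℤ, Σ _ : ℕ, ℕ => gp M t.1 t.2.1 t.2.2) (US Q M T : Set _) := by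
  rintro ⟨i, r, a⟩ ht ⟨i', r', a'⟩ ht' h
  rw [mem_coe] at ht ht'
  obtain ⟨h1, h2, h3, h4, h5⟩ := US_facts hT ht
  obtain ⟨h1', h2', h3', h4', h5'⟩ := US_facts hT ht'
  obtain ⟨e1, e2, e3⟩ := gp_inj Q M hM i i' r r' a a' h1 h1' h2 h2' (hdiv r h1 h2) (hdiv r' h1' h2')
    h3 h3' h4 h4' h5 h5' h
  subst e1
  subst e2
  subst e3
  rfl

theorem US_sum (Q M X : ℕ) (v : ℕ → ℂ) (T : ℝ) (hT : 1 ≤ T) (hM : 0 < M)
    (hdiv : ∀ r : ℕ, 1 ≤ r → r ≤ Q → r ∣ M) :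
    ∑ x ∈ (US Q M T).image (fun t => gp M t.1 t.2.1 t.2.2), ‖SX X v ((x : ℝ) / M)‖ ^ 2 =
      ∑ i ∈ Icc (-(M : ℤ)) M, ∑ r ∈ Icc 1 ⌊YQ Q M i / T⌋₊, GG X (fun n => v n * ee (n * ((i : ℝ) / M))) r := by
  rw [sum_image (US_inj hT hM hdiv)]
  have h1 : ∀ t ∈ US Q M T, ‖SX X v ((gp M t.1 t.2.1 t.2.2 : ℝ) / M)‖ ^ 2 =
      ‖SX X (fun n => v n * ee (n * ((t.1 : ℝ) / M))) ((t.2.2 : ℝ) / t.2.1)‖ ^ 2 := by
    intro t ht
    obtain ⟨h1, h2, _⟩ := US_facts hT ht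
    rw [gp_val X M hM v t.1 t.2.1 t.2.2 h1 (hdiv _ h1 h2)]
    congr 2
    unfold SX
    refine sum_congr rfl fun n _ => ?_
    rw [mul_assoc, ← ls_ee_add]
    congr 2
    ring
  rw [sum_congr rfl h1]
  unfold US GG
  rw [sum_sigma]
  refine sum_congr rfl fun i _ => ?_
  rw [sum_sigma]

/-- the mean square over the arcs -/
theorem mass (Q M X : ℕ) (hQ : 0 < Q) (b : ℕ → ℤ) (v : ℕ → ℂ)
    (hv : ∀ n ∈ Icc 1 X, v n ≠ 0 → ∀ p : ℕ, p.Prime → p ≤ Q → ¬ (p : ℤ) ∣ (n : ℤ) - b p)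
    (lm T : ℝ) (hT : 1 ≤ T) (hlm : 0 ≤ lm)
    (hlam : ∀ s : ℕ, 1 ≤ s → s ≤ Q → ∀ w : ℝ, 0 < w → w * s * T ≤ Q → Ls s w ≤ lm * Ls s (w * T))
    (hdiv : ∀ r : ℕ, 1 ≤ r → r ≤ Q → r ∣ M) (hXM : X ≤ M) (hM : 0 < M) (Bad : Finset ℕ)
    (hBad : ∀ x ∈ Bad, ∃ (i : ℤ) (r a : ℕ), 1 ≤ r ∧ (r : ℝ) * T ≤ Q ∧ a < r ∧ a.Coprime r ∧
      2 * ((r : ℝ) * T) * ((Q : ℝ) + 1) * |(i : ℝ)| ≤ M ∧ x = gp M i r a) :
    ∑ x ∈ Bad, ‖SX X v ((x : ℝ) / M)‖ ^ 2 ≤ lm * (M * ∑ n ∈ Icc 1 X, ‖v n‖ ^ 2) := by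
  have hT0 : (0 : ℝ) < T := by linarith
  have hM0 : (0 : ℝ) < M := by exact_mod_cast hM
  have h1 : Bad ⊆ (US Q M T).image (fun t => gp M t.1 t.2.1 t.2.2) := by
    intro x hx
    obtain ⟨i, r, a, h1, h2, h3, h4, h5, h6⟩ := hBad x hx
    rw [mem_image]
    refine ⟨⟨i, r, a⟩, ?_, h6.symm⟩
    unfold US
    rw [mem_sigma, mem_sigma, mem_filter, mem_range, mem_Icc, mem_Icc]
    have hr1 : (1 : ℝ) ≤ r := by exact_mod_cast h1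
    refine ⟨?_, ⟨h1, ?_⟩, h3, h4⟩
    · have h7 : |(i : ℝ)| ≤ M := by
        refine le_trans ?_ h5
        have h8 : 1 ≤ 2 * ((r : ℝ) * T) * ((Q : ℝ) + 1) := by
          have h9 : 1 ≤ (r : ℝ) * T := one_le_mul_of_one_le_of_one_le hr1 hT
          have h10 : (0 : ℝ) ≤ Q := Nat.cast_nonneg _
          nlinarith
        calc |(i : ℝ)| = 1 * |(i : ℝ)| := (one_mul _).symm
          _ ≤ _ := mul_le_mul_of_nonneg_right h8 (abs_nonneg _)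
      rw [abs_le] at h7
      constructor
      · have := h7.1
        have h8 : ((-(M : ℤ) : ℤ) : ℝ) ≤ (i : ℝ) := by push_cast; exact this
        exact_mod_cast h8
      · have := h7.2
        have h8 : (i : ℝ) ≤ ((M : ℤ) : ℝ) := by push_cast; exact this
        exact_mod_cast h8
    · apply Nat.le_floor
      rw [le_div_iff₀ hT0, le_YQ]
      exact ⟨h2, fun _ => h5⟩
  calc ∑ x ∈ Bad, ‖SX X v ((x : ℝ) / M)‖ ^ 2
      ≤ ∑ x ∈ (US Q M T).image (fun t => gp M t.1 t.2.1 t.2.2), ‖SX X v ((x : ℝ) / M)‖ ^ 2 :=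
        sum_le_sum_of_subset_of_nonneg h1 fun x _ _ => by positivity
    _ = ∑ i ∈ Icc (-(M : ℤ)) M, ∑ r ∈ Icc 1 ⌊YQ Q M i / T⌋₊,
          GG X (fun n => v n * ee (n * ((i : ℝ) / M))) r := US_sum Q M X v T hT hM hdiv
    _ ≤ ∑ i ∈ Icc (-(M : ℤ)) M, lm * ∑ r ∈ Icc 1 ⌊YQ Q M i / 1⌋₊,
          GG X (fun n => v n * ee (n * ((i : ℝ) / M))) r := by
        refine sum_le_sum fun i _ => ?_
        have h2 := propA Q X b (fun n => v n * ee (n * ((i : ℝ) / M))) (by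
          intro n hn hn0 p hp hpQ
          exact hv n hn (fun h => hn0 (by simp [h])) p hp hpQ) lm T hT hlam (YQ Q M i / T)
          (div_pos (YQ_pos Q M hQ hM i) hT0) (by
            rw [div_mul_cancel₀ _ hT0.ne']
            exact YQ_le Q M i)
        rw [div_mul_cancel₀ _ hT0.ne'] at h2
        rw [div_one]
        exact h2
    _ = lm * ∑ x ∈ (US Q M 1).image (fun t => gp M t.1 t.2.1 t.2.2), ‖SX X v ((x : ℝ) / M)‖ ^ 2 := by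
        rw [US_sum Q M X v 1 le_rfl hM hdiv, mul_sum]
    _ ≤ lm * ∑ x ∈ range M, ‖SX X v ((x : ℝ) / M)‖ ^ 2 := by
        refine mul_le_mul_of_nonneg_left (sum_le_sum_of_subset_of_nonneg ?_ fun x _ _ => by positivity) hlm
        intro x hx
        rw [mem_image] at hx
        obtain ⟨t, _, rfl⟩ := hx
        exact mem_range.2 (gp_lt M hM _ _ _)
    _ = lm * (M * ∑ n ∈ Icc 1 X, ‖v n‖ ^ 2) := by rw [parseval X M hXM hM v]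

end Pool.Agent.H535.AW
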