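import Pool.Agent.H535.AW.Bd

set_option autoImplicit false

/-!
The differential inequality and the ratio `L(w)/L(w')`.
-/

open Finset

namespace Pool.Agent.H535.AW

theorem floor_exp_mem (t : ℕ) (ht : 1 ≤ t) (l : ℝ) : t ≤ ⌊Real.exp l⌋₊ ↔ Real.log t ≤ l := by
  have ht0 : (0 : ℝ) < t := by exact_mod_cast ht
  rw [Nat.le_floor_iff (Real.exp_pos l).le, Real.log_le_iff_le_exp ht0]

theorem Ls_eq (s : ℕ) (l b : ℝ) (hl : l ≤ b) :
    Ls s (Real.exp l) = ∑ t ∈ Icc 1 ⌊Real.exp b⌋₊, hs s t * (if Real.log t ≤ l then 1 else 0) := by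
  unfold Ls
  have h1 : Icc 1 ⌊Real.exp l⌋₊ = (Icc 1 ⌊Real.exp b⌋₊).filter (fun t : ℕ => Real.log t ≤ l) := by
    ext t
    rw [mem_filter, mem_Icc, mem_Icc]
    constructor
    · rintro ⟨h1, h2⟩
      rw [floor_exp_mem t h1] at h2
      exact ⟨⟨h1, (floor_exp_mem t h1 b).2 (h2.trans hl)⟩, h2⟩
    · rintro ⟨⟨h1, _⟩, h3⟩
      exact ⟨h1, (floor_exp_mem t h1 l).2 h3⟩
  rw [h1, sum_filter]
  refine sum_congr rfl fun t _ => ?_
  split_ifs <;> ring

theorem Is_eq (s : ℕ) (l b : ℝ) (hl : l ≤ b) :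
    Is s (Real.exp l) = ∑ t ∈ Icc 1 ⌊Real.exp b⌋₊, hs s t * max (l - Real.log t) 0 := by
  unfold Is
  have h1 : Icc 1 ⌊Real.exp l⌋₊ = (Icc 1 ⌊Real.exp b⌋₊).filter (fun t : ℕ => Real.log t ≤ l) := by
    ext t
    rw [mem_filter, mem_Icc, mem_Icc]
    constructor
    · rintro ⟨h1, h2⟩
      rw [floor_exp_mem t h1] at h2
      exact ⟨⟨h1, (floor_exp_mem t h1 b).2 (h2.trans hl)⟩, h2⟩
    · rintro ⟨⟨h1, _⟩, h3⟩
      exact ⟨h1, (floor_exp_mem t h1 l).2 h3⟩
  rw [h1, sum_filter]
  refine sum_congr rfl fun t ht => ?_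
  have ht0 : (0 : ℝ) < t := by exact_mod_cast (mem_Icc.1 ht).1
  split_ifs with h
  · rw [Real.log_div (Real.exp_pos l).ne' ht0.ne', Real.log_exp, max_eq_left (by linarith)]
  · rw [max_eq_right (by linarith), mul_zero]

theorem deriv_max (c x : ℝ) :
    HasDerivWithinAt (fun l : ℝ => max (l - c) 0) (if c ≤ x then 1 else 0) (Set.Ici x) x := by
  split_ifs with h
  · have h1 : HasDerivWithinAt (fun l : ℝ => l - c) 1 (Set.Ici x) x :=
      (hasDerivWithinAt_id x _).sub_const c
    refine h1.congr (fun y hy => ?_) ?_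
    · have : x ≤ y := hy
      exact max_eq_left (by linarith)
    · exact max_eq_left (by linarith)
  · push Not at h
    have h1 : HasDerivAt (fun l : ℝ => max (l - c) 0) 0 x := by
      refine (hasDerivAt_const x (0 : ℝ)).congr_of_eventuallyEq ?_
      filter_upwards [Iio_mem_nhds h] with y hy
      have : y < c := hy
      exact max_eq_right (by linarith)
    exact h1.hasDerivWithinAt

/-- the logarithmic means increase at least like the square of the logarithm -/
theorem mono (s : ℕ) (A a b : ℝ) (hab : a ≤ b) (hA : 0 < a + A)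
    (h : ∀ l : ℝ, a ≤ l → l ≤ b → 2 * Is s (Real.exp l) ≤ Ls s (Real.exp l) * (l + A)) :
    Is s (Real.exp a) / (a + A) ^ 2 ≤ Is s (Real.exp b) / (b + A) ^ 2 := by
  set M := ⌊Real.exp b⌋₊ with hM
  set J : ℝ → ℝ := fun l => ∑ t ∈ Icc 1 M, hs s t * max (l - Real.log t) 0 with hJ
  set D : ℝ → ℝ := fun l => ∑ t ∈ Icc 1 M, hs s t * (if Real.log t ≤ l then 1 else 0) with hD
  have hJd : ∀ x : ℝ, HasDerivWithinAt J (D x) (Set.Ici x) x := by
    intro x
    have : HasDerivWithinAt (∑ t ∈ Icc 1 M, fun l : ℝ => hs s t * max (l - Real.log t) 0)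
        (∑ t ∈ Icc 1 M, hs s t * (if Real.log t ≤ x then 1 else 0)) (Set.Ici x) x :=
      HasDerivWithinAt.sum fun t _ => (deriv_max (Real.log t) x).const_mul (hs s t)
    convert this using 1
    ext l
    simp only [hJ, Finset.sum_apply]
  have hJc : Continuous J := by
    refine continuous_finsetSum _ fun t _ => continuous_const.mul ?_
    exact (continuous_id.sub continuous_const).max continuous_const
  have hJI : ∀ l, l ≤ b → J l = Is s (Real.exp l) := fun l hl => (Is_eq s l b hl).symm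
  have hDL : ∀ l, l ≤ b → D l = Ls s (Real.exp l) := fun l hl => (Ls_eq s l b hl).symm
  have hpos : ∀ l, a ≤ l → 0 < l + A := fun l hl => by linarith
  have key := image_le_of_deriv_right_le_deriv_boundary (f := fun _ : ℝ => J a / (a + A) ^ 2)
    (f' := fun _ => 0) (a := a) (b := b) (B := fun l => J l / (l + A) ^ 2)
    (B' := fun l => (D l * (l + A) ^ 2 - J l * (2 * (l + A))) / ((l + A) ^ 2) ^ 2)
    continuousOn_const (fun x _ => hasDerivWithinAt_const _ _ _) le_rfl
    (by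
      refine ContinuousOn.div hJc.continuousOn ?_ ?_
      · exact ((continuous_id.add continuous_const).pow 2).continuousOn
      · intro x hx
        exact (pow_pos (hpos x hx.1) 2).ne')
    (by
      intro x hx
      have hx0 := hpos x hx.1
      have h1 : HasDerivWithinAt (fun l : ℝ => (l + A) ^ 2) (2 * (x + A)) (Set.Ici x) x := by
        have h2 : HasDerivWithinAt (fun l : ℝ => l + A) 1 (Set.Ici x) x :=
          (hasDerivWithinAt_id x _).add_const A
        have h3 := h2.fun_pow 2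
        simpa using h3
      exact (hJd x).div h1 (pow_pos hx0 2).ne')
    (by
      intro x hx
      have hx0 := hpos x hx.1
      have h1 := h x hx.1 hx.2.le
      rw [← hJI x hx.2.le, ← hDL x hx.2.le] at h1
      apply div_nonneg _ (by positivity)
      nlinarith)
  have h2 := key (Set.right_mem_Icc.2 hab)
  rw [hJI a hab, hJI b le_rfl] at h2
  exact h2

/-- comparison of `L` at two points -/
theorem ratio (C : ℝ) (hC : 1 ≤ C)
    (hLI : ∀ s : ℕ, 1 ≤ s → ∀ y : ℝ, 1 ≤ y →
      Ls s y * (Real.log y - C) ≤ 2 * Is s y ∧ 2 * Is s y ≤ Ls s y * (Real.log y + C + gs s))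
    (s : ℕ) (hs1 : 1 ≤ s) (A : ℝ) (hA : C + gs s ≤ A) (a b : ℝ) (ha : 0 ≤ a) (hab : a ≤ b) :
    Ls s (Real.exp a) * ((a - C) * (b + A)) ≤ Ls s (Real.exp b) * (a + A) ^ 2 := by
  have hg := gs_nonneg s
  have hA0 : 0 < a + A := by linarith
  have hb0 : 0 < b + A := by linarith
  have hL : ∀ l, 0 ≤ Ls s (Real.exp l) := fun l => sum_nonneg fun t _ => hs_nonneg s t
  have h1 := mono s A a b hab hA0 (by
    intro l hl _
    have h2 := (hLI s hs1 (Real.exp l) (Real.one_le_exp (by linarith))).2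
    rw [Real.log_exp] at h2
    have h3 : Ls s (Real.exp l) * (l + C + gs s) ≤ Ls s (Real.exp l) * (l + A) :=
      mul_le_mul_of_nonneg_left (by linarith) (hL l)
    linarith)
  rw [div_le_div_iff₀ (by positivity) (by positivity)] at h1
  have h2 := (hLI s hs1 (Real.exp a) (Real.one_le_exp ha)).1
  rw [Real.log_exp] at h2
  have h3 := (hLI s hs1 (Real.exp b) (Real.one_le_exp (by linarith))).2
  rw [Real.log_exp] at h3
  have h4 : Ls s (Real.exp b) * (b + C + gs s) ≤ Ls s (Real.exp b) * (b + A) :=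
    mul_le_mul_of_nonneg_left (by linarith) (hL b)
  have h5 : 2 * Is s (Real.exp b) ≤ Ls s (Real.exp b) * (b + A) := h3.trans h4
  have h6 : Ls s (Real.exp a) * (a - C) * (b + A) ^ 2 ≤
      Ls s (Real.exp b) * (b + A) * (a + A) ^ 2 := by
    calc Ls s (Real.exp a) * (a - C) * (b + A) ^ 2 ≤ 2 * Is s (Real.exp a) * (b + A) ^ 2 :=
          mul_le_mul_of_nonneg_right h2 (by positivity)
      _ ≤ 2 * Is s (Real.exp b) * (a + A) ^ 2 := by linarith
      _ ≤ Ls s (Real.exp b) * (b + A) * (a + A) ^ 2 := mul_le_mul_of_nonneg_right h5 (by positivity)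
  have h7 : (Ls s (Real.exp a) * ((a - C) * (b + A))) * (b + A) ≤
      (Ls s (Real.exp b) * (a + A) ^ 2) * (b + A) := by nlinarith
  exact le_of_mul_le_mul_right h7 hb0

end Pool.Agent.H535.AW
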