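import Pool.Agent.H535.AW.Fin

set_option autoImplicit false

/-!
The final forms of the theorem.
-/

open Finset

namespace Pool.Agent.H535.AW

open Pool.Agent.Helper112 Pool.Agent.W110.HV

theorem shift_sum {M : Type*} [AddCommMonoid M] (X Y : ℕ) (f : ℕ → M) :
    ∑ m ∈ Icc 1 X, f (Y + m) = ∑ n ∈ Ioc Y (Y + X), f n := by
  apply sum_nbij' (fun m => Y + m) (fun n => n - Y)
  · intro m hm
    rw [mem_Icc] at hm
    rw [mem_Ioc]
    omega
  · intro n hn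
    rw [mem_Ioc] at hn
    rw [mem_Icc]
    omega
  · intro m _
    simp
  · intro n hn
    rw [mem_Ioc] at hn
    exact Nat.add_sub_cancel' hn.1.le
  · intro m _
    rfl

theorem shift_SC (X Y k : ℕ) (u : ℕ → ℂ) (a : ℕ) :
    SC X Y k (fun m => u (Y + m)) a = ∑ n ∈ (Ioc Y (Y + X)).filter (fun n => n % k = a), u n := by
  unfold SC
  rw [sum_filter, sum_filter]
  exact shift_sum X Y (fun n => if n % k = a then u n else 0)

/-- the classes `a` modulo `k` which are different from `b p` modulo `p` for every prime factor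
`p` of `k` with `p ^ 2 ≤ X` -/
noncomputable def Al (X : ℕ) (b : ℕ → ℤ) (k : ℕ) : Finset ℕ := by
  classical
  exact (range k).filter (fun a => ∀ p : ℕ, p.Prime → p ∣ k → p ^ 2 ≤ X → ¬ (p : ℤ) ∣ (a : ℤ) - b p)

theorem mem_Al (X : ℕ) (b : ℕ → ℤ) (k a : ℕ) :
    a ∈ Al X b k ↔ a < k ∧ ∀ p : ℕ, p.Prime → p ∣ k → p ^ 2 ≤ X → ¬ (p : ℤ) ∣ (a : ℤ) - b p := by
  classical
  unfold Al
  rw [mem_filter, mem_range]

theorem card_Al (X : ℕ) (b : ℕ → ℤ) (k : ℕ) (hk : 1 ≤ k) : Nat.totient k ≤ (Al X b k).card := by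
  classical
  rw [← Pool.Agent.H535.LB.card_Cls (fun p => (b p % p).toNat) k hk]
  refine card_le_card ?_
  intro a ha
  unfold Pool.Agent.H535.LB.Cls at ha
  rw [mem_filter, mem_range] at ha
  rw [mem_Al]
  refine ⟨ha.1, fun p hp hpk _ h => ?_⟩
  refine ha.2 p (Nat.mem_primeFactors.2 ⟨hp, hpk, by omega⟩) ?_
  have hp0 : (p : ℤ) ≠ 0 := by exact_mod_cast hp.ne_zero
  have h1 : ((b p % p).toNat : ℤ) = b p % p := Int.toNat_of_nonneg (Int.emod_nonneg _ hp0)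
  show (p : ℤ) ∣ (a : ℤ) - ((b p % p).toNat : ℤ)
  rw [h1]
  have h2 : (a : ℤ) - b p % p = ((a : ℤ) - b p) + p * (b p / p) := by
    have := Int.emod_add_mul_ediv (b p) p
    linarith
  rw [h2]
  exact dvd_add h (Dvd.intro _ rfl)

/-- one modulus, sifted sets -/
theorem one_mod_sift (X Y k : ℕ) (hk : 1 ≤ k) (b : ℕ → ℤ) (u : ℕ → ℂ)
    (hu : ∀ n ∈ Ioc Y (Y + X), u n ≠ 0 → ∀ p : ℕ, p.Prime → p ^ 2 ≤ X → ¬ (p : ℤ) ∣ (n : ℤ) - b p)
    (c : ℂ) :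
    ∑ a ∈ range k, ‖SC X Y k (fun m => u (Y + m)) a‖ ^ 2 -
      ‖∑ m ∈ Icc 1 X, u (Y + m)‖ ^ 2 / (Nat.totient k : ℝ) ≤
      ∑ a ∈ Al X b k, ‖∑ n ∈ (Ioc Y (Y + X)).filter (fun n => n % k = a), u n - c‖ ^ 2 := by
  classical
  have hcard := card_Al X b k hk
  have hphi : 0 < Nat.totient k := Nat.totient_pos.2 hk
  have hsub : Al X b k ⊆ range k := by
    intro a ha
    exact mem_range.2 ((mem_Al X b k a).1 ha).1
  have hne : (Al X b k).Nonempty := by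
    rw [← card_pos]
    omega
  have hzero : ∀ a ∈ range k, a ∉ Al X b k → SC X Y k (fun m => u (Y + m)) a = 0 := by
    intro a ha hna
    rw [shift_SC]
    refine sum_eq_zero fun n hn => ?_
    rw [mem_filter] at hn
    by_contra hcon
    apply hna
    rw [mem_Al]
    refine ⟨mem_range.1 ha, fun p hp hpk hpX h => hu n hn.1 hcon p hp hpX ?_⟩
    have h1 : (k : ℤ) ∣ (n : ℤ) - a := by
      rw [← hn.2]
      push_cast
      exact Int.dvd_self_sub_emod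
    have h2 : (p : ℤ) ∣ (n : ℤ) - a := (Int.natCast_dvd_natCast.2 hpk).trans h1
    have h3 := dvd_add h2 h
    have e : (n : ℤ) - a + (a - b p) = n - b p := by ring
    rwa [e] at h3
  have h1 : ∑ a ∈ range k, ‖SC X Y k (fun m => u (Y + m)) a‖ ^ 2 =
      ∑ a ∈ Al X b k, ‖SC X Y k (fun m => u (Y + m)) a‖ ^ 2 := by
    symm
    refine sum_subset hsub fun a ha hna => ?_
    rw [hzero a ha hna, norm_zero, zero_pow (by norm_num)]
  have h2 : ∑ a ∈ Al X b k, SC X Y k (fun m => u (Y + m)) a = ∑ m ∈ Icc 1 X, u (Y + m) := by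
    rw [sum_subset hsub fun a ha hna => hzero a ha hna]
    exact sum_fiberwise_of_maps_to (fun m _ => mem_range.2 (Nat.mod_lt _ hk)) _
  have h3 := min_center _ hne (fun a => SC X Y k (fun m => u (Y + m)) a) c
  rw [h2] at h3
  have h4 : ‖∑ m ∈ Icc 1 X, u (Y + m)‖ ^ 2 / ((Al X b k).card : ℝ) ≤
      ‖∑ m ∈ Icc 1 X, u (Y + m)‖ ^ 2 / (Nat.totient k : ℝ) := by
    apply div_le_div_of_nonneg_left (by positivity) (by exact_mod_cast hphi)
    exact_mod_cast hcard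
  have h5 : ∑ a ∈ Al X b k, ‖∑ n ∈ (Ioc Y (Y + X)).filter (fun n => n % k = a), u n - c‖ ^ 2 =
      ∑ a ∈ Al X b k, ‖SC X Y k (fun m => u (Y + m)) a - c‖ ^ 2 :=
    sum_congr rfl fun a _ => by rw [shift_SC]
  rw [h1, h5]
  linarith only [h3, h4]

/-- **Sifted sets.** -/
theorem sift_var (ε : ℝ) (hε : 0 < ε) (hε1 : ε ≤ 1) : ∃ C : ℝ, ∃ X0 : ℕ, ∀ X : ℕ, X0 ≤ X →
    ∀ K : ℕ, Real.sqrt X * Real.log X ^ C ≤ K → K ≤ X → ∀ (Y : ℕ) (b : ℕ → ℤ) (u : ℕ → ℂ),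
    (∀ n ∈ Ioc Y (Y + X), u n ≠ 0 → ∀ p : ℕ, p.Prime → p ^ 2 ≤ X → ¬ (p : ℤ) ∣ (n : ℤ) - b p) →
    ∀ c : ℕ → ℂ,
    (1 - ε) * (Real.log ((K : ℝ) ^ 2 / X) / Real.log X) * K * ∑ n ∈ Ioc Y (Y + X), ‖u n‖ ^ 2 ≤
      ∑ k ∈ Ioc K (2 * K), ∑ a ∈ Al X b k,
        ‖∑ n ∈ (Ioc Y (Y + X)).filter (fun n => n % k = a), u n - c k‖ ^ 2 := by
  obtain ⟨C, _, X0, h⟩ := main_sum ε hε hε1
  refine ⟨C, X0, fun X hX K hK hKX Y b u hu c => ?_⟩
  have h1 := h X hX K hK hKX Y (fun p => b p - Y) (fun m => u (Y + m)) (by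
    intro m hm hne p hp hpX hdiv
    rw [mem_Icc] at hm
    refine hu (Y + m) (mem_Ioc.2 ⟨by omega, by omega⟩) hne p hp (Nat.le_sqrt'.1 hpX) ?_
    have e : ((Y + m : ℕ) : ℤ) - b p = (m : ℤ) - (b p - Y) := by
      push_cast
      ring
    rw [e]
    exact hdiv)
  rw [shift_sum X Y (fun n => ‖u n‖ ^ 2)] at h1
  refine h1.trans (sum_le_sum fun k hk => ?_)
  rw [mem_Ioc] at hk
  exact one_mod_sift X Y k (by omega) b u hu (c k)

end Pool.Agent.H535.AW
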