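import Pool.Agent.H535.AW.ResA

set_option autoImplicit false

/-!
The case of the primes and of the reduced residue classes.
-/

open Finset

namespace Pool.Agent.H535.AW

open Pool.Agent.Helper112 Pool.Agent.W110.HV

theorem num_b (ε L s K ρ V : ℝ) (hε : 0 < ε) (hε1 : ε ≤ 1) (hL : 100 / ε ≤ L) (hs : 100 / ε * L ≤ s)
    (hK : s * L ^ 8 ≤ K) (hρ : 1 / L ≤ ρ) (hV : 0 ≤ V) :
    2 * (K / s) * V + 18 * L * s * V ≤ (ε / 2) * ρ * K * V := by
  have hL1 : 100 ≤ L := by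
    refine le_trans ?_ hL
    rw [le_div_iff₀ hε]
    linarith
  have hL0 : 0 < L := by linarith
  have h100 : 0 < 100 / ε := by positivity
  have hs0 : 0 < s := lt_of_lt_of_le (by positivity) hs
  have hK0 : 0 < K := lt_of_lt_of_le (by positivity) hK
  have a1 : 100 * L ≤ ε * s := by
    have := mul_le_mul_of_nonneg_left hs hε.le
    have e : ε * (100 / ε * L) = 100 * L := by field_simp
    linarith
  have h1 : 2 * (K / s) ≤ (ε / 4) * (1 / L) * K := by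
    rw [show 2 * (K / s) = (2 * K) / s by ring, show (ε / 4) * (1 / L) * K = (ε * K) / (4 * L) by
      field_simp, div_le_div_iff₀ hs0 (by positivity)]
    have := mul_le_mul_of_nonneg_left a1 hK0.le
    nlinarith only [this, mul_pos hK0 hL0]
  have a2 : s * L ^ 2 * (100 / ε) ≤ K := by
    refine le_trans ?_ hK
    have h2 : (100 / ε) ≤ L ^ 6 := hL.trans (le_self_pow₀ (by linarith) (by norm_num))
    have := mul_le_mul_of_nonneg_left h2 (by positivity : 0 ≤ s * L ^ 2)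
    have e : s * L ^ 2 * L ^ 6 = s * L ^ 8 := by ring
    linarith
  have h2 : 18 * L * s ≤ (ε / 4) * (1 / L) * K := by
    have h3 : (ε / 4) * (1 / L) * (s * L ^ 2 * (100 / ε)) = 25 * (s * L) := by
      field_simp
      ring
    have h4 := mul_le_mul_of_nonneg_left a2 (by positivity : 0 ≤ (ε / 4) * (1 / L))
    rw [h3] at h4
    nlinarith only [h4, mul_pos hs0 hL0]
  have h3 : (ε / 2) * (1 / L) * K ≤ (ε / 2) * ρ * K :=
    mul_le_mul_of_nonneg_right (mul_le_mul_of_nonneg_left hρ (by positivity)) hK0.le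
  have h4 : 2 * (K / s) + 18 * L * s ≤ (ε / 2) * ρ * K := by linarith only [h1, h2, h3]
  have h5 := mul_le_mul_of_nonneg_right h4 hV
  linarith only [h5]

theorem rho_low (X K : ℕ) (C L : ℝ) (hC : 8 ≤ C) (hLdef : L = Real.log X) (hL : 100 ≤ L) (hX : 1 ≤ X)
    (hK : Real.sqrt X * L ^ C ≤ K) :
    Real.sqrt X * L ^ 8 ≤ K ∧ 1 / L ≤ Real.log ((K : ℝ) ^ 2 / X) / L := by
  have hX0 : (0 : ℝ) < X := by exact_mod_cast hX
  have hL0 : 0 < L := by linarith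
  have h1 : L ^ 8 ≤ L ^ C := by
    rw [← Real.rpow_natCast]
    exact Real.rpow_le_rpow_of_exponent_le (by linarith) (by exact_mod_cast hC)
  have h2 : Real.sqrt X * L ^ 8 ≤ K :=
    (mul_le_mul_of_nonneg_left h1 (Real.sqrt_nonneg _)).trans hK
  refine ⟨h2, ?_⟩
  have h3 : Real.sqrt X * 3 ≤ K := by
    refine le_trans ?_ h2
    refine mul_le_mul_of_nonneg_left ?_ (Real.sqrt_nonneg _)
    refine le_trans ?_ (le_self_pow₀ (by linarith) (by norm_num))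
    linarith
  have h4 : (Real.sqrt X * 3) ^ 2 ≤ (K : ℝ) ^ 2 := pow_le_pow_left₀ (by positivity) h3 2
  have h5 : (9 : ℝ) ≤ (K : ℝ) ^ 2 / X := by
    rw [le_div_iff₀ hX0]
    rw [mul_pow, Real.sq_sqrt hX0.le] at h4
    linarith
  have h6 : (1 : ℝ) ≤ Real.log ((K : ℝ) ^ 2 / X) := by
    rw [Real.le_log_iff_exp_le (by linarith)]
    have := Real.exp_one_lt_d9
    linarith
  exact div_le_div_of_nonneg_right h6 hL0.le

theorem tot_err (K X : ℕ) (L : ℝ) (hLdef : L = Real.log X) (hL : 100 ≤ L) (hK : 1 ≤ K) (hKX : K ≤ X)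
    (k : ℕ) (hk : k ∈ Ioc K (2 * K)) : 1 / (Nat.totient k : ℝ) ≤ 3 * L / K := by
  rw [mem_Ioc] at hk
  have hK0 : (0 : ℝ) < K := by exact_mod_cast hK
  have hk0 : (0 : ℝ) < k := by exact_mod_cast (by omega : 0 < k)
  have hX0 : (0 : ℝ) < X := by exact_mod_cast (by omega : 0 < X)
  have h1 := inv_tot_le k (by omega)
  have h2 : Real.log k ≤ 1 + L := by
    have h3 : (k : ℝ) ≤ 2 * X := by exact_mod_cast (by omega : k ≤ 2 * X)
    have h4 := Real.log_le_log hk0 h3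
    rw [Real.log_mul (by norm_num) hX0.ne', ← hLdef] at h4
    have := Real.log_two_lt_d9
    linarith
  have h3 : (1 + 2 * Real.log k) / k ≤ 3 * L / k := by
    apply div_le_div_of_nonneg_right _ hk0.le
    linarith
  have h4 : 3 * L / k ≤ 3 * L / K := by
    apply div_le_div_of_nonneg_left (by linarith) hK0
    exact_mod_cast hk.1.le
  linarith

/-- **Weights on the primes.** -/
theorem prime_var (ε : ℝ) (hε : 0 < ε) (hε1 : ε ≤ 1) : ∃ C : ℝ, ∃ X0 : ℕ, ∀ X : ℕ, X0 ≤ X →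
    ∀ K : ℕ, Real.sqrt X * Real.log X ^ C ≤ K → K ≤ X → ∀ (Y : ℕ) (u : ℕ → ℂ),
    (∀ n ∈ Ioc Y (Y + X), u n ≠ 0 → n.Prime ∧ X < n ^ 2) → ∀ c : ℕ → ℂ,
    (1 - ε) * (Real.log ((K : ℝ) ^ 2 / X) / Real.log X) * K * ∑ n ∈ Ioc Y (Y + X), ‖u n‖ ^ 2 ≤
      ∑ k ∈ Ioc K (2 * K), ∑ a ∈ (range k).filter (fun a => Nat.Coprime k a),
        ‖∑ n ∈ (Ioc Y (Y + X)).filter (fun n => n % k = a), u n - c k‖ ^ 2 := by
  obtain ⟨C, hC8, X1, h⟩ := main_sum (ε / 2) (by positivity) (by linarith)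
  obtain ⟨X2, hX2⟩ := large2 (100 / ε)
  refine ⟨C, max X1 (max X2 1), fun X hX K hK hKX Y u hu c => ?_⟩
  have hXX1 : X1 ≤ X := (le_max_left _ _).trans hX
  have hXX2 : X2 ≤ X := (le_max_left _ _).trans ((le_max_right _ _).trans hX)
  have hX1 : 1 ≤ X := (le_max_right _ _).trans ((le_max_right _ _).trans hX)
  have hX0 : (0 : ℝ) < X := by exact_mod_cast hX1
  obtain ⟨hL, hs⟩ := hX2 X hXX2
  have hsupp : ∀ m ∈ Icc 1 X, u (Y + m) ≠ 0 → (Y + m).Prime ∧ X < (Y + m) ^ 2 := by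
    intro m hm hne
    rw [mem_Icc] at hm
    exact hu (Y + m) (mem_Ioc.2 ⟨by omega, by omega⟩) hne
  have h1 := h X hXX1 K hK hKX Y (fun _ => -(Y : ℤ)) (fun m => u (Y + m)) (by
    intro m hm hne p hp hpX hdiv
    obtain ⟨hpr, hbig⟩ := hsupp m hm hne
    have e : (m : ℤ) - (-(Y : ℤ)) = ((Y + m : ℕ) : ℤ) := by
      push_cast
      ring
    rw [e, Int.natCast_dvd_natCast] at hdiv
    rw [(Nat.prime_dvd_prime_iff_eq hp hpr).1 hdiv] at hpX
    have := Nat.le_sqrt'.1 hpX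
    omega)
  obtain ⟨L, hLdef⟩ : ∃ L : ℝ, L = Real.log X := ⟨_, rfl⟩
  obtain ⟨s, hsdef⟩ : ∃ s : ℝ, s = Real.sqrt X := ⟨_, rfl⟩
  rw [← hLdef] at hL hs hK h1 ⊢
  rw [← hsdef] at hs
  have hL1 : 100 ≤ L := by
    refine le_trans ?_ hL
    rw [le_div_iff₀ hε]
    linarith
  obtain ⟨hK8, hρ⟩ := rho_low X K C L hC8 hLdef hL1 hX1 hK
  rw [← hsdef] at hK8
  have hs2 : s ^ 2 = X := by
    rw [hsdef]
    exact Real.sq_sqrt hX0.le
  have hs0 : 0 < s := by
    rw [hsdef]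
    exact Real.sqrt_pos.2 hX0
  have hsK : s ≤ K := by
    refine le_trans ?_ hK8
    exact le_mul_of_one_le_right hs0.le (one_le_pow₀ (by linarith))
  have hK0 : (0 : ℝ) < K := lt_of_lt_of_le hs0 hsK
  have hK1 : 1 ≤ K := by exact_mod_cast hK0
  obtain ⟨V, hV⟩ : ∃ V : ℝ, V = ∑ m ∈ Icc 1 X, ‖u (Y + m)‖ ^ 2 := ⟨_, rfl⟩
  have hV0 : 0 ≤ V := by
    rw [hV]
    exact sum_nonneg fun _ _ => by positivity
  obtain ⟨A, hAdef⟩ : ∃ A : ℝ, A = s * Real.sqrt V := ⟨_, rfl⟩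
  have hA2 : A * A = X * V := by
    rw [hAdef, ← hs2]
    have := Real.mul_self_sqrt hV0
    calc s * Real.sqrt V * (s * Real.sqrt V) = s ^ 2 * (Real.sqrt V * Real.sqrt V) := by ring
      _ = s ^ 2 * V := by rw [this]
  have hA0 : 0 ≤ A := by
    rw [hAdef]
    positivity
  have hA : ∑ m ∈ Icc 1 X, ‖u (Y + m)‖ ≤ A := by
    have h2 : (∑ m ∈ Icc 1 X, ‖u (Y + m)‖) ^ 2 ≤ A ^ 2 := by
      have h3 := sq_sum_le_card_mul_sum_sq (s := Icc 1 X) (f := fun m => ‖u (Y + m)‖)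
      rw [Nat.card_Icc, Nat.add_sub_cancel, ← hV] at h3
      rw [pow_two A, hA2]
      exact h3
    exact le_of_sq_le_sq h2 hA0
  have hlow : ∀ m ∈ Icc 1 X, u (Y + m) ≠ 0 → s ≤ ((Y + m : ℕ) : ℝ) := by
    intro m hm hne
    have h2 := (hsupp m hm hne).2
    rw [hsdef]
    apply Real.sqrt_le_iff.2
    refine ⟨Nat.cast_nonneg _, ?_⟩
    exact_mod_cast h2.le
  obtain ⟨U, hU⟩ : ∃ U : ℕ → ℝ, U = fun k => ∑ m ∈ (Icc 1 X).filter (fun m => (Y + m) ∣ k), ‖u (Y + m)‖ ^ 2 :=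
    ⟨_, rfl⟩
  obtain ⟨W, hW⟩ : ∃ W : ℕ → ℝ, W = fun k => ∑ m ∈ (Icc 1 X).filter (fun m => (Y + m) ∣ k), ‖u (Y + m)‖ :=
    ⟨_, rfl⟩
  have hUs : ∑ k ∈ Ioc K (2 * K), U k ≤ (K / s + 1) * V := by
    rw [hU, hV]
    refine sum_div_support X Y K (fun m => ‖u (Y + m)‖ ^ 2) (fun m => by positivity) s hs0 ?_
    intro m hm hne
    refine hlow m hm ?_
    intro h0
    apply hne
    show ‖u (Y + m)‖ ^ 2 = 0
    rw [h0, norm_zero, zero_pow (by norm_num)]
  have hWs : ∑ k ∈ Ioc K (2 * K), W k ≤ (K / s + 1) * A := by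
    refine le_trans ?_ (mul_le_mul_of_nonneg_left hA (by positivity))
    rw [hW]
    refine sum_div_support X Y K (fun m => ‖u (Y + m)‖) (fun m => norm_nonneg _) s hs0 ?_
    intro m hm hne
    refine hlow m hm ?_
    intro h0
    apply hne
    show ‖u (Y + m)‖ = 0
    rw [h0, norm_zero]
  have hW0 : ∀ k, 0 ≤ W k := by
    intro k
    rw [hW]
    exact sum_nonneg fun _ _ => norm_nonneg _
  have hKs : (K : ℝ) / s + 1 ≤ 2 * (K / s) := by
    have : 1 ≤ (K : ℝ) / s := by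
      rw [le_div_iff₀ hs0]
      linarith
    linarith
  have hone : ∀ k ∈ Ioc K (2 * K),
      (∑ a ∈ range k, ‖SC X Y k (fun m => u (Y + m)) a‖ ^ 2 -
        ‖∑ n ∈ Icc 1 X, u (Y + n)‖ ^ 2 / (Nat.totient k : ℝ)) - U k - (3 * A * (3 * L / K)) * W k ≤
      ∑ a ∈ (range k).filter (fun a => Nat.Coprime k a),
        ‖∑ n ∈ (Ioc Y (Y + X)).filter (fun n => n % k = a), u n - c k‖ ^ 2 := by
    intro k hk
    have h2 := tot_err K X L hLdef hL1 hK1 hKX k hk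
    rw [mem_Ioc] at hk
    have h3 := one_mod X Y k (by omega) (fun m => u (Y + m)) (fun m hm hne => (hsupp m hm hne).1) (c k) A hA
    have h4 : (3 * A * W k) / (Nat.totient k : ℝ) ≤ (3 * A * (3 * L / K)) * W k := by
      have h5 := mul_le_mul_of_nonneg_left h2 (mul_nonneg (mul_nonneg (by norm_num : (0 : ℝ) ≤ 3) hA0) (hW0 k))
      calc (3 * A * W k) / (Nat.totient k : ℝ) = 3 * A * W k * (1 / (Nat.totient k : ℝ)) := by ring
        _ ≤ 3 * A * W k * (3 * L / K) := h5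
        _ = (3 * A * (3 * L / K)) * W k := by ring
    have h6 : ∑ a ∈ (range k).filter (fun a => Nat.Coprime k a),
        ‖∑ n ∈ (Ioc Y (Y + X)).filter (fun n => n % k = a), u n - c k‖ ^ 2 =
        ∑ a ∈ (range k).filter (fun a => Nat.Coprime k a), ‖SC X Y k (fun m => u (Y + m)) a - c k‖ ^ 2 :=
      sum_congr rfl fun a _ => by rw [shift_SC]
    rw [h6]
    refine le_trans ?_ h3
    have e1 : U k = ∑ m ∈ (Icc 1 X).filter (fun m => (Y + m) ∣ k), ‖u (Y + m)‖ ^ 2 := by rw [hU]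
    have e2 : W k = ∑ m ∈ (Icc 1 X).filter (fun m => (Y + m) ∣ k), ‖u (Y + m)‖ := by rw [hW]
    rw [← e1, ← e2]
    linarith only [h4]
  have hsum := sum_le_sum hone
  rw [sum_sub_distrib, sum_sub_distrib, ← mul_sum] at hsum
  rw [← hV] at h1
  rw [← shift_sum X Y (fun n => ‖u n‖ ^ 2), ← hV]
  have hUs2 : ∑ k ∈ Ioc K (2 * K), U k ≤ 2 * (K / s) * V :=
    hUs.trans (mul_le_mul_of_nonneg_right hKs hV0)
  have hWs2 : (3 * A * (3 * L / K)) * ∑ k ∈ Ioc K (2 * K), W k ≤ 18 * L * s * V := by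
    have h2 : (3 * A * (3 * L / K)) * ∑ k ∈ Ioc K (2 * K), W k ≤
        (3 * A * (3 * L / K)) * (2 * (K / s) * A) :=
      mul_le_mul_of_nonneg_left (hWs.trans (mul_le_mul_of_nonneg_right hKs hA0)) (by positivity)
    refine h2.trans (le_of_eq ?_)
    have e : (3 * A * (3 * L / K)) * (2 * (K / s) * A) = 18 * L * (A * A) / s := by
      field_simp
      ring
    rw [e, hA2, ← hs2]
    field_simp
  have hnum := num_b ε L s K (Real.log ((K : ℝ) ^ 2 / X) / L) V hε hε1 hL hs hK8 hρ hV0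
  have hfin : (1 - ε) * (Real.log ((K : ℝ) ^ 2 / X) / L) * K * V =
      (1 - ε / 2) * (Real.log ((K : ℝ) ^ 2 / X) / L) * K * V -
        (ε / 2) * (Real.log ((K : ℝ) ^ 2 / X) / L) * K * V := by ring
  rw [hfin]
  linarith only [hsum, h1, hUs2, hWs2, hnum]

end Pool.Agent.H535.AW
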