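import Pool.Agent.H535.AW.Mass
import Pool.Agent.H535.AW.Cnt
import Pool.Agent.H535.AW.Gal

set_option autoImplicit false

/-!
The mean square at the fractions with denominators in `(K, 2K]` away from the fractions with small
denominators.
-/

open Finset

namespace Pool.Agent.H535.AW

open Pool.Agent.Helper112 Pool.Agent.W110.HV

/-- a cell away from the fractions with small denominators -/
def GoodC (n N R : ℕ) (c : ℕ) : Prop :=
  ∀ r : ℕ, 1 ≤ r → r ≤ R → ∀ a : ℤ, 1 / ((n : ℝ) + 1) < |(r : ℝ) * ((c : ℝ) / N) - a|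

open Classical in
/-- the points of the bad cells -/
noncomputable def BadP (n N R G : ℕ) : Finset ℕ := (range (N * G)).filter (fun x => ¬ GoodC n N R (x / G))

theorem bad_arc (Q n N R G M : ℕ) (hM : M = N * G) (hG : 0 < G) (hN : 0 < N) (T : ℝ) (hT : 1 ≤ T)
    (hdiv : ∀ r : ℕ, 1 ≤ r → r ≤ Q → r ∣ M) (hRT : (R : ℝ) * T ≤ Q)
    (hTn : 2 * T * ((Q : ℝ) + 1) * (1 / ((n : ℝ) + 1) + (R : ℝ) / N) ≤ 1) (x : ℕ) (hx : x ∈ BadP n N R G) :
    ∃ (i : ℤ) (r a : ℕ), 1 ≤ r ∧ (r : ℝ) * T ≤ Q ∧ a < r ∧ a.Coprime r ∧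
      2 * ((r : ℝ) * T) * ((Q : ℝ) + 1) * |(i : ℝ)| ≤ M ∧ x = gp M i r a := by
  classical
  unfold BadP at hx
  rw [mem_filter, mem_range] at hx
  obtain ⟨hxM, hbad⟩ := hx
  unfold GoodC at hbad
  push Not at hbad
  obtain ⟨r0, hr1, hrR, a0, ha0⟩ := hbad
  have hN0 : (0 : ℝ) < N := by exact_mod_cast hN
  have hG0 : (0 : ℝ) < G := by exact_mod_cast hG
  have hM0 : 0 < M := by rw [hM]; positivity
  have hM0' : (0 : ℝ) < M := by exact_mod_cast hM0
  have hQ0 : (0 : ℝ) ≤ Q := Nat.cast_nonneg _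
  -- reduction
  obtain ⟨g, a1, r1, hg, hcop, ha1, hr1'⟩ : ∃ (g : ℕ) (a1 : ℤ) (r1 : ℕ), 1 ≤ g ∧ IsCoprime a1 (r1 : ℤ) ∧
      a0 = g * a1 ∧ r0 = g * r1 := by
    have hg0 : 0 < Int.gcd a0 r0 := Int.gcd_pos_of_ne_zero_right _ (by exact_mod_cast (by omega : r0 ≠ 0))
    have hd1 : ((Int.gcd a0 r0 : ℕ) : ℤ) ∣ a0 := Int.gcd_dvd_left _ _
    have hd2 : Int.gcd a0 r0 ∣ r0 := by
      have : ((Int.gcd a0 r0 : ℕ) : ℤ) ∣ (r0 : ℤ) := Int.gcd_dvd_right _ _
      exact_mod_cast this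
    obtain ⟨g, hgd⟩ : ∃ g : ℕ, Int.gcd a0 r0 = g := ⟨_, rfl⟩
    rw [hgd] at hg0 hd1 hd2
    obtain ⟨a1, h1⟩ := hd1
    obtain ⟨r1, h2⟩ := hd2
    refine ⟨g, a1, r1, hg0, ?_, h1, h2⟩
    rw [Int.isCoprime_iff_gcd_eq_one]
    rw [h1, h2] at hgd
    push_cast at hgd
    rw [Int.gcd_mul_left, Int.natAbs_natCast] at hgd
    have h4 : g * Int.gcd a1 r1 = g * 1 := by rw [mul_one]; exact hgd
    exact Nat.eq_of_mul_eq_mul_left hg0 h4
  have hr1pos : 1 ≤ r1 := by
    rcases Nat.eq_zero_or_pos r1 with h | h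
    · subst h; omega
    · exact h
  have hr1R : r1 ≤ R := by
    have : r1 ≤ r0 := by rw [hr1']; exact Nat.le_mul_of_pos_left r1 hg
    omega
  have hr1Z : (0 : ℤ) < r1 := by exact_mod_cast hr1pos
  have hr10 : (0 : ℝ) < r1 := by exact_mod_cast hr1pos
  have hr1R' : (r1 : ℝ) ≤ R := by exact_mod_cast hr1R
  have hr1T : (r1 : ℝ) * T ≤ Q := le_trans (mul_le_mul_of_nonneg_right hr1R' (by linarith)) hRT
  have hr1Q : r1 ≤ Q := by
    have : (r1 : ℝ) ≤ Q := by nlinarith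
    exact_mod_cast this
  obtain ⟨m, hm⟩ := hdiv r1 hr1pos hr1Q
  have hMr : M / r1 = m := by rw [hm, Nat.mul_div_cancel_left m (by omega)]
  have hMm : (M : ℝ) = r1 * m := by exact_mod_cast hm
  set c := x / G with hc
  have happ : |(r1 : ℝ) * ((c : ℝ) / N) - a1| ≤ 1 / ((n : ℝ) + 1) := by
    have hg1 : (1 : ℝ) ≤ g := by exact_mod_cast hg
    have e1 : (r0 : ℝ) * ((c : ℝ) / N) - a0 = g * ((r1 : ℝ) * ((c : ℝ) / N) - a1) := by
      rw [ha1, hr1']
      push_cast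
      ring
    rw [e1, abs_mul, abs_of_nonneg (by linarith)] at ha0
    calc |(r1 : ℝ) * ((c : ℝ) / N) - a1| = 1 * |(r1 : ℝ) * ((c : ℝ) / N) - a1| := (one_mul _).symm
      _ ≤ g * |(r1 : ℝ) * ((c : ℝ) / N) - a1| := mul_le_mul_of_nonneg_right hg1 (abs_nonneg _)
      _ ≤ _ := ha0
  -- the distance of x
  have hxc : |(x : ℝ) / M - (c : ℝ) / N| ≤ 1 / N := by
    have h1 : c * G ≤ x := Nat.div_mul_le_self x G
    have h2 : x < (c + 1) * G := by
      have := Nat.lt_mul_div_succ x hG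
      rw [mul_comm] at this
      exact this
    have h1' : (c : ℝ) * G ≤ x := by exact_mod_cast h1
    have h2' : (x : ℝ) ≤ (c + 1) * G := by exact_mod_cast h2.le
    have hMG : (M : ℝ) = N * G := by exact_mod_cast hM
    have e1 : (x : ℝ) / M - (c : ℝ) / N = (x - c * G) / M := by
      rw [hMG]
      field_simp
    rw [e1, abs_of_nonneg (div_nonneg (by linarith) hM0'.le), hMG, div_le_div_iff₀ (by positivity) hN0]
    nlinarith
  set i : ℤ := (x : ℤ) - a1 * m with hi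
  have hi1 : |(i : ℝ)| ≤ (M / r1) * (1 / ((n : ℝ) + 1) + (R : ℝ) / N) := by
    have e1 : (i : ℝ) = (M / r1) * ((r1 : ℝ) * ((c : ℝ) / N) - a1 + r1 * ((x : ℝ) / M - (c : ℝ) / N)) := by
      have e2 : (i : ℝ) = x - a1 * m := by
        rw [hi]
        push_cast
        ring
      have e3 : (m : ℝ) = M / r1 := by
        rw [hMm]
        field_simp
      rw [e2, e3]
      field_simp
      ring
    rw [e1, abs_mul, abs_of_pos (by positivity : (0 : ℝ) < M / r1)]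
    refine mul_le_mul_of_nonneg_left ?_ (by positivity)
    refine (abs_add_le _ _).trans ?_
    refine add_le_add happ ?_
    rw [abs_mul, abs_of_pos hr10]
    calc (r1 : ℝ) * |(x : ℝ) / M - (c : ℝ) / N| ≤ R * (1 / N) :=
          mul_le_mul hr1R' hxc (abs_nonneg _) (Nat.cast_nonneg _)
      _ = (R : ℝ) / N := by ring
  have hemod := Int.emod_nonneg a1 hr1Z.ne'
  have hemod2 := Int.emod_lt_of_pos a1 hr1Z
  have hnat : (((a1 % (r1 : ℤ)).toNat : ℕ) : ℤ) = a1 % (r1 : ℤ) := Int.toNat_of_nonneg hemod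
  have hdm := Int.emod_add_mul_ediv a1 (r1 : ℤ)
  refine ⟨i, r1, (a1 % (r1 : ℤ)).toNat, hr1pos, hr1T, by omega, ?_, ?_, ?_⟩
  · rw [← Nat.isCoprime_iff_coprime, hnat]
    have h1 : a1 % (r1 : ℤ) = a1 + (-(a1 / (r1 : ℤ))) * r1 := by linarith
    rw [h1]
    exact IsCoprime.add_mul_right_left hcop _
  · calc 2 * ((r1 : ℝ) * T) * ((Q : ℝ) + 1) * |(i : ℝ)|
        ≤ 2 * ((r1 : ℝ) * T) * ((Q : ℝ) + 1) * ((M / r1) * (1 / ((n : ℝ) + 1) + (R : ℝ) / N)) :=
          mul_le_mul_of_nonneg_left hi1 (by positivity)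
      _ = M * (2 * T * ((Q : ℝ) + 1) * (1 / ((n : ℝ) + 1) + (R : ℝ) / N)) := by
          field_simp
      _ ≤ M * 1 := mul_le_mul_of_nonneg_left hTn hM0'.le
      _ = M := mul_one _
  · unfold gp
    rw [hMr]
    have h1 : (((a1 % (r1 : ℤ)).toNat * m : ℕ) : ℤ) + i = x + (-(a1 / (r1 : ℤ))) * M := by
      have hMZ : (M : ℤ) = r1 * m := by exact_mod_cast hm
      rw [Nat.cast_mul, hnat, hi, hMZ]
      have h2 : a1 % (r1 : ℤ) = a1 - r1 * (a1 / (r1 : ℤ)) := by linarith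
      rw [h2]
      ring
    rw [h1, Int.add_mul_emod_self_right, Int.emod_eq_of_lt (by positivity) (by
      rw [hM]
      exact_mod_cast hxM)]
    simp

/-- the number of the fractions in a cell -/
theorem cell_count (N k c : ℕ) (hk : 0 < k) (hN : 0 < N) (hc : c < N) :
    (Ico ⌈(k : ℝ) * ((c : ℝ) / N)⌉ ⌈(k : ℝ) * ((c : ℝ) / N) + k / N⌉).card ≤
      ((range k).filter (fun j => j * N / k = c)).card := by
  have hN0 : (0 : ℝ) < N := by exact_mod_cast hN
  have hk0 : (0 : ℝ) < k := by exact_mod_cast hk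
  apply card_le_card_of_injOn (fun j => j.toNat)
  · intro j hj
    rw [mem_coe, mem_Ico_ceil] at hj
    rw [mem_coe, mem_filter, mem_range]
    obtain ⟨h1, h2⟩ := hj
    have hj0 : 0 ≤ j := by
      have : (0 : ℝ) ≤ j := le_trans (by positivity) h1
      exact_mod_cast this
    obtain ⟨j', rfl⟩ := Int.eq_ofNat_of_zero_le hj0
    have h1' : (k : ℝ) * c ≤ j' * N := by
      have h3 : (k : ℝ) * ((c : ℝ) / N) * N ≤ ((j' : ℤ) : ℝ) * N := mul_le_mul_of_nonneg_right h1 hN0.le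
      have h4 : (k : ℝ) * ((c : ℝ) / N) * N = k * c := by field_simp
      rw [h4] at h3
      exact_mod_cast h3
    have h2' : (j' : ℝ) * N < k * (c + 1) := by
      have h3 : ((j' : ℤ) : ℝ) * N < ((k : ℝ) * ((c : ℝ) / N) + k / N) * N := mul_lt_mul_of_pos_right h2 hN0
      have h4 : ((k : ℝ) * ((c : ℝ) / N) + k / N) * N = k * (c + 1) := by field_simp
      rw [h4] at h3
      exact_mod_cast h3
    have h1n : k * c ≤ j' * N := by exact_mod_cast h1'
    have h2n : j' * N < k * (c + 1) := by exact_mod_cast h2'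
    simp only [Int.toNat_natCast]
    refine ⟨?_, ?_⟩
    · have h5 : j' * N < k * N := lt_of_lt_of_le h2n (Nat.mul_le_mul_left k (by omega))
      exact lt_of_mul_lt_mul_right h5 (Nat.zero_le N)
    · apply Nat.div_eq_of_lt_le
      · rw [mul_comm]
        exact h1n
      · rw [mul_comm (c + 1) k]
        exact h2n
  · intro j hj j' hj' h
    rw [mem_coe, mem_Ico_ceil] at hj hj'
    have hj0 : 0 ≤ j := by
      have : (0 : ℝ) ≤ j := le_trans (by positivity) hj.1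
      exact_mod_cast this
    have hj0' : 0 ≤ j' := by
      have : (0 : ℝ) ≤ j' := le_trans (by positivity) hj'.1
      exact_mod_cast this
    simp only at h
    omega

end Pool.Agent.H535.AW
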